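import Pool.Agent.FGE.StF
import Pool.Agent.FG2.StF

/-!
# Geometric maximal subgroups of `PSL_n(q)` for ALL `q`: oriented genus 1, non-oriented genus 2

MP_5b5212_al. No condition on `q`: the elements of order dividing `k` of `PSL_n(q)` are the images of the matrices
`y` with `y ^ k` scalar. The final statement `Main`: for all signatures with `σ > 1` and all `q` the image of a random
homomorphism is irreducible, in none of the geometric classes `C2`, …, `C8` of Aschbacher's theorem, and in no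
conjugate of the members of a small family of subgroups, with probability tending to `1`.

`S_X` is the statement of module `X`; the module proves `theorem t_X : M_X` (or `t_X : S_X` if there is
no `M_X`) in `Pool/Agent/FGQ/X.lean`, namespace `FGQ`, importing this file. The statements without a namespace
are those of `RSF`, `FL0`, `FGE`. All files of `Pool/Agent/FGE`, `FG2`, `FL0`, `RSF` may be imported. `q = Nat.card F`.
-/

namespace FGQ

open RSF FL0 FGE Polynomial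

noncomputable section

/-! ## 1. The union bound and the easy classes -/

/-- **PRQ** (copy `FG2/PR2.lean`; shorter). For one `T`: a `t ∈ PSL_n`, `t^k = 1`, all whose preimages satisfy `Q T`: a preimage
`A ∈ SL_n` has `A^k = β` scalar, and `A` determines `t`. So there are at most `q` times `Bd C (μ (1-1/k) n²)` such `t`. The rest
as in `FG2.S_PR2`. -/
def S_PRQ : Prop :=
  ∀ m : List ℕ, (∀ k ∈ m, 2 ≤ k) → (∃ k ∈ m, 1 / (k : ℝ) < sig m) →
    ∀ C : ℝ, 0 ≤ C → ∃ r : ℕ, ∀ n, r ≤ n → ∀ (F : Type) [Field F] [Finite F],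
    ∀ (I : Type) [Finite I] (Q : I → Matrix (Fin n) (Fin n) F → Prop) (μ : ℝ), 0 ≤ μ → μ ≤ 1 / 2 →
      (Nat.card I : ℝ) ≤ Bd C n F ((1 - μ) * (n : ℝ) ^ 2) →
      (∀ T, ∀ k ∈ m, ∀ β : F, (Nat.card {y : GL (Fin n) F //
          y.1 ^ k = β • (1 : Matrix (Fin n) (Fin n) F) ∧ Q T y.1} : ℝ) ≤
        Bd C n F (μ * (1 - 1 / (k : ℝ)) * (n : ℝ) ^ 2)) →
      (∀ T, (Nat.card {y : GL (Fin n) F // Q T y.1} : ℝ) ≤ Bd C n F (μ * (n : ℝ) ^ 2)) →
      prob (OGroup 1 m) (PS n F) (fun ρ => ∃ T, All ρ.range (Q T)) ≤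
        (Nat.card F : ℝ) ^ (-(2 * (n : ℝ))) ∧
      prob (NGroup 2 m) (PS n F) (fun ρ => ∃ T, All ρ.range (Q T)) ≤
        (Nat.card F : ℝ) ^ (-(2 * (n : ℝ)))

def M_PRQ : Prop := S_H2 → FG2.S_LB → S_PRQ

/-- **C2Q** (copy `FGE/C2Y.lean`; `h ^ (k / ℓ) = β` instead of `1`). -/
def S_C2Q : Prop :=
  ∀ k : ℕ, 1 ≤ k → ∃ C : ℝ, 0 ≤ C ∧ ∀ (F : Type) [Field F] [Finite F] (n t a : ℕ), 1 ≤ a → 1 ≤ t →
    t * a = n → ∀ (V : I2 F n t a) (β : F),
    (Nat.card {y : GL (Fin n) F //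
        y.1 ^ k = β • (1 : Matrix (Fin n) (Fin n) F) ∧ P2 V.1 y.1} : ℝ) ≤
      Bd C n F (1 / (t : ℝ) * (1 - 1 / (k : ℝ)) * (n : ℝ) ^ 2)

def M_C2Q : Prop := S_JGL → S_C2Q

/-- **C4Q** (copy `FGE/C4Y.lean`; `B^k = γ`, `C^k = β / γ`). -/
def S_C4Q : Prop :=
  ∀ k : ℕ, 1 ≤ k → ∃ K : ℝ, 0 ≤ K ∧ ∀ (F : Type) [Field F] [Finite F] (n a b : ℕ), 1 ≤ a → 1 ≤ b →
    a * b = n → ∀ (T : I4 F n a b) (β : F),
    (Nat.card {y : GL (Fin n) F //
        y.1 ^ k = β • (1 : Matrix (Fin n) (Fin n) F) ∧ y.1 ∈ T.1} : ℝ) ≤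
      Bd K n F ((1 - 1 / (k : ℝ)) * ((a : ℝ) ^ 2 + (b : ℝ) ^ 2))

def M_C4Q : Prop := S_JGL → S_C4Q

/-- **C5Q** (copy `FGE/C5Y.lean`; `y₀^k = c^k β` is a scalar in `K`). -/
def S_C5Q : Prop :=
  ∀ k : ℕ, 1 ≤ k → ∃ C : ℝ, 0 ≤ C ∧ ∀ (F : Type) [Field F] [Finite F] (n r : ℕ) (K : Subfield F),
    1 ≤ n → 1 ≤ r → Nat.card K ^ r = Nat.card F → ∀ (T : I5 F n K) (β : F),
    (Nat.card {y : GL (Fin n) F //
        y.1 ^ k = β • (1 : Matrix (Fin n) (Fin n) F) ∧ y.1 ∈ T.1} : ℝ) ≤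
      Bd C n F (1 / (r : ℝ) * (1 - 1 / (k : ℝ)) * (n : ℝ) ^ 2)

def M_C5Q : Prop := S_JGL → S_C5Q

/-! ## 2. Field extensions -/

/-- `y` is `φ`-semilinear -/
def SM {F K V : Type} [Field F] [Field K] [Algebra F K] [AddCommGroup V] [Module F V] [Module K V]
    (φ : K ≃ₐ[F] K) (y : Module.End F V) : Prop := ∀ (x : K) (v : V), y (x • v) = φ x • y v

/-- **SL1**. `m = dim_K V`, `b = [K : F]` prime. Let `y` be `φ`-semilinear with `y^b = 1`. The `F`-space `V₀` of the fixed points of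
`y` has `K V₀ = V` (`∑_i y^i (x v)` is in `V₀` for `x ∈ K`; independence of the `φ^i`), and vectors in `V₀` that are linearly
independent over `F` are so over `K` (a shortest relation): an `F`-basis of `V₀` is a `K`-basis of `V`, and it determines
`y`. So there are at most `|GL_m(K)| / |GL_m(F)| ≤ 4 q^(b m² - m²)` such `y`, and for each of them `z` is determined by its
restriction to `V₀`, a matrix over `F` killed by `f`: at most `q^(m² - m²/e)` (`RSF.S_IA`). -/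
def S_SL1 : Prop :=
  ∀ (F K V : Type) [Field F] [Field K] [Finite K] [Algebra F K] [AddCommGroup V] [Module F V]
    [Module K V] [IsScalarTower F K V] [FiniteDimensional K V] (φ : K ≃ₐ[F] K) (b : ℕ),
    b.Prime → Module.finrank F K = b → φ ≠ 1 → ∀ f : F[X], f.Monic → Irreducible f →
    (Nat.card {p : Module.End F V × Module.End F V // SM φ p.1 ∧ p.1 ^ b = 1 ∧
        (∀ (x : K) (v : V), p.2 (x • v) = x • p.2 v) ∧ p.1 * p.2 = p.2 * p.1 ∧
        aeval p.2 f = 0} : ℝ) ≤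
      4 * (Nat.card F : ℝ) ^ ((b : ℝ) * (Module.finrank K V : ℝ) ^ 2 -
        (Module.finrank K V : ℝ) ^ 2 / (f.natDegree : ℝ))

def M_SL1 : Prop := S_PI → S_IA → S_SL1

/-- **NRM**. Let `e` be the degree of `f`, `f ≠ X`. If `b` does not divide `e` then `f` is irreducible over `K`, `L = K[X]/(f)` is a
field with `q^(b e)` elements, `φ` acts on it (`X ↦ X`) by an automorphism of order `b` with fixed field `F[X]/(f)`, and the
norm of `L` over `F[X]/(f)` is surjective (`L^*` is cyclic): `s` with norm `X⁻¹`. If `b ∣ e` then `f` is over `K` the product of `b`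
different irreducible factors `f_0, φ f_0, …, φ^(b-1) f_0`: `s ≡ X⁻¹` modulo `f_0`, `s ≡ 1` modulo the others; then modulo every
factor exactly one of the `φ^i s` is `X⁻¹`, the others are `1`. -/
def S_NRM : Prop :=
  ∀ (F K : Type) [Field F] [Field K] [Finite K] [Algebra F K] (φ : K ≃ₐ[F] K) (b : ℕ),
    b.Prime → Module.finrank F K = b → φ ≠ 1 → ∀ f : F[X], f.Monic → Irreducible f → f ≠ X →
    ∃ s : K[X], f.map (algebraMap F K) ∣
      X * (∏ i ∈ Finset.range b, s.map ((φ ^ i : K ≃ₐ[F] K) : K →+* K)) - 1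

/-- **SLB**. `z = y^b` is `K`-linear and commutes with `y`. With `s` from `S_NRM` let `y₀ = s(z) y`: it is semilinear,
`y₀^b = s(z) (φ s)(z) ⋯ (φ^(b-1) s)(z) z = 1`, `z` commutes with `y₀`, `s(z)` is invertible: `(y₀, z)` determines `y`. `S_SL1`. -/
def S_SLB : Prop :=
  ∀ (F K V : Type) [Field F] [Field K] [Finite K] [Algebra F K] [AddCommGroup V] [Module F V]
    [Module K V] [IsScalarTower F K V] [FiniteDimensional K V] (φ : K ≃ₐ[F] K) (b : ℕ),
    b.Prime → Module.finrank F K = b → φ ≠ 1 → ∀ f : F[X], f.Monic → Irreducible f → f ≠ X →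
    (Nat.card {y : Module.End F V // SM φ y ∧ aeval (y ^ b) f = 0} : ℝ) ≤
      4 * (Nat.card F : ℝ) ^ ((b : ℝ) * (Module.finrank K V : ℝ) ^ 2 -
        (Module.finrank K V : ℝ) ^ 2 / (f.natDegree : ℝ))

def M_SLB : Prop := S_NRM → S_SL1 → S_SLB

/-- **SLR** (compare `RSF.S_XA`, `RSF.S_TS`, `RSF.S_T` for `W = 0`). Induction on the number of irreducible factors: `g = f g'`,
`f` irreducible of degree `e`, `U` the range of `f(y^b)`: a `K`-subspace invariant under `y`, `u = dim_K U`; `g'(y^b) = 0` on `U`,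
`f(y^b) = 0` on `V / U`. For every `u` at most `4 q^(b u (m-u))` subspaces `U` (`S_SUB` over `K`), and given `U`, `y|_U` and the induced
map of `V / U` at most `q^(b u (m-u))` possible `y`. The exponent is `b m² - (u²/κ' + (m-u)²/e) ≤ b m² - m² / (κ' + e)`; constants:
`(m+1) 4 4 (16 (m+1)²)^κ' ≤ (16 (m+1)²)^(κ'+e)`. -/
def S_SLR : Prop :=
  ∀ (F K V : Type) [Field F] [Field K] [Finite K] [Algebra F K] [AddCommGroup V] [Module F V]
    [Module K V] [IsScalarTower F K V] [FiniteDimensional K V] (φ : K ≃ₐ[F] K) (b : ℕ),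
    b.Prime → Module.finrank F K = b → φ ≠ 1 → ∀ g : F[X], g.Monic → 1 ≤ g.natDegree →
    g.coeff 0 ≠ 0 →
    (Nat.card {y : Module.End F V // SM φ y ∧ aeval (y ^ b) g = 0} : ℝ) ≤
      (16 * ((Module.finrank K V : ℝ) + 1) ^ 2) ^ g.natDegree *
        (Nat.card F : ℝ) ^ ((b : ℝ) * (Module.finrank K V : ℝ) ^ 2 -
          (Module.finrank K V : ℝ) ^ 2 / (g.natDegree : ℝ))

def M_SLR : Prop := S_SUB → S_SLB → S_SLR

/-- **C3Q**. `φ` the automorphism `x ↦ y x y⁻¹` of `K` over `F`. If `φ = 1`: `y` is an endomorphism of the `K`-vector space `F^n` of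
dimension `n / b` with `y^k = β`: `S_JGL` over `K` (as `FGE/C3A.lean`). Otherwise `φ` has order `b`, `φ^k = 1` (`y^k` is a scalar), so
`b ∣ k`, and `y` is `φ`-semilinear with `g(y^b) = 0`, `g = X^(k/b) - β`, `β ≠ 0`: `S_SLR`, exponent
`b (n/b)² - (n/b)² b / k = (1/b) (1 - 1/k) n²`. There are at most `b ≤ n` automorphisms `φ`. -/
def S_C3Q : Prop :=
  ∀ k : ℕ, 1 ≤ k → ∃ C : ℝ, 0 ≤ C ∧ ∀ (F : Type) [Field F] [Finite F] (n b : ℕ), 1 ≤ n → b ∣ n →
    b.Prime → ∀ (K : I3 F n b) (β : F),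
    (Nat.card {y : GL (Fin n) F //
        y.1 ^ k = β • (1 : Matrix (Fin n) (Fin n) F) ∧ P3 K.1 y.1} : ℝ) ≤
      Bd C n F (1 / (b : ℝ) * (1 - 1 / (k : ℝ)) * (n : ℝ) ^ 2)

def M_C3Q : Prop := S_JGL → S_SLR → S_C3Q

/-! ## 3. Forms -/

/-- **DCU**. `U` the range of `f(A)`. The restriction of the `c` that commute with `A` to `U`; the kernel consists of the
`c` with `c = 0` on `U`, i.e. `c f(A) = f(A) c = 0`: `F[X]/(f)`-linear maps from `V / U` to the kernel of `f(A)`, both of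
dimension `(n-u)/e` over `F[X]/(f)`: `q^((n-u)²/e)` elements. -/
def S_DCU : Prop :=
  ∀ (F V : Type) [Field F] [Finite F] [AddCommGroup V] [Module F V] [FiniteDimensional F V]
    (f : F[X]), f.Monic → Irreducible f → ∀ (A : Module.End F V)
    (h : ∀ v ∈ LinearMap.range (aeval A f : Module.End F V),
      A v ∈ LinearMap.range (aeval A f : Module.End F V)),
    (Nat.card {c : Module.End F V // c * A = A * c} : ℝ) ≤
      Nat.card {c : Module.End F (LinearMap.range (aeval A f : Module.End F V)) //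
        c * A.restrict h = A.restrict h * c} *
      (Nat.card F : ℝ) ^ (((Module.finrank F V : ℝ) -
        Module.finrank F (LinearMap.range (aeval A f : Module.End F V))) ^ 2 / (f.natDegree : ℝ))

/-- **SQG**. `RSF.S_T` (for `W = 0`) with weights; induction on the number of irreducible factors: `g = f g'`, `U` the range of `f(A)`,
`u = dim U`: at most `4 q^(u (n-u))` subspaces `U` (`S_SUB`), the sum over the `A_U` with `g'(A_U) = 0`, and for each of them at most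
`q^(u (n-u) + (n-u)² (1 - 1/e))` possible `A` (`RSF.S_XA`), `|C(A)|^α ≤ |C(A_U)|^α q^(α (n-u)²/e)` (`S_DCU`). Exponent
`n² - (1-α) (u²/κ' + (n-u)²/e) ≤ n² - (1-α) n² / (κ' + e)`. -/
def S_SQG : Prop :=
  ∀ (F V : Type) [Field F] [Finite F] [AddCommGroup V] [Module F V] [FiniteDimensional F V]
    (g : F[X]), g.Monic → 1 ≤ g.natDegree → ∀ α : ℝ, 0 ≤ α → α ≤ 1 →
    ∑ᶠ A : {A : Module.End F V // aeval A g = 0},
        (Nat.card {c : Module.End F V // c * A.1 = A.1 * c} : ℝ) ^ α ≤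
      (16 * ((Module.finrank F V : ℝ) + 1) ^ 2) ^ g.natDegree *
        (Nat.card F : ℝ) ^ ((Module.finrank F V : ℝ) ^ 2 -
          (1 - α) * (Module.finrank F V : ℝ) ^ 2 / (g.natDegree : ℝ))

def M_SQG : Prop := S_SUB → S_IA → S_DCU → S_SQG

/-- **FXG**. For ALL `y ∈ GL_n`. `b(u, v) = uᵀ J v^τ`: linear in `u`, `τ`-semilinear in `v`, `b(y u, y v) = c b(u, v)`,
`b(v, u) = ε τ(b(u, v))`. Let `V` be any finite dimensional space with such a `y` (invertible), `H(V)` the number of the forms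
`b`, `C(V)` that of the endomorphisms commuting with `y`, `n = dim V`. Claim: `H(V)² ≤ q^n C(V)`, by induction on `n`. Let `p` be the
minimal polynomial of `y`; `V = W ⊕ V'`, `W` cyclic generated by `v`, isomorphic to `F[X]/(p)` (structure theorem). `b` on `W × V` and
`V × W` is determined by `b(v, ·)` (at most `q^n` possibilities: `b(y^a v, u) = c^a b(v, y^(-a) u)`, and the symmetry), and two forms
with the same restriction differ by a form of `V / W ≅ V'`: `H(V) ≤ q^n H(V')`. And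
`C(V) ≥ |Hom(W, V)| |Hom(V', W)| C(V') = q^n q^(n-w) C(V')` (`w = dim W`; `Hom(W, V) ≅ V`, and `|Hom(V', F[X]/(p))| = |V'|` because `V'` is a
sum of modules `F[X]/(d)`, `d ∣ p`). So `H(V)² ≤ q^(2n) q^(n-w) C(V') ≤ q^n C(V)`. -/
def S_FXG : Prop :=
  ∀ (F : Type) [Field F] [Finite F] (n : ℕ) (τ : F ≃+* F) (ε c : F) (y : GL (Fin n) F), c ≠ 0 →
    (Nat.card {J : Matrix (Fin n) (Fin n) F // Her τ ε J ∧
        y.1.transpose * J * y.1.map τ = c • J}) ^ 2 ≤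
      Nat.card F ^ n * Nat.card {a : Matrix (Fin n) (Fin n) F // a * y.1 = y.1 * a}

/-- **C8Q** (as `FGE/C8Y.lean`). `S_ORB`: `Y = {y | y^k = β}`, `R y J'` the relation `Her τ ε J'`, `P8 τ J' y`.
`|GL_n| (number) ≤ |Isom J| ∑_y q q^(n/2) |C(y)|^(1/2)` (`S_ISO`, `S_FXG`), `S_SQG` with `α = 1/2`, `g = X^k - β`, `|GL_n| ≥ q^(n²)/4`:
exponent `n²/2 + n² - n²/(2k) - n²`. -/
def S_C8Q : Prop :=
  ∀ k : ℕ, 1 ≤ k → ∃ C : ℝ, 0 ≤ C ∧ ∀ (F : Type) [Field F] [Finite F] (n : ℕ), 1 ≤ n →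
    ∀ (z : I8 F n) (β : F),
    (Nat.card {y : GL (Fin n) F //
        y.1 ^ k = β • (1 : Matrix (Fin n) (Fin n) F) ∧ P8 z.1.1 z.1.2.2 y.1} : ℝ) ≤
      Bd C n F (1 / 2 * (1 - 1 / (k : ℝ)) * (n : ℝ) ^ 2)

def M_C8Q : Prop := S_PI → S_ORB → S_ISO → S_FXG → S_SQG → S_C8Q

/-! ## 4. The end -/

/-- **GEQ** (as `FGE/GE1.lean`, `FG2/GE2.lean`). -/
def S_GEQ : Prop :=
  ∀ m : List ℕ, (∀ k ∈ m, 2 ≤ k) → (∃ k ∈ m, 1 / (k : ℝ) < sig m) →
    ∃ r : ℕ, ∀ n, r ≤ n → ∀ (F : Type) [Field F] [Finite F],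
      prob (OGroup 1 m) (PS n F) (fun ρ => Irr ρ.range ∧ Geo ρ.range) ≤
        (Nat.card F : ℝ) ^ (-((n : ℝ) / 2)) ∧
      prob (NGroup 2 m) (PS n F) (fun ρ => Irr ρ.range ∧ Geo ρ.range) ≤
        (Nat.card F : ℝ) ^ (-((n : ℝ) / 2))

def M_GEQ : Prop := S_PRQ → S_C2R → S_C2N → S_C2Q → S_C2S → S_C3R → S_C3N → S_C3Q → S_C3S →
  S_C4N → S_C4Q → S_C4S → S_C5N → S_C5Q → S_C5S → S_C8R → S_C8N → S_C8Q → S_C8S → S_GEQ

/-- **GAQ** (as `FGE/GA2.lean`). -/
def S_GAQ : Prop :=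
  ∀ m : List ℕ, (∀ k ∈ m, 2 ≤ k) → (∃ k ∈ m, 1 / (k : ℝ) < sig m) →
    ∃ r : ℕ, ∀ n, r ≤ n → ∀ (F : Type) [Field F] [Finite F],
      prob (OGroup 1 m) (PS n F) (fun ρ => C6 ρ.range ∨ C7 ρ.range) ≤
        (Nat.card F : ℝ) ^ (-((n : ℝ) / 2)) ∧
      prob (NGroup 2 m) (PS n F) (fun ρ => C6 ρ.range ∨ C7 ρ.range) ≤
        (Nat.card F : ℝ) ^ (-((n : ℝ) / 2))

def M_GAQ : Prop := S_PRQ → S_C6N → S_C6S → S_C7N → S_C7S → S_GAQ

/-- The theorem. -/
def Main : Prop :=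
  ∀ m : List ℕ, (∀ k ∈ m, 2 ≤ k) → 1 < sig m → ∀ θ : ℝ,
    (m.length - sig m) < θ * m.length →
    ∃ (η : ℝ) (r : ℕ), 0 < η ∧ ∀ ε : ℝ, 0 < ε → ∃ N : ℕ, ∀ n, r ≤ n →
    ∀ (F : Type) [Field F] [Finite F], N ≤ Nat.card (PS n F) →
    ∀ S : Set (Subgroup (PS n F)), (S.ncard : ℝ) ≤ (Nat.card F : ℝ) ^ (η * (n : ℝ) ^ 2) →
      (∀ M ∈ S, (Nat.card F : ℝ) ^ (θ * (n : ℝ) ^ 2) ≤ M.index) →
      1 - ε ≤ prob (OGroup 1 m) (PS n F) (fun ρ => Irr ρ.range ∧
        (∀ M ∈ S, ¬ InConj ρ.range M) ∧ ¬ Asch ρ.range) ∧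
      1 - ε ≤ prob (NGroup 2 m) (PS n F) (fun ρ => Irr ρ.range ∧
        (∀ M ∈ S, ¬ InConj ρ.range M) ∧ ¬ Asch ρ.range)

/-- **FNQ** (as `FG2/MAIN.lean`; `σ > 1` gives a `k ∈ m` with `1/k ≤ 1/2 < σ`). -/
def M_FNQ : Prop := RSF.MainG → FG2.S_SM2 → S_GEQ → S_GAQ → Main

end

end FGQ
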