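import Mathlib
import Pool.Agent.FGQ.StQ
import Pool.Agent.FGE.C2Y

/-!
# Module `C2Q`: the elements with scalar `k`-th power of an imprimitive group
-/

set_option autoImplicit false

namespace FGQ

open Finset RSF FL0 FGE

/-! ### The bound for a given permutation -/

section Bound

variable {F : Type} [Field F] [Finite F] {a t k : ℕ}

/-- the components: the product around the orbit at the representatives -/
def c2q_X (F : Type) [Field F] (β : F) (a k : ℕ) (l : ℕ) (B : Prop) : Type :=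
  {A : Module.End F (Fin a → F) // B → A ^ (k / l) = β • (1 : Module.End F (Fin a → F))}

theorem c2q_cardX (hJ : S_JGL) (hk : 1 ≤ k) {l : ℕ} (hl : 0 < l) (hlk : l ∣ k) (β : F) (B : Prop)
    [Decidable B] :
    (Nat.card (c2q_X F β a k l B) : ℝ) ≤ (16 * ((a : ℝ) + 1) ^ 2) ^ k *
      (Nat.card F : ℝ) ^ ((a : ℝ) ^ 2 * (1 - ((if B then l else 0 : ℕ) : ℝ) / (k : ℝ))) := by
  have h16 : (1 : ℝ) ≤ 16 * ((a : ℝ) + 1) ^ 2 := by nlinarith [(Nat.cast_nonneg a : (0 : ℝ) ≤ a)]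
  have hq : (0 : ℝ) < Nat.card F := by exact_mod_cast Nat.card_pos
  by_cases hB : B
  · rw [if_pos hB]
    obtain ⟨r, rfl⟩ := hlk
    have hr : 1 ≤ r := by
      rcases Nat.eq_zero_or_pos r with h | h
      · rw [h, Nat.mul_zero] at hk
        omega
      · exact h
    have h1 := hJ F (Fin a → F) r β hr
    rw [Module.finrank_fintype_fun_eq_card, Fintype.card_fin] at h1
    have h2 : Nat.card (c2q_X F β a (l * r) l B) =
        Nat.card {A : Module.End F (Fin a → F) // A ^ r = β • (1 : Module.End F (Fin a → F))} := by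
      refine Nat.card_congr (Equiv.subtypeEquivRight fun A => ?_)
      rw [Nat.mul_div_cancel_left r hl]
      exact ⟨fun h => h hB, fun h _ => h⟩
    rw [h2]
    refine h1.trans ?_
    have h3 : ((l : ℕ) : ℝ) / ((l * r : ℕ) : ℝ) = 1 / (r : ℝ) := by
      push_cast
      have : (0 : ℝ) < l := by exact_mod_cast hl
      have : (0 : ℝ) < r := by exact_mod_cast hr
      field_simp
    rw [h3]
    refine mul_le_mul_of_nonneg_right ?_ (Real.rpow_nonneg hq.le _)
    exact pow_le_pow_right₀ h16 (Nat.le_mul_of_pos_left r hl)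
  · rw [if_neg hB]
    have h2 : Nat.card (c2q_X F β a k l B) ≤ Nat.card (Module.End F (Fin a → F)) :=
      Nat.card_le_card_of_injective (fun A => A.1) Subtype.val_injective
    rw [c2y_card_End] at h2
    have h3 : (Nat.card (c2q_X F β a k l B) : ℝ) ≤ (Nat.card F : ℝ) ^ ((a : ℝ) ^ 2) := by
      have h4 : (Nat.card F : ℝ) ^ ((a : ℝ) ^ 2) = ((Nat.card F ^ (a * a) : ℕ) : ℝ) := by
        rw [Nat.cast_pow, ← Real.rpow_natCast (Nat.card F : ℝ) (a * a)]
        congr 1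
        push_cast
        ring
      rw [h4]
      exact_mod_cast h2
    have h5 : (a : ℝ) ^ 2 * (1 - ((0 : ℕ) : ℝ) / (k : ℝ)) = (a : ℝ) ^ 2 := by
      simp
    rw [h5]
    calc (Nat.card (c2q_X F β a k l B) : ℝ) ≤ 1 * (Nat.card F : ℝ) ^ ((a : ℝ) ^ 2) := by
          rw [one_mul]; exact h3
      _ ≤ _ := by
        refine mul_le_mul_of_nonneg_right ?_ (Real.rpow_nonneg hq.le _)
        exact one_le_pow₀ h16

open Classical in
theorem c2q_prod (hJ : S_JGL) (hk : 1 ≤ k) (β : F) {π : Fin t → Fin t} (h : ∀ i, π^[k] i = i) :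
    (Nat.card (∀ i : Fin t, c2q_X F β a k (Function.minimalPeriod π i)
      (c2y_rep hk h i = i)) : ℝ) ≤ ((16 * ((a : ℝ) + 1) ^ 2) ^ k) ^ t *
      (Nat.card F : ℝ) ^ ((a : ℝ) ^ 2 * (t * (1 - 1 / (k : ℝ)))) := by
  have hq : (0 : ℝ) < Nat.card F := by exact_mod_cast Nat.card_pos
  have hk0 : (0 : ℝ) < k := by exact_mod_cast hk
  rw [Nat.card_pi]
  push_cast
  refine (Finset.prod_le_prod (fun i _ => Nat.cast_nonneg _) fun i _ =>
    c2q_cardX hJ hk (c2y_per_pos hk h i) (c2y_per_dvd h i) β (c2y_rep hk h i = i)).trans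
      (le_of_eq ?_)
  rw [Finset.prod_mul_distrib, Finset.prod_const, Finset.card_univ, Fintype.card_fin,
    ← Real.rpow_sum_of_pos hq]
  congr 2
  rw [← Finset.mul_sum]
  congr 1
  rw [Finset.sum_sub_distrib, Finset.sum_const, Finset.card_univ, Fintype.card_fin,
    ← Finset.sum_div, ← Nat.cast_sum, c2y_sum hk h]
  simp only [nsmul_eq_mul, mul_one]
  ring

end Bound

/-! ### The coordinates -/

section Coord

variable {F : Type} [Field F] {n t a k : ℕ}

variable {V : I2 F n t a} {u : Fin t → (Fin a → F) →ₗ[F] (Fin n → F)}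
  {r : Fin t → (Fin n → F) →ₗ[F] (Fin a → F)}

theorem c2q_pow (y : GL (Fin n) F) (β : F)
    (hyk : y.1 ^ k = β • (1 : Matrix (Fin n) (Fin n) F)) (v : Fin n → F) :
    ((Matrix.toLin' y.1) ^ k) v = β • v := by
  rw [← Matrix.toLin'_pow, hyk, map_smul, Matrix.toLin'_one]
  rfl

theorem c2q_pow_inj (y : GL (Fin n) F) : Function.Injective ((Matrix.toLin' y.1) ^ k) := by
  induction k with
  | zero => exact fun _ _ h => h
  | succ k ih =>
    rw [pow_succ]
    exact ih.comp (c2y_inj_y y)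

theorem c2q_period (hu : ∀ i, LinearMap.range (u i) = V.1 i) (hr : ∀ i x, r i (u i x) = x)
    (ha : 1 ≤ a) {π : Fin t → Fin t} (y : GL (Fin n) F) (β : F)
    (hyk : y.1 ^ k = β • (1 : Matrix (Fin n) (Fin n) F))
    (hy : ∀ i, (V.1 i).map (Matrix.toLin' y.1) = V.1 (π i)) (i : Fin t) : π^[k] i = i := by
  obtain ⟨x, hx⟩ : ∃ x : Fin a → F, x ≠ 0 := ⟨fun _ => 1, fun h => by
    have := congrFun h ⟨0, ha⟩
    simp at this⟩
  have h1 := c2y_iter hu hr hy i x k
  have h0 := c2q_pow y β hyk (u i x)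
  have h2 : u i x ∈ V.1 i := by rw [← hu]; exact ⟨x, rfl⟩
  have h2' : (Matrix.toLin' y.1 ^ k) (u i x) ∈ V.1 i := by
    rw [h0]
    exact Submodule.smul_mem _ _ h2
  have h3 : (Matrix.toLin' y.1 ^ k) (u i x) ∈ V.1 (π^[k] i) := by
    rw [← hu]
    exact ⟨_, h1⟩
  by_contra hne
  have h4 := V.2.1.submodule_iSupIndep.pairwiseDisjoint hne
  have h5 := Submodule.disjoint_def.1 h4 _ h3 h2'
  have h6 : u i x = 0 := c2q_pow_inj (k := k) y (by rw [h5, map_zero])
  apply hx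
  rw [← hr i x, h6, map_zero]

theorem c2q_pgk (hu : ∀ i, LinearMap.range (u i) = V.1 i) (hr : ∀ i x, r i (u i x) = x)
    (ha : 1 ≤ a) {π : Fin t → Fin t} (y : GL (Fin n) F) (β : F)
    (hyk : y.1 ^ k = β • (1 : Matrix (Fin n) (Fin n) F))
    (hy : ∀ i, (V.1 i).map (Matrix.toLin' y.1) = V.1 (π i)) (i : Fin t) :
    c2y_pg π (c2y_g u r π y.1) k i = β • (1 : Module.End F (Fin a → F)) := by
  refine LinearMap.ext fun x => ?_
  have h1 := c2y_iter hu hr hy i x k
  rw [c2q_pow y β hyk, c2q_period hu hr ha y β hyk hy i] at h1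
  have h2 := congrArg (r i) h1
  rw [hr] at h2
  rw [h2, map_smul, hr]
  rfl

end Coord

/-! ### The injection -/

section Inj

variable {F : Type} [Field F] {n t a k : ℕ}

open Classical in
theorem c2q_le [Finite F] (hJ : S_JGL) (hk : 1 ≤ k) (ha : 1 ≤ a) (V : I2 F n t a) (β : F)
    (π : Fin t → Fin t) :
    (Nat.card {y : GL (Fin n) F // y.1 ^ k = β • (1 : Matrix (Fin n) (Fin n) F) ∧
        ∀ i, (V.1 i).map (Matrix.toLin' y.1) = V.1 (π i)} : ℝ) ≤
      ((16 * ((a : ℝ) + 1) ^ 2) ^ k) ^ t *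
        (Nat.card F : ℝ) ^ ((a : ℝ) ^ 2 * (t * (1 - 1 / (k : ℝ)))) := by
  obtain ⟨u, r, hu, hr⟩ := c2y_coord V
  by_cases hne : Nonempty {y : GL (Fin n) F // y.1 ^ k = β • (1 : Matrix (Fin n) (Fin n) F) ∧
      ∀ i, (V.1 i).map (Matrix.toLin' y.1) = V.1 (π i)}
  swap
  · rw [not_nonempty_iff] at hne
    rw [Nat.card_of_isEmpty]
    have hq : (0 : ℝ) ≤ Nat.card F := Nat.cast_nonneg _
    push_cast
    positivity
  obtain ⟨y₀, hy₀, hy₀'⟩ := hne
  have h : ∀ i, π^[k] i = i := c2q_period hu hr ha y₀ β hy₀ hy₀'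
  refine le_trans ?_ (c2q_prod (F := F) (a := a) hJ hk β h)
  have : ∀ i : Fin t, Finite (c2q_X F β a k (Function.minimalPeriod π i)
      (c2y_rep hk h i = i)) := fun i => Subtype.finite
  refine Nat.cast_le.2 (Nat.card_le_card_of_injective
    (fun y i => ⟨if c2y_rep hk h i = i then
      c2y_pg π (c2y_g u r π y.1.1) (Function.minimalPeriod π i) i else
        c2y_g u r π y.1.1 i, ?_⟩) ?_)
  · intro hB
    rw [if_pos hB, ← c2y_pg_mul π _ (Function.iterate_minimalPeriod),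
      Nat.mul_div_cancel' (c2y_per_dvd h i)]
    exact c2q_pgk hu hr ha y.1 β y.2.1 y.2.2 i
  · intro y y' hyy
    have e1 : ∀ i, (if c2y_rep hk h i = i then
      c2y_pg π (c2y_g u r π y.1.1) (Function.minimalPeriod π i) i else c2y_g u r π y.1.1 i) =
      (if c2y_rep hk h i = i then
      c2y_pg π (c2y_g u r π y'.1.1) (Function.minimalPeriod π i) i else
        c2y_g u r π y'.1.1 i) := fun i =>
      congrArg Subtype.val (congrFun hyy i)
    have e2 : ∀ i, c2y_rep hk h i ≠ i → c2y_g u r π y.1.1 i = c2y_g u r π y'.1.1 i := by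
      intro i hi
      have h1 := e1 i
      rwa [if_neg hi, if_neg hi] at h1
    have e3 : ∀ i, c2y_g u r π y.1.1 i = c2y_g u r π y'.1.1 i := by
      intro i
      by_cases hi : c2y_rep hk h i = i
      swap
      · exact e2 i hi
      have h1 := e1 i
      rw [if_pos hi, if_pos hi] at h1
      obtain ⟨s, hs⟩ : ∃ s, Function.minimalPeriod π i = s + 1 :=
        Nat.exists_eq_succ_of_ne_zero (c2y_per_pos hk h i).ne'
      rw [hs, c2y_pg_add, c2y_pg_add] at h1
      have h2 : c2y_pg π (c2y_g u r π y.1.1) s (π^[1] i) =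
          c2y_pg π (c2y_g u r π y'.1.1) s (π^[1] i) := by
        refine c2y_pg_congr π fun j hj => e2 _ ?_
        rw [← Function.iterate_add_apply]
        intro hcon
        have h3 : c2y_rep hk h (π^[j + 1] i) = i :=
          (c2y_rep_eq hk h (⟨j + 1, rfl⟩ : c2y_R π i (π^[j + 1] i))).symm.trans hi
        rw [hcon] at h3
        have h4 : π^[j + 1] i = π^[0] i := h3
        have h5 := Function.iterate_injOn_Iio_minimalPeriod (f := π) (x := i)
          (Set.mem_Iio.2 (by omega)) (Set.mem_Iio.2 (by omega)) h4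
        omega
      rw [h2] at h1
      refine LinearMap.ext fun x => ?_
      have h3 := LinearMap.congr_fun h1 x
      exact c2y_pg_inj π (fun i => c2y_inj_g hu hr y'.1 y'.2.2 i) s (π^[1] i) h3
    have e4 : Matrix.toLin' y.1.1 = Matrix.toLin' y'.1.1 := by
      refine LinearMap.ext fun v => ?_
      have hv : v ∈ ⨆ i, V.1 i := by
        rw [V.2.1.submodule_iSup_eq_top]
        trivial
      refine Submodule.iSup_induction V.1 (motive := fun v => Matrix.toLin' y.1.1 v =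
        Matrix.toLin' y'.1.1 v) hv ?_ ?_ ?_
      · intro i w hw
        rw [← hu] at hw
        obtain ⟨x, rfl⟩ := hw
        rw [← c2y_g_spec hu hr y.2.2, ← c2y_g_spec hu hr y'.2.2, e3]
      · rw [map_zero, map_zero]
      · intro w w' hw hw'
        rw [map_add, map_add, hw, hw']
    exact Subtype.ext (Units.ext (Matrix.toLin'.injective e4))

end Inj

theorem t_C2Q : M_C2Q := by
  classical
  intro hJ k hk
  refine ⟨1 + 6 * k, by positivity, ?_⟩
  intro F _ _ n t a ha ht hta V β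
  have hq1 : (1 : ℝ) ≤ Nat.card F := by exact_mod_cast Nat.card_pos
  have hq : (0 : ℝ) < Nat.card F := by linarith
  have : Finite (GL (Fin n) F) := inferInstance
  -- the union over the permutations
  set Y : (Fin t → Fin t) → Type := fun π => {y : GL (Fin n) F // y.1 ^ k = β • (1 : Matrix (Fin n) (Fin n) F) ∧
        ∀ i, (V.1 i).map (Matrix.toLin' y.1) = V.1 (π i)} with hY
  have h1 : Nat.card {y : GL (Fin n) F // y.1 ^ k = β • (1 : Matrix (Fin n) (Fin n) F) ∧ P2 V.1 y.1} ≤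
      Nat.card (Σ π : Fin t → Fin t, Y π) := by
    have : ∀ π, Finite (Y π) := fun π => Subtype.finite
    have hch : ∀ y : {y : GL (Fin n) F // y.1 ^ k = β • (1 : Matrix (Fin n) (Fin n) F) ∧ P2 V.1 y.1}, ∃ π : Fin t → Fin t,
        ∀ i, (V.1 i).map (Matrix.toLin' y.1.1) = V.1 (π i) := fun y => by
      choose π hπ using y.2.2
      exact ⟨π, hπ⟩
    choose p hp using hch
    refine Nat.card_le_card_of_injective (fun y => ⟨p y, ⟨y.1, y.2.1, hp y⟩⟩) ?_
    intro y y' hyy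
    refine Subtype.ext ?_
    exact congrArg (fun z : (Σ π : Fin t → Fin t, Y π) => z.2.1) hyy
  rw [Nat.card_sigma] at h1
  set M : ℝ := ((16 * ((a : ℝ) + 1) ^ 2) ^ k) ^ t *
        (Nat.card F : ℝ) ^ ((a : ℝ) ^ 2 * (t * (1 - 1 / (k : ℝ)))) with hM
  have h2 : (Nat.card {y : GL (Fin n) F // y.1 ^ k = β • (1 : Matrix (Fin n) (Fin n) F) ∧ P2 V.1 y.1} : ℝ) ≤
      (t : ℝ) ^ t * M := by
    have h3 : (Nat.card {y : GL (Fin n) F // y.1 ^ k = β • (1 : Matrix (Fin n) (Fin n) F) ∧ P2 V.1 y.1} : ℝ) ≤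
        ∑ π : Fin t → Fin t, (Nat.card (Y π) : ℝ) := by exact_mod_cast h1
    refine h3.trans ((Finset.sum_le_sum fun π _ => c2q_le hJ hk ha V β π).trans (le_of_eq ?_))
    rw [Finset.sum_const, Finset.card_univ, Fintype.card_fun, Fintype.card_fin, nsmul_eq_mul]
    push_cast
    rfl
  refine h2.trans ?_
  have hn1 : (1 : ℝ) ≤ (n : ℝ) + 1 := by linarith [(Nat.cast_nonneg n : (0 : ℝ) ≤ n)]
  have hnat : t ≤ n := by rw [← hta]; exact Nat.le_mul_of_pos_right t ha
  have hnaa : a ≤ n := by rw [← hta]; exact Nat.le_mul_of_pos_left a ht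
  have hnt : (t : ℝ) ≤ (n : ℝ) + 1 := by
    have : (t : ℝ) ≤ n := by exact_mod_cast hnat
    linarith
  have hn2 : (2 : ℝ) ≤ (n : ℝ) + 1 := by
    have h4 : 1 ≤ n := le_trans ht hnat
    have h5 : (1 : ℝ) ≤ n := by exact_mod_cast h4
    linarith
  have hna : (a : ℝ) + 1 ≤ (n : ℝ) + 1 := by
    have : (a : ℝ) ≤ n := by exact_mod_cast hnaa
    linarith
  have e1 : (t : ℝ) ^ t ≤ ((n : ℝ) + 1) ^ n :=
    (pow_le_pow_left₀ (Nat.cast_nonneg t) hnt t).trans (pow_le_pow_right₀ hn1 hnat)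
  have e2 : ((16 * ((a : ℝ) + 1) ^ 2) ^ k) ^ t ≤ ((n : ℝ) + 1) ^ (6 * k * n) := by
    have h6 : 16 * ((a : ℝ) + 1) ^ 2 ≤ ((n : ℝ) + 1) ^ 6 := by
      have h7 : (16 : ℝ) ≤ ((n : ℝ) + 1) ^ 4 := by
        calc (16 : ℝ) = 2 ^ 4 := by norm_num
          _ ≤ _ := pow_le_pow_left₀ (by norm_num) hn2 4
      have h8 : ((a : ℝ) + 1) ^ 2 ≤ ((n : ℝ) + 1) ^ 2 :=
        pow_le_pow_left₀ (by positivity) hna 2
      calc 16 * ((a : ℝ) + 1) ^ 2 ≤ ((n : ℝ) + 1) ^ 4 * ((n : ℝ) + 1) ^ 2 :=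
            mul_le_mul h7 h8 (by positivity) (by positivity)
        _ = ((n : ℝ) + 1) ^ 6 := by ring
    rw [← pow_mul]
    refine (pow_le_pow_left₀ (by positivity) h6 (k * t)).trans ?_
    rw [← pow_mul]
    refine pow_le_pow_right₀ hn1 ?_
    rw [← mul_assoc]
    exact Nat.mul_le_mul_left _ hnat
  have e3 : (a : ℝ) ^ 2 * (t * (1 - 1 / (k : ℝ))) = 1 / (t : ℝ) * (1 - 1 / (k : ℝ)) *
      (n : ℝ) ^ 2 := by
    have h9 : (n : ℝ) = t * a := by rw [← hta]; push_cast; ring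
    have h10 : (0 : ℝ) < t := by exact_mod_cast ht
    rw [h9]
    field_simp
  unfold Bd
  have e4 : ((n : ℝ) + 1) ^ ((1 + 6 * (k : ℝ)) * (n : ℝ)) =
      ((n : ℝ) + 1) ^ n * ((n : ℝ) + 1) ^ (6 * k * n) := by
    rw [← pow_add, ← Real.rpow_natCast]
    congr 1
    push_cast
    ring
  rw [e4, hM, e3]
  have e5 : (Nat.card F : ℝ) ^ (1 / (t : ℝ) * (1 - 1 / (k : ℝ)) * (n : ℝ) ^ 2) ≤
      (Nat.card F : ℝ) ^ ((1 + 6 * (k : ℝ)) * (n : ℝ) +
        1 / (t : ℝ) * (1 - 1 / (k : ℝ)) * (n : ℝ) ^ 2) := by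
    refine Real.rpow_le_rpow_of_exponent_le hq1 ?_
    have : 0 ≤ (1 + 6 * (k : ℝ)) * (n : ℝ) := by positivity
    linarith
  rw [← mul_assoc]
  refine mul_le_mul (mul_le_mul e1 e2 (by positivity) (by positivity)) e5
    (Real.rpow_nonneg hq.le _) (by positivity)

end FGQ
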