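import Mathlib
import Pool.Agent.FGQ.StQ

/-!
# Matrices with scalar `k`-th power normalizing a field of matrices

`S_C3Q` of `Pool.Agent.FGQ.StQ`.
-/

set_option autoImplicit false

namespace FGQ

open RSF FL0 FGE Polynomial

noncomputable section

/-- Conjugation by `y` is an automorphism of `K`. -/
theorem c3q_aut (F K : Type) [Field F] [Field K] [Finite K] [Algebra F K] (n : ℕ) (hn : 1 ≤ n)
    (ι : K →ₐ[F] Matrix (Fin n) (Fin n) F) (y : GL (Fin n) F)
    (h : ∀ x : K, ∃ x' : K, y.1 * ι x = ι x' * y.1) :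
    ∃ σ : K ≃ₐ[F] K, ∀ x : K, y.1 * ι x = ι (σ x) * y.1 := by
  have hne : Nonempty (Fin n) := ⟨⟨0, hn⟩⟩
  have hinj : Function.Injective ι := ι.toRingHom.injective
  choose s hs using h
  have key : ∀ a b : K, ι a * y.1 = ι b * y.1 → a = b := fun a b hab =>
    hinj ((Units.mul_left_inj y).1 hab)
  let f : K →ₐ[F] K := AlgHom.ofLinearMap
    { toFun := s
      map_add' := fun a b => key _ _ (by
        rw [← hs, map_add, map_add, mul_add, add_mul, hs, hs])
      map_smul' := fun c a => key _ _ (by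
        rw [← hs, map_smul, RingHom.id_apply, map_smul, mul_smul_comm, smul_mul_assoc, hs]) }
    (key _ _ (by
      change ι (s 1) * y.1 = ι 1 * y.1
      rw [← hs, map_one, mul_one, one_mul]))
    (fun a b => key _ _ (by
      change ι (s (a * b)) * y.1 = ι (s a * s b) * y.1
      rw [← hs, map_mul, map_mul, ← mul_assoc, hs, mul_assoc, hs, mul_assoc]))
  have hbij : Function.Bijective f := (f.toRingHom.injective).bijective_of_finite
  exact ⟨AlgEquiv.ofBijective f hbij, fun x => hs x⟩

/-- The powers of `y`. -/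
theorem c3q_pow (F K : Type) [Field F] [Field K] [Algebra F K] (n : ℕ)
    (ι : K →ₐ[F] Matrix (Fin n) (Fin n) F) (y : GL (Fin n) F) (σ : K ≃ₐ[F] K)
    (h : ∀ x : K, y.1 * ι x = ι (σ x) * y.1) (j : ℕ) (x : K) :
    y.1 ^ j * ι x = ι ((σ ^ j) x) * y.1 ^ j := by
  induction j generalizing x with
  | zero => simp
  | succ j ih =>
    rw [pow_succ, mul_assoc, h, ← mul_assoc, ih, mul_assoc, pow_succ]
    rfl

open Module in
theorem c3q_main (hJ : S_JGL) (hS : S_SLR) (F K : Type) [Field F] [Finite F] [Field K] [Finite K]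
    [Algebra F K] (n b k : ℕ) (hn : 1 ≤ n) (hbn : b ∣ n) (hb : b.Prime) (hk : 1 ≤ k)
    (hc : Nat.card K = Nat.card F ^ b) (ι : K →ₐ[F] Matrix (Fin n) (Fin n) F) (β : F) :
    (Nat.card {y : GL (Fin n) F // y.1 ^ k = β • (1 : Matrix (Fin n) (Fin n) F) ∧
        ∀ x : K, ∃ x' : K, y.1 * ι x = ι x' * y.1} : ℝ) ≤
      Bd (4 * k + 1) n F (1 / (b : ℝ) * (1 - 1 / (k : ℝ)) * (n : ℝ) ^ 2) := by
  classical
  have hne : Nonempty (Fin n) := ⟨⟨0, hn⟩⟩
  have hb1 : 1 ≤ b := hb.one_le
  have hbn' : b ≤ n := Nat.le_of_dvd (by omega) hbn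
  let inst : Module K (Fin n → F) := Module.compHom (Fin n → F)
    (((Matrix.toLinAlgEquiv' (R := F) (n := Fin n)).toRingEquiv.toRingHom).comp ι.toRingHom)
  have hsm : ∀ (x : K) (v : Fin n → F), x • v = (ι x).mulVec v := fun x v => rfl
  have htow : IsScalarTower F K (Fin n → F) := ⟨fun a x v => by
    rw [hsm, hsm, map_smul, Matrix.smul_mulVec]⟩
  have hfin : Module.Finite K (Fin n → F) := Module.Finite.of_finite
  set d : ℕ := finrank K (Fin n → F) with hd
  have hq : 2 ≤ Nat.card F := by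
    have := Finite.one_lt_card (α := F)
    omega
  have hrk : finrank F K = b := by
    have h1 : Nat.card K = Nat.card F ^ finrank F K := Module.natCard_eq_pow_finrank
    rw [hc] at h1
    exact (Nat.pow_right_injective hq h1).symm
  have hcard : b * d = n := by
    have h1 : Nat.card (Fin n → F) = Nat.card K ^ d := Module.natCard_eq_pow_finrank
    have h2 : Nat.card (Fin n → F) = Nat.card F ^ n := by
      rw [Nat.card_fun, Nat.card_eq_fintype_card (α := Fin n), Fintype.card_fin]
    rw [h2, hc, ← pow_mul] at h1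
    exact (Nat.pow_right_injective hq h1).symm
  have hqR : (1 : ℝ) ≤ Nat.card F := by exact_mod_cast (by omega : 1 ≤ Nat.card F)
  have hqR2 : (2 : ℝ) ≤ Nat.card F := by exact_mod_cast hq
  have hq0 : (0 : ℝ) < Nat.card F := by linarith
  have hnR : (1 : ℝ) ≤ n := by exact_mod_cast hn
  have hbR : (1 : ℝ) ≤ b := by exact_mod_cast hb1
  have hb0 : (b : ℝ) ≠ 0 := by positivity
  have hkR : (1 : ℝ) ≤ k := by exact_mod_cast hk
  have hk0 : (k : ℝ) ≠ 0 := by positivity
  have hdn : (d : ℝ) ≤ n := by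
    have : d ≤ n := by rw [← hcard]; exact Nat.le_mul_of_pos_left d hb.pos
    exact_mod_cast this
  have hbd : (b : ℝ) * d = n := by exact_mod_cast hcard
  set e : ℝ := 1 / (b : ℝ) * (1 - 1 / (k : ℝ)) * (n : ℝ) ^ 2 with he
  -- the matrices as endomorphisms over `F`
  let T : Matrix (Fin n) (Fin n) F →ₐ[F] Module.End F (Fin n → F) :=
    (Matrix.toLinAlgEquiv' (R := F) (n := Fin n)).toAlgHom
  have hT : ∀ (A : Matrix (Fin n) (Fin n) F) v, T A v = A.mulVec v := fun A v => rfl
  have hTi : Function.Injective T := (Matrix.toLinAlgEquiv' (R := F) (n := Fin n)).injective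
  have hEK : Finite (Module.End K (Fin n → F)) :=
    Finite.of_injective (fun A : Module.End K (Fin n → F) => (A : (Fin n → F) → (Fin n → F)))
      DFunLike.coe_injective
  have hEF : Finite (Module.End F (Fin n → F)) :=
    Finite.of_injective (fun A : Module.End F (Fin n → F) => (A : (Fin n → F) → (Fin n → F)))
      DFunLike.coe_injective
  let Y : (K ≃ₐ[F] K) → Type := fun σ =>
    {y : GL (Fin n) F // y.1 ^ k = β • (1 : Matrix (Fin n) (Fin n) F) ∧
        ∀ x : K, y.1 * ι x = ι (σ x) * y.1}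
  have hbase : (1 : ℝ) ≤ 16 * ((d : ℝ) + 1) ^ 2 := by
    have : (0 : ℝ) ≤ d := Nat.cast_nonneg d
    nlinarith
  -- the bound for one automorphism
  have hY : ∀ σ, (Nat.card (Y σ) : ℝ) ≤ (16 * ((d : ℝ) + 1) ^ 2) ^ k * (Nat.card F : ℝ) ^ e := by
    intro σ
    by_cases hσ : σ = 1
    · subst hσ
      let g : Y 1 → Module.End K (Fin n → F) :=
        fun y => { toFun := fun v => y.1.1.mulVec v
                   map_add' := fun v w => Matrix.mulVec_add _ _ _
                   map_smul' := fun x v => by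
                     simp only [hsm, RingHom.id_apply]
                     rw [Matrix.mulVec_mulVec, Matrix.mulVec_mulVec, y.2.2 x]
                     rfl }
      have hg : ∀ y v, g y v = y.1.1.mulVec v := fun y v => rfl
      have hpow : ∀ y (j : ℕ) v, (g y ^ j) v = (y.1.1 ^ j).mulVec v := by
        intro y j
        induction j with
        | zero => intro v; simp
        | succ j ih =>
          intro v
          rw [pow_succ, Module.End.mul_apply, ih, hg, Matrix.mulVec_mulVec, pow_succ]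
      let f : Y 1 → {A : Module.End K (Fin n → F) //
          A ^ k = (algebraMap F K β) • (1 : Module.End K (Fin n → F))} :=
        fun y => ⟨g y, by
          ext1 v
          rw [hpow, y.2.1, LinearMap.smul_apply, Module.End.one_apply, hsm, AlgHom.commutes,
            Algebra.algebraMap_eq_smul_one]⟩
      have hf : Function.Injective f := by
        intro y y' h
        have h1 : g y = g y' := congrArg Subtype.val h
        apply Subtype.ext
        apply Units.ext
        apply hTi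
        apply LinearMap.ext
        intro v
        rw [hT, hT, ← hg, ← hg, h1]
      have h1 := Nat.card_le_card_of_injective f hf
      have h2 := hJ K (Fin n → F) k (algebraMap F K β) hk
      rw [← hd] at h2
      have h4 : (Nat.card K : ℝ) ^ ((d : ℝ) ^ 2 * (1 - 1 / (k : ℝ))) = (Nat.card F : ℝ) ^ e := by
        rw [hc]
        push_cast
        rw [← Real.rpow_natCast, ← Real.rpow_mul hq0.le]
        congr 1
        rw [he, ← hbd]
        field_simp
      rw [h4] at h2
      exact le_trans (by exact_mod_cast h1) h2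
    · by_cases hemp : IsEmpty (Y σ)
      · rw [Nat.card_of_isEmpty]
        push_cast
        positivity
      · rw [not_isEmpty_iff] at hemp
        obtain ⟨y0⟩ := hemp
        have hβ : β ≠ 0 := by
          intro h0
          have h1 : (y0.1 ^ k).1 = 0 := by
            rw [Units.val_pow_eq_pow_val]
            exact y0.2.1.trans (by rw [h0, zero_smul])
          exact (y0.1 ^ k).ne_zero h1
        have hσk : σ ^ k = 1 := by
          refine AlgEquiv.ext fun x => ?_
          have h1 := c3q_pow F K n ι y0.1 σ y0.2.2 k x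
          rw [y0.2.1, smul_mul_assoc, one_mul, mul_smul_comm, mul_one] at h1
          have h2 : ι x = ι ((σ ^ k) x) := smul_right_injective _ hβ h1
          exact (ι.toRingHom.injective h2).symm
        have hgal : Nat.card (K ≃ₐ[F] K) = b := by
          rw [IsGalois.card_aut_eq_finrank, hrk]
        have hord : orderOf σ = b := by
          have h1 : orderOf σ ∣ b := hgal ▸ orderOf_dvd_natCard σ
          rcases (Nat.dvd_prime hb).1 h1 with h | h
          · exact absurd (orderOf_eq_one_iff.1 h) hσ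
          · exact h
        obtain ⟨c, hck⟩ : b ∣ k := hord ▸ orderOf_dvd_of_pow_eq_one hσk
        have hc1 : 1 ≤ c := by
          rcases Nat.eq_zero_or_pos c with h | h
          · rw [h, mul_zero] at hck; omega
          · exact h
        have hgm : (X ^ c - Polynomial.C β : F[X]).Monic := monic_X_pow_sub_C β (by omega)
        have hgd : (X ^ c - Polynomial.C β : F[X]).natDegree = c := natDegree_X_pow_sub_C
        have hg0 : (X ^ c - Polynomial.C β : F[X]).coeff 0 ≠ 0 := by
          rw [coeff_sub, coeff_X_pow, coeff_C_zero, if_neg (by omega), zero_sub]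
          exact neg_ne_zero.2 hβ
        have h2 := hS F K (Fin n → F) σ b hb hrk hσ _ hgm (by rw [hgd]; exact hc1) hg0
        rw [hgd, ← hd] at h2
        let f : Y σ → {y : Module.End F (Fin n → F) // SM σ y ∧
            aeval (y ^ b) (X ^ c - Polynomial.C β : F[X]) = 0} :=
          fun y => ⟨T y.1.1, by
            intro x v
            rw [hT, hT, hsm, hsm, Matrix.mulVec_mulVec, Matrix.mulVec_mulVec, y.2.2 x], by
            rw [map_sub, map_pow, aeval_X, aeval_C, ← pow_mul, ← hck, ← map_pow, y.2.1,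
              ← Algebra.algebraMap_eq_smul_one, AlgHom.commutes, sub_self]⟩
        have hf : Function.Injective f := by
          intro y y' h
          have h1 : T y.1.1 = T y'.1.1 := congrArg Subtype.val h
          exact Subtype.ext (Units.ext (hTi h1))
        have h1 := Nat.card_le_card_of_injective f hf
        have hcR : (1 : ℝ) ≤ c := by exact_mod_cast hc1
        have hc0 : (c : ℝ) ≠ 0 := by positivity
        have hkc : (k : ℝ) = b * c := by exact_mod_cast hck
        have h4 : (b : ℝ) * (d : ℝ) ^ 2 - (d : ℝ) ^ 2 / (c : ℝ) = e := by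
          rw [he, ← hbd, hkc]
          field_simp
        rw [h4] at h2
        have hcle : c ≤ k := by rw [hck]; exact Nat.le_mul_of_pos_left c hb.pos
        refine (by exact_mod_cast h1 : (Nat.card (Y σ) : ℝ) ≤ _).trans (h2.trans ?_)
        exact mul_le_mul_of_nonneg_right (pow_le_pow_right₀ hbase hcle) (by positivity)
  -- the covering
  let g : (Σ σ : K ≃ₐ[F] K, Y σ) → GL (Fin n) F := fun z => z.2.1
  have hcov : {y : GL (Fin n) F | y.1 ^ k = β • (1 : Matrix (Fin n) (Fin n) F) ∧
        ∀ x : K, ∃ x' : K, y.1 * ι x = ι x' * y.1} ⊆ Set.range g := by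
    rintro y ⟨hy, hP⟩
    obtain ⟨σ, hσ⟩ := c3q_aut F K n hn ι y hP
    exact ⟨⟨σ, ⟨y, hy, hσ⟩⟩, rfl⟩
  have hgal : Nat.card (K ≃ₐ[F] K) = b := by
    rw [IsGalois.card_aut_eq_finrank, hrk]
  have hfs : Finite (K ≃ₐ[F] K) := Nat.finite_of_card_ne_zero (by rw [hgal]; exact hb.ne_zero)
  have : Fintype (K ≃ₐ[F] K) := Fintype.ofFinite _
  have : ∀ σ, Finite (Y σ) := fun σ => Subtype.finite
  have hcount : Nat.card {y : GL (Fin n) F // y.1 ^ k = β • (1 : Matrix (Fin n) (Fin n) F) ∧
        ∀ x : K, ∃ x' : K, y.1 * ι x = ι x' * y.1} ≤ ∑ σ, Nat.card (Y σ) := by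
    calc Nat.card {y : GL (Fin n) F // y.1 ^ k = β • (1 : Matrix (Fin n) (Fin n) F) ∧
        ∀ x : K, ∃ x' : K, y.1 * ι x = ι x' * y.1}
        = ({y : GL (Fin n) F | y.1 ^ k = β • (1 : Matrix (Fin n) (Fin n) F) ∧
        ∀ x : K, ∃ x' : K, y.1 * ι x = ι x' * y.1}).ncard := rfl
      _ ≤ (Set.range g).ncard := Set.ncard_le_ncard hcov (Set.toFinite _)
      _ ≤ Nat.card (Σ σ : K ≃ₐ[F] K, Y σ) := Finite.card_range_le g
      _ = ∑ σ, Nat.card (Y σ) := by rw [Nat.card_sigma]
  -- the polynomial factor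
  have h3 : (b : ℝ) * (16 * ((d : ℝ) + 1) ^ 2) ^ k ≤
      ((n : ℝ) + 1) ^ ((4 * k + 1 : ℝ) * n) * (Nat.card F : ℝ) ^ ((4 * k + 1 : ℝ) * n) := by
    have e1 : (16 * ((d : ℝ) + 1) ^ 2) ^ k ≤ ((n : ℝ) + 1) ^ (2 * k) * (Nat.card F : ℝ) ^ (4 * k) := by
      rw [mul_pow, ← pow_mul, mul_comm]
      apply mul_le_mul
      · exact pow_le_pow_left₀ (by positivity) (by linarith) _
      · rw [pow_mul]
        apply pow_le_pow_left₀ (by norm_num)
        calc (16 : ℝ) = 2 ^ 4 := by norm_num
          _ ≤ (Nat.card F : ℝ) ^ 4 := pow_le_pow_left₀ (by norm_num) hqR2 4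
      · positivity
      · positivity
    have hbn1 : (b : ℝ) ≤ (n : ℝ) + 1 := by
      have : (b : ℝ) ≤ n := by exact_mod_cast hbn'
      linarith
    have e2 : (b : ℝ) * (16 * ((d : ℝ) + 1) ^ 2) ^ k ≤
        ((n : ℝ) + 1) ^ (2 * k + 1) * (Nat.card F : ℝ) ^ (4 * k) := by
      calc (b : ℝ) * (16 * ((d : ℝ) + 1) ^ 2) ^ k
          ≤ ((n : ℝ) + 1) * (((n : ℝ) + 1) ^ (2 * k) * (Nat.card F : ℝ) ^ (4 * k)) :=
            mul_le_mul hbn1 e1 (by positivity) (by positivity)
        _ = _ := by ring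
    refine e2.trans ?_
    have hk0 : (0 : ℝ) ≤ k := Nat.cast_nonneg k
    apply mul_le_mul
    · rw [← Real.rpow_natCast]
      apply Real.rpow_le_rpow_of_exponent_le (by linarith)
      push_cast
      nlinarith
    · rw [← Real.rpow_natCast]
      apply Real.rpow_le_rpow_of_exponent_le hqR
      push_cast
      nlinarith
    · positivity
    · positivity
  calc (Nat.card {y : GL (Fin n) F // y.1 ^ k = β • (1 : Matrix (Fin n) (Fin n) F) ∧
        ∀ x : K, ∃ x' : K, y.1 * ι x = ι x' * y.1} : ℝ)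
      ≤ ((∑ σ, Nat.card (Y σ) : ℕ) : ℝ) := by exact_mod_cast hcount
    _ = ∑ σ, (Nat.card (Y σ) : ℝ) := by push_cast; rfl
    _ ≤ ∑ _σ : K ≃ₐ[F] K, (16 * ((d : ℝ) + 1) ^ 2) ^ k * (Nat.card F : ℝ) ^ e :=
        Finset.sum_le_sum fun σ _ => hY σ
    _ = (b : ℝ) * (16 * ((d : ℝ) + 1) ^ 2) ^ k * (Nat.card F : ℝ) ^ e := by
        rw [Finset.sum_const, nsmul_eq_mul, Finset.card_univ, ← Nat.card_eq_fintype_card, hgal,
          mul_assoc]
    _ ≤ (((n : ℝ) + 1) ^ ((4 * k + 1 : ℝ) * n) * (Nat.card F : ℝ) ^ ((4 * k + 1 : ℝ) * n)) *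
        (Nat.card F : ℝ) ^ e := mul_le_mul_of_nonneg_right h3 (by positivity)
    _ = Bd (4 * k + 1) n F e := by
      unfold Bd
      rw [mul_assoc, ← Real.rpow_add hq0]

theorem c3q_ring (hJ : S_JGL) (hS : S_SLR) (F K : Type) [Field F] [Finite F] [Ring K] [Finite K]
    [Algebra F K] (hK : IsField K) (n b k : ℕ) (hn : 1 ≤ n) (hbn : b ∣ n) (hb : b.Prime)
    (hk : 1 ≤ k) (hc : Nat.card K = Nat.card F ^ b) (ι : K →ₐ[F] Matrix (Fin n) (Fin n) F)
    (β : F) :
    (Nat.card {y : GL (Fin n) F // y.1 ^ k = β • (1 : Matrix (Fin n) (Fin n) F) ∧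
        ∀ x : K, ∃ x' : K, y.1 * ι x = ι x' * y.1} : ℝ) ≤
      Bd (4 * k + 1) n F (1 / (b : ℝ) * (1 - 1 / (k : ℝ)) * (n : ℝ) ^ 2) := by
  let _ : Field K := hK.toField
  exact c3q_main hJ hS F K n b k hn hbn hb hk hc ι β

/-- The matrices with `y ^ k` scalar normalizing a field of matrices of prime degree. -/
theorem t_C3Q : M_C3Q := by
  intro hJ hS k hk
  refine ⟨4 * k + 1, by positivity, ?_⟩
  intro F _ _ n b hn hbn hb K β
  have hfin : Finite K.1 := inferInstance
  have h := c3q_ring hJ hS F K.1 K.2.1 n b k hn hbn hb hk K.2.2 K.1.val β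
  refine le_trans ?_ h
  have h1 : Nat.card {y : GL (Fin n) F //
        y.1 ^ k = β • (1 : Matrix (Fin n) (Fin n) F) ∧ P3 K.1 y.1} ≤
      Nat.card {y : GL (Fin n) F // y.1 ^ k = β • (1 : Matrix (Fin n) (Fin n) F) ∧
        ∀ x : K.1, ∃ x' : K.1, y.1 * K.1.val x = K.1.val x' * y.1} := by
    refine Nat.card_le_card_of_injective (fun y => ⟨y.1, y.2.1, fun x => ?_⟩) ?_
    · refine ⟨⟨y.1.1 * x.1 * (y.1.1)⁻¹, y.2.2 x.1 x.2⟩, ?_⟩
      change y.1.1 * x.1 = y.1.1 * x.1 * (y.1.1)⁻¹ * y.1.1
      have h2 : (y.1.1)⁻¹ * y.1.1 = 1 := by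
        rw [(Matrix.coe_units_inv y.1).symm]
        exact y.1.inv_mul
      rw [mul_assoc, h2, mul_one]
    · intro y z hyz
      have h2 := congrArg Subtype.val hyz
      exact Subtype.ext h2
  exact_mod_cast h1

end

end FGQ
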