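import Mathlib
import Pool.Agent.FGQ.StQ
import Pool.Agent.FGE.C4Y

/-!
# FGQ, module C4Q: the elements with a scalar `k`-th power that preserve a tensor decomposition
-/

set_option autoImplicit false

namespace FGQ

open RSF FL0 FGE Polynomial

noncomputable section

/-- a tensor product which is a nonzero scalar -/
lemma c4q_scal {n a b : ℕ} {F : Type} [Field F] (e : Fin n ≃ Fin a × Fin b) (ha : 1 ≤ a)
    (hb : 1 ≤ b) (B : Matrix (Fin a) (Fin a) F) (C : Matrix (Fin b) (Fin b) F) (β : F) (hβ : β ≠ 0)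
    (h : c4y_kr e B C = β • (1 : Matrix (Fin n) (Fin n) F)) :
    ∃ γ : F, B = γ • (1 : Matrix (Fin a) (Fin a) F) ∧
      C = (β * γ⁻¹) • (1 : Matrix (Fin b) (Fin b) F) := by
  have hent : ∀ (i i' : Fin a) (j j' : Fin b), B i i' * C j j' =
      if i = i' ∧ j = j' then β else 0 := by
    intro i i' j j'
    have h1 := congrFun (congrFun h (e.symm (i, j))) (e.symm (i', j'))
    simp only [c4y_kr, Matrix.of_apply, Equiv.apply_symm_apply, Matrix.smul_apply,
      Matrix.one_apply] at h1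
    rw [h1]
    have h2 : e.symm (i, j) = e.symm (i', j') ↔ i = i' ∧ j = j' := by
      rw [e.symm.injective.eq_iff, Prod.mk.injEq]
    by_cases h3 : i = i' ∧ j = j'
    · rw [if_pos h3, if_pos (h2.2 h3), smul_eq_mul, mul_one]
    · rw [if_neg h3, if_neg (fun h4 => h3 (h2.1 h4)), smul_zero]
  let i0 : Fin a := ⟨0, ha⟩
  let j0 : Fin b := ⟨0, hb⟩
  have h0 : B i0 i0 * C j0 j0 = β := by
    rw [hent, if_pos ⟨rfl, rfl⟩]
  have hB0 : B i0 i0 ≠ 0 := by
    intro h1
    rw [h1, zero_mul] at h0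
    exact hβ h0.symm
  have hC0 : C j0 j0 ≠ 0 := by
    intro h1
    rw [h1, mul_zero] at h0
    exact hβ h0.symm
  refine ⟨B i0 i0, ?_, ?_⟩
  · ext i i'
    rw [Matrix.smul_apply, Matrix.one_apply, smul_eq_mul]
    apply mul_right_cancel₀ hC0
    rw [hent]
    by_cases h1 : i = i'
    · rw [if_pos ⟨h1, rfl⟩, if_pos h1, mul_one, h0]
    · rw [if_neg (fun h2 => h1 h2.1), if_neg h1, mul_zero, zero_mul]
  · ext j j'
    rw [Matrix.smul_apply, Matrix.one_apply, smul_eq_mul]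
    apply mul_left_cancel₀ hB0
    rw [hent]
    by_cases h1 : j = j'
    · rw [if_pos ⟨rfl, h1⟩, if_pos h1, mul_one]
      field_simp
    · rw [if_neg (fun h2 => h1 h2.2), if_neg h1, mul_zero, mul_zero]

/-- the counting -/
lemma c4q_count {n a b k : ℕ} {F : Type} [Field F] [Finite F] (e : Fin n ≃ Fin a × Fin b)
    (P : GL (Fin n) F) (ha : 1 ≤ a) (hb : 1 ≤ b) (δ : F) (hδ : δ ≠ 0) (x : ℝ)
    (hx : ∀ β : F, (Nat.card {A : Module.End F (Fin a → F) //
        A ^ k = β • (1 : Module.End F (Fin a → F))} : ℝ) *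
      (Nat.card {A : Module.End F (Fin b → F) //
        A ^ k = (δ * β⁻¹) • (1 : Module.End F (Fin b → F))} : ℝ) ≤ x) :
    (Nat.card {y : GL (Fin n) F // y.1 ^ k = δ • (1 : Matrix (Fin n) (Fin n) F) ∧
      P4 e P y.1} : ℝ) ≤ Nat.card F * x := by
  classical
  have := Fintype.ofFinite F
  have key : ∀ y : {y : GL (Fin n) F // y.1 ^ k = δ • (1 : Matrix (Fin n) (Fin n) F) ∧ P4 e P y.1},
      ∃ (β : F) (B : Module.End F (Fin a → F)) (C : Module.End F (Fin b → F)),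
        B ^ k = β • (1 : Module.End F (Fin a → F)) ∧
        C ^ k = (δ * β⁻¹) • (1 : Module.End F (Fin b → F)) ∧
        P.1 * y.1.1 * P.1⁻¹ = c4y_kr e (LinearMap.toMatrix' B) (LinearMap.toMatrix' C) := by
    rintro ⟨y, hy, B, C, hBC⟩
    have h1 : (c4y_kr e B C) ^ k = δ • (1 : Matrix (Fin n) (Fin n) F) := by
      have h2 : c4y_kr e B C = P.1 * y.1 * P.1⁻¹ := hBC.symm
      have h3 : P.1 * y.1 * P.1⁻¹ = (P * y * P⁻¹ : GL (Fin n) F).1 := by
        rw [Units.val_mul, Units.val_mul, Matrix.coe_units_inv]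
      rw [h2, h3, ← Units.val_pow_eq_pow_val, conj_pow, Units.val_mul, Units.val_mul,
        Units.val_pow_eq_pow_val, hy, mul_smul_comm, mul_one, smul_mul_assoc, Units.mul_inv]
    rw [c4y_kr_pow] at h1
    obtain ⟨β, h4, h5⟩ := c4q_scal e ha hb _ _ δ hδ h1
    refine ⟨β, Matrix.toLin' B, Matrix.toLin' C, ?_, ?_, ?_⟩
    · have h6 : Matrix.toLin' B ^ k = Matrix.toLin' (B ^ k) := (map_pow Matrix.toLinAlgEquiv' B k).symm
      rw [h6, h4, map_smul, Matrix.toLin'_one]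
      rfl
    · have h6 : Matrix.toLin' C ^ k = Matrix.toLin' (C ^ k) := (map_pow Matrix.toLinAlgEquiv' C k).symm
      rw [h6, h5, map_smul, Matrix.toLin'_one]
      rfl
    · rw [LinearMap.toMatrix'_toLin', LinearMap.toMatrix'_toLin']
      exact hBC
  choose β B C hB hC hy using key
  let f : {y : GL (Fin n) F // y.1 ^ k = δ • (1 : Matrix (Fin n) (Fin n) F) ∧ P4 e P y.1} →
      Σ β : F, {A : Module.End F (Fin a → F) // A ^ k = β • (1 : Module.End F (Fin a → F))} ×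
        {A : Module.End F (Fin b → F) // A ^ k = (δ * β⁻¹) • (1 : Module.End F (Fin b → F))} :=
    fun y => ⟨β y, ⟨B y, hB y⟩, ⟨C y, hC y⟩⟩
  have hf : Function.Injective f := by
    intro y y' h
    have h1 : B y = B y' := by
      have := congrArg (fun s : (Σ β : F, {A : Module.End F (Fin a → F) //
        A ^ k = β • (1 : Module.End F (Fin a → F))} ×
        {A : Module.End F (Fin b → F) // A ^ k = (δ * β⁻¹) • (1 : Module.End F (Fin b → F))}) =>
          s.2.1.1) h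
      exact this
    have h2 : C y = C y' := by
      have := congrArg (fun s : (Σ β : F, {A : Module.End F (Fin a → F) //
        A ^ k = β • (1 : Module.End F (Fin a → F))} ×
        {A : Module.End F (Fin b → F) // A ^ k = (δ * β⁻¹) • (1 : Module.End F (Fin b → F))}) =>
          s.2.2.1) h
      exact this
    have h3 : P.1 * y.1.1 * P.1⁻¹ = P.1 * y'.1.1 * P.1⁻¹ := by
      rw [hy, hy, h1, h2]
    have h4 : (P * y.1 * P⁻¹ : GL (Fin n) F) = P * y'.1 * P⁻¹ := by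
      apply Units.ext
      rw [Units.val_mul, Units.val_mul, Units.val_mul, Units.val_mul, Matrix.coe_units_inv]
      exact h3
    apply Subtype.ext
    exact mul_left_cancel (mul_right_cancel h4)
  have : Finite (Module.End F (Fin a → F)) :=
    Finite.of_injective (LinearMap.toMatrix' (R := F)) (LinearMap.toMatrix' (R := F)).injective
  have : Finite (Module.End F (Fin b → F)) :=
    Finite.of_injective (LinearMap.toMatrix' (R := F)) (LinearMap.toMatrix' (R := F)).injective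
  have h1 := Nat.card_le_card_of_injective f hf
  rw [Nat.card_sigma] at h1
  have h2 : (Nat.card {y : GL (Fin n) F // y.1 ^ k = δ • (1 : Matrix (Fin n) (Fin n) F) ∧ P4 e P y.1} : ℝ) ≤
      ∑ β : F, (Nat.card ({A : Module.End F (Fin a → F) //
        A ^ k = β • (1 : Module.End F (Fin a → F))} ×
        {A : Module.End F (Fin b → F) // A ^ k = (δ * β⁻¹) • (1 : Module.End F (Fin b → F))}) : ℝ) := by
    exact_mod_cast h1
  refine h2.trans ?_
  refine (Finset.sum_le_card_nsmul _ _ x fun β _ => ?_).trans ?_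
  · rw [Nat.card_prod, Nat.cast_mul]
    exact hx β
  · rw [nsmul_eq_mul, Finset.card_univ, Nat.card_eq_fintype_card]

theorem t_C4Q : M_C4Q := by
  intro hJ k hk
  refine ⟨12 * k, by positivity, fun F _ _ n a b ha hb hab T δ => ?_⟩
  obtain ⟨T, e, P, rfl⟩ := T
  obtain ⟨q, hq⟩ : ∃ q : ℝ, q = (Nat.card F : ℝ) := ⟨_, rfl⟩
  have hq1 : 1 ≤ q := by
    rw [hq]
    exact_mod_cast Nat.card_pos
  have hn : 1 ≤ n := by
    rw [← hab]
    exact Nat.mul_pos ha hb
  have han : a ≤ n := by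
    rw [← hab]
    exact Nat.le_mul_of_pos_right a hb
  have hbn : b ≤ n := by
    rw [← hab]
    exact Nat.le_mul_of_pos_left b ha
  have hN : (2 : ℝ) ≤ (n : ℝ) + 1 := by
    have : (1 : ℝ) ≤ (n : ℝ) := by exact_mod_cast hn
    linarith
  have hc : ∀ c : ℕ, c ≤ n → (16 * ((c : ℝ) + 1) ^ 2) ^ k ≤ ((n : ℝ) + 1) ^ (6 * k) := by
    intro c hc
    rw [pow_mul]
    apply pow_le_pow_left₀ (by positivity)
    have h1 : (c : ℝ) + 1 ≤ (n : ℝ) + 1 := by
      have : (c : ℝ) ≤ (n : ℝ) := by exact_mod_cast hc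
      linarith
    have h2 : ((c : ℝ) + 1) ^ 2 ≤ ((n : ℝ) + 1) ^ 2 := pow_le_pow_left₀ (by positivity) h1 2
    have h3 : (16 : ℝ) ≤ ((n : ℝ) + 1) ^ 4 := by
      have := pow_le_pow_left₀ (by norm_num) hN 4
      norm_num at this
      exact this
    calc 16 * ((c : ℝ) + 1) ^ 2 ≤ ((n : ℝ) + 1) ^ 4 * ((n : ℝ) + 1) ^ 2 :=
          mul_le_mul h3 h2 (by positivity) (by positivity)
      _ = ((n : ℝ) + 1) ^ 6 := by ring
  have hdim : ∀ c : ℕ, Module.finrank F (Fin c → F) = c := fun c => by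
    rw [Module.finrank_fintype_fun_eq_card, Fintype.card_fin]
  have hx : ∀ β : F, (Nat.card {A : Module.End F (Fin a → F) //
        A ^ k = β • (1 : Module.End F (Fin a → F))} : ℝ) *
      (Nat.card {A : Module.End F (Fin b → F) //
        A ^ k = (δ * β⁻¹) • (1 : Module.End F (Fin b → F))} : ℝ) ≤
      (((n : ℝ) + 1) ^ (6 * k) * q ^ ((a : ℝ) ^ 2 * (1 - 1 / (k : ℝ)))) *
        (((n : ℝ) + 1) ^ (6 * k) * q ^ ((b : ℝ) ^ 2 * (1 - 1 / (k : ℝ)))) := by
    intro β
    have h1 := hJ F (Fin a → F) k β hk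
    have h2 := hJ F (Fin b → F) k (δ * β⁻¹) hk
    rw [hdim, ← hq] at h1 h2
    have hq0 : ∀ t : ℝ, 0 ≤ q ^ t := fun t => Real.rpow_nonneg (by linarith) t
    refine mul_le_mul (h1.trans ?_) (h2.trans ?_) (Nat.cast_nonneg _)
      (mul_nonneg (by positivity) (hq0 _))
    · exact mul_le_mul_of_nonneg_right (hc a han) (hq0 _)
    · exact mul_le_mul_of_nonneg_right (hc b hbn) (hq0 _)
  have hδ : δ ≠ 0 ∨ δ = 0 := ne_or_eq δ 0
  rcases hδ with hδ | hδ
  swap
  · have hemp : IsEmpty {y : GL (Fin n) F // y.1 ^ k = δ • (1 : Matrix (Fin n) (Fin n) F) ∧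
        y.1 ∈ ({M | P4 e P M} : Set (Matrix (Fin n) (Fin n) F))} := by
      refine ⟨?_⟩
      rintro ⟨y, h1, -⟩
      rw [hδ, zero_smul, ← Units.val_pow_eq_pow_val] at h1
      have : Nonempty (Fin n) := ⟨⟨0, hn⟩⟩
      exact (y ^ k).ne_zero h1
    rw [Nat.card_of_isEmpty, Nat.cast_zero]
    unfold Bd
    positivity
  have hmain := c4q_count e P ha hb δ hδ _ hx
  refine hmain.trans ?_
  unfold Bd
  rw [← hq]
  have hq0 : 0 < q := by linarith
  have hN0 : (0 : ℝ) < (n : ℝ) + 1 := by linarith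
  have hN1 : (1 : ℝ) ≤ (n : ℝ) + 1 := by linarith
  have hk1 : (1 : ℝ) ≤ (k : ℝ) := by exact_mod_cast hk
  have hn1 : (1 : ℝ) ≤ (n : ℝ) := by exact_mod_cast hn
  have e1 : q * ((((n : ℝ) + 1) ^ (6 * k) * q ^ ((a : ℝ) ^ 2 * (1 - 1 / (k : ℝ)))) *
        (((n : ℝ) + 1) ^ (6 * k) * q ^ ((b : ℝ) ^ 2 * (1 - 1 / (k : ℝ))))) =
      ((n : ℝ) + 1) ^ ((12 * k : ℕ) : ℝ) *
        q ^ (1 + (1 - 1 / (k : ℝ)) * ((a : ℝ) ^ 2 + (b : ℝ) ^ 2)) := by
    rw [Real.rpow_natCast, mul_add, Real.rpow_add hq0, Real.rpow_add hq0, Real.rpow_one,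
      mul_comm ((a : ℝ) ^ 2), mul_comm ((b : ℝ) ^ 2)]
    have : ((n : ℝ) + 1) ^ (12 * k) = ((n : ℝ) + 1) ^ (6 * k) * ((n : ℝ) + 1) ^ (6 * k) := by
      rw [← pow_add]
      congr 1
      ring
    rw [this]
    ring
  rw [e1]
  refine mul_le_mul ?_ ?_ (Real.rpow_nonneg hq0.le _) (Real.rpow_nonneg hN0.le _)
  · apply Real.rpow_le_rpow_of_exponent_le hN1
    push_cast
    nlinarith
  · apply Real.rpow_le_rpow_of_exponent_le hq1
    nlinarith

end

end FGQ
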