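import Mathlib
import Pool.Agent.FGQ.StQ
import Pool.Agent.FGE.C8Y

/-!
# Module C8Q: the elements with a scalar `k`-th power that preserve a form up to a scalar
-/

set_option autoImplicit false

namespace FGQ

open RSF FL0 FGE Polynomial

noncomputable section

/-- the orbit estimate -/
theorem c8q_orb (hORB : S_ORB) {F : Type} [Field F] [Finite F] {n : ℕ} (k : ℕ) (β : F)
    (τ : F ≃+* F) (ε : F) (J : Matrix (Fin n) (Fin n) F) (hJ : Her τ ε J) :
    Nat.card (GL (Fin n) F) *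
        Nat.card {y : GL (Fin n) F // y.1 ^ k = β • (1 : Matrix (Fin n) (Fin n) F) ∧
          P8 τ J y.1} ≤
      Nat.card {g : GL (Fin n) F // g.1.transpose * J * g.1.map τ = J} *
        ∑ᶠ y : {y : GL (Fin n) F // y.1 ^ k = β • (1 : Matrix (Fin n) (Fin n) F)},
          Nat.card {J : Matrix (Fin n) (Fin n) F // Her τ ε J ∧ P8 τ J y.1.1} := by
  let _ := c8y_act F n τ
  have hf := c8y_fin F n
  have h1 := hORB (GL (Fin n) F) (c8y_X F n)
    {y | y.1 ^ k = β • (1 : Matrix (Fin n) (Fin n) F)}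
    (fun y x => Her τ ε (show Matrix (Fin n) (Fin n) F from x) ∧
      P8 τ (show Matrix (Fin n) (Fin n) F from x) y.1) (by
      intro g y hy
      have hy' : y.1 ^ k = β • (1 : Matrix (Fin n) (Fin n) F) := hy
      change (g * y * g⁻¹).1 ^ k = β • (1 : Matrix (Fin n) (Fin n) F)
      rw [← Units.val_pow_eq_pow_val, conj_pow, Units.val_mul, Units.val_mul,
        Units.val_pow_eq_pow_val, hy', Matrix.mul_smul, Matrix.smul_mul, mul_one,
        ← Units.val_mul, mul_inv_cancel, Units.val_one]) (by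
      rintro g y x ⟨hx1, hx2⟩
      exact ⟨c8y_her hx1 _, c8y_p8 g y hx2⟩) J
  have h2 : Nat.card {y : GL (Fin n) F // y.1 ^ k = β • (1 : Matrix (Fin n) (Fin n) F) ∧
        P8 τ J y.1} =
      Nat.card {y : GL (Fin n) F //
        y ∈ ({y | y.1 ^ k = β • (1 : Matrix (Fin n) (Fin n) F)} : Set (GL (Fin n) F)) ∧
        (Her τ ε J ∧ P8 τ J y.1)} :=
    Nat.card_congr (Equiv.subtypeEquivRight fun y =>
      ⟨fun h => ⟨h.1, hJ, h.2⟩, fun h => ⟨h.1, h.2.2⟩⟩)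
  have h3 : Nat.card (MulAction.stabilizer (GL (Fin n) F) (show c8y_X F n from J)) ≤
      Nat.card {g : GL (Fin n) F // g.1.transpose * J * g.1.map τ = J} := by
    refine Nat.card_le_card_of_injective
      (fun g : MulAction.stabilizer (GL (Fin n) F) (show c8y_X F n from J) =>
        (⟨g.1⁻¹, g.2⟩ : {g : GL (Fin n) F // g.1.transpose * J * g.1.map τ = J})) ?_
    intro g g' h
    exact Subtype.ext (inv_injective (congrArg Subtype.val h))
  rw [h2]
  exact h1.trans (Nat.mul_le_mul_right _ h3)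

/-- a form preserved up to a scalar is preserved up to a nonzero scalar -/
theorem c8q_ne {F : Type} [Field F] {n : ℕ} {τ : F ≃+* F} {J : Matrix (Fin n) (Fin n) F}
    (y : GL (Fin n) F) (h : P8 τ J y.1) :
    ∃ c : F, c ≠ 0 ∧ y.1.transpose * J * y.1.map τ = c • J := by
  obtain ⟨c, hc⟩ := h
  by_cases h0 : c = 0
  · subst h0
    rw [zero_smul] at hc
    have h1 : (y⁻¹).1.transpose * y.1.transpose = 1 := by
      rw [← Matrix.transpose_mul, ← Units.val_mul, mul_inv_cancel, Units.val_one,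
        Matrix.transpose_one]
    have h2 : y.1.map τ * (y⁻¹).1.map τ = 1 := by
      rw [← c8y_mm, ← Units.val_mul, mul_inv_cancel, Units.val_one, c8y_m1]
    have h3 : J = 0 := by
      calc J = ((y⁻¹).1.transpose * y.1.transpose) * J * (y.1.map τ * (y⁻¹).1.map τ) := by
            rw [h1, h2, one_mul, mul_one]
        _ = (y⁻¹).1.transpose * (y.1.transpose * J * y.1.map τ) * (y⁻¹).1.map τ := by
            simp only [mul_assoc]
        _ = 0 := by rw [hc, mul_zero, zero_mul]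
    exact ⟨1, one_ne_zero, by rw [h3, mul_zero, zero_mul, smul_zero]⟩
  · exact ⟨c, h0, hc⟩

/-- the number of the forms preserved up to a scalar -/
theorem c8q_form (hFXG : S_FXG) {F : Type} [Field F] [Finite F] {n : ℕ} (τ : F ≃+* F) (ε : F)
    (y : GL (Fin n) F) :
    (Nat.card {J : Matrix (Fin n) (Fin n) F // Her τ ε J ∧ P8 τ J y.1} : ℝ) ≤
      (Nat.card F : ℝ) ^ (1 + (n : ℝ) / 2) *
        (Nat.card {a : Matrix (Fin n) (Fin n) F // a * y.1 = y.1 * a} : ℝ) ^ (1 / 2 : ℝ) := by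
  classical
  have : Fintype F := Fintype.ofFinite F
  have hfm : Finite (Matrix (Fin n) (Fin n) F) := by
    have : Finite (Fin n → Fin n → F) := inferInstance
    exact this
  set q : ℝ := (Nat.card F : ℝ) with hq
  set c0 : ℝ := (Nat.card {a : Matrix (Fin n) (Fin n) F // a * y.1 = y.1 * a} : ℝ) with hc0
  have hq2 : (2 : ℝ) ≤ q := by
    rw [hq]
    exact_mod_cast Finite.one_lt_card (α := F)
  have hq0 : (0 : ℝ) < q := by linarith
  have hc00 : 0 ≤ c0 := Nat.cast_nonneg _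
  have h1 : ∀ c : {c : F // c ≠ 0},
      (Nat.card {J : Matrix (Fin n) (Fin n) F // Her τ ε J ∧
        y.1.transpose * J * y.1.map τ = c.1 • J} : ℝ) ≤ q ^ ((n : ℝ) / 2) * c0 ^ (1 / 2 : ℝ) := by
    intro c
    have h2 := hFXG F n τ ε c.1 y c.2
    have h3 : (Nat.card {J : Matrix (Fin n) (Fin n) F // Her τ ε J ∧
        y.1.transpose * J * y.1.map τ = c.1 • J} : ℝ) ^ 2 ≤ q ^ n * c0 := by
      rw [hq, hc0]
      exact_mod_cast h2
    have h4 := Real.le_sqrt_of_sq_le h3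
    refine h4.trans (le_of_eq ?_)
    rw [Real.sqrt_eq_rpow, Real.mul_rpow (by positivity) hc00, ← Real.rpow_natCast q n,
      ← Real.rpow_mul hq0.le]
    congr 2
    ring
  have h5 : Nat.card {J : Matrix (Fin n) (Fin n) F // Her τ ε J ∧ P8 τ J y.1} ≤
      Nat.card ((c : {c : F // c ≠ 0}) × {J : Matrix (Fin n) (Fin n) F // Her τ ε J ∧
        y.1.transpose * J * y.1.map τ = c.1 • J}) := by
    refine Nat.card_le_card_of_injective
      (fun J => ⟨⟨(c8q_ne y J.2.2).choose, (c8q_ne y J.2.2).choose_spec.1⟩,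
        ⟨J.1, J.2.1, (c8q_ne y J.2.2).choose_spec.2⟩⟩) ?_
    intro J J' h
    have h6 := congrArg (fun p : (c : {c : F // c ≠ 0}) × {J : Matrix (Fin n) (Fin n) F //
      Her τ ε J ∧ y.1.transpose * J * y.1.map τ = c.1 • J} => p.2.1) h
    exact Subtype.ext h6
  rw [Nat.card_sigma] at h5
  have h7 : (Fintype.card {c : F // c ≠ 0} : ℝ) ≤ q := by
    rw [hq, Nat.card_eq_fintype_card]
    exact_mod_cast Fintype.card_subtype_le _
  calc (Nat.card {J : Matrix (Fin n) (Fin n) F // Her τ ε J ∧ P8 τ J y.1} : ℝ)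
      ≤ ((∑ c : {c : F // c ≠ 0}, Nat.card {J : Matrix (Fin n) (Fin n) F // Her τ ε J ∧
          y.1.transpose * J * y.1.map τ = c.1 • J} : ℕ) : ℝ) := by exact_mod_cast h5
    _ = ∑ c : {c : F // c ≠ 0}, (Nat.card {J : Matrix (Fin n) (Fin n) F // Her τ ε J ∧
          y.1.transpose * J * y.1.map τ = c.1 • J} : ℝ) := by push_cast; rfl
    _ ≤ ∑ _c : {c : F // c ≠ 0}, q ^ ((n : ℝ) / 2) * c0 ^ (1 / 2 : ℝ) :=
        Finset.sum_le_sum fun c _ => h1 c
    _ = (Fintype.card {c : F // c ≠ 0} : ℝ) * (q ^ ((n : ℝ) / 2) * c0 ^ (1 / 2 : ℝ)) := by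
        rw [Finset.sum_const, nsmul_eq_mul, Finset.card_univ]
    _ ≤ q * (q ^ ((n : ℝ) / 2) * c0 ^ (1 / 2 : ℝ)) :=
        mul_le_mul_of_nonneg_right h7 (by positivity)
    _ = q ^ (1 + (n : ℝ) / 2) * c0 ^ (1 / 2 : ℝ) := by
        rw [Real.rpow_add hq0, Real.rpow_one]
        ring

/-- the sum over the matrices with a scalar `k`-th power -/
theorem c8q_sum (hSQG : S_SQG) {F : Type} [Field F] [Finite F] {n k : ℕ} (hk : 1 ≤ k) (β : F)
    [Fintype {y : GL (Fin n) F // y.1 ^ k = β • (1 : Matrix (Fin n) (Fin n) F)}] :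
    ∑ y : {y : GL (Fin n) F // y.1 ^ k = β • (1 : Matrix (Fin n) (Fin n) F)},
        (Nat.card {a : Matrix (Fin n) (Fin n) F // a * y.1.1 = y.1.1 * a} : ℝ) ^ (1 / 2 : ℝ) ≤
      (16 * ((n : ℝ) + 1) ^ 2) ^ k *
        (Nat.card F : ℝ) ^ ((n : ℝ) ^ 2 - (1 - 1 / 2) * (n : ℝ) ^ 2 / (k : ℝ)) := by
  classical
  have h0 := hSQG F (Fin n → F) (X ^ k - C β) (monic_X_pow_sub_C β (by omega))
    (by rw [natDegree_X_pow_sub_C]; exact hk) (1 / 2) (by norm_num) (by norm_num)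
  rw [natDegree_X_pow_sub_C, Module.finrank_fin_fun] at h0
  have hfe : Finite (Module.End F (Fin n → F)) := Finite.of_equiv _
    (Matrix.toLin' (R := F) (m := Fin n) (n := Fin n)).toEquiv
  have : Fintype {A : Module.End F (Fin n → F) // aeval A (X ^ k - C β) = 0} := Fintype.ofFinite _
  rw [finsum_eq_sum_of_fintype] at h0
  refine le_trans ?_ h0
  let T := Matrix.toLinAlgEquiv' (R := F) (n := Fin n)
  let e : {y : GL (Fin n) F // y.1 ^ k = β • (1 : Matrix (Fin n) (Fin n) F)} →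
      {A : Module.End F (Fin n → F) // aeval A (X ^ k - C β) = 0} := fun y =>
    ⟨T y.1.1, by
      rw [map_sub, aeval_X_pow, aeval_C, ← map_pow, y.2, map_smul, map_one,
        Algebra.algebraMap_eq_smul_one, sub_self]⟩
  have he : Function.Injective e := by
    intro y y' h
    have h1 : T y.1.1 = T y'.1.1 := congrArg Subtype.val h
    exact Subtype.ext (Units.ext (T.injective h1))
  have hc : ∀ y : {y : GL (Fin n) F // y.1 ^ k = β • (1 : Matrix (Fin n) (Fin n) F)},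
      Nat.card {a : Matrix (Fin n) (Fin n) F // a * y.1.1 = y.1.1 * a} =
        Nat.card {c : Module.End F (Fin n → F) // c * (e y).1 = (e y).1 * c} := by
    intro y
    refine Nat.card_congr (Equiv.subtypeEquiv T.toEquiv fun a => ?_)
    change a * y.1.1 = y.1.1 * a ↔ T a * T y.1.1 = T y.1.1 * T a
    rw [← map_mul, ← map_mul, T.injective.eq_iff]
  calc ∑ y : {y : GL (Fin n) F // y.1 ^ k = β • (1 : Matrix (Fin n) (Fin n) F)},
        (Nat.card {a : Matrix (Fin n) (Fin n) F // a * y.1.1 = y.1.1 * a} : ℝ) ^ (1 / 2 : ℝ)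
      = ∑ y : {y : GL (Fin n) F // y.1 ^ k = β • (1 : Matrix (Fin n) (Fin n) F)},
        (Nat.card {c : Module.End F (Fin n → F) // c * (e y).1 = (e y).1 * c} : ℝ) ^
          (1 / 2 : ℝ) := Finset.sum_congr rfl fun y _ => by rw [hc y]
    _ = ∑ A ∈ Finset.univ.image e,
        (Nat.card {c : Module.End F (Fin n → F) // c * A.1 = A.1 * c} : ℝ) ^ (1 / 2 : ℝ) := by
        rw [Finset.sum_image fun a _ b _ h => he h]
    _ ≤ _ := Finset.sum_le_sum_of_subset_of_nonneg (Finset.subset_univ _)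
        fun A _ _ => Real.rpow_nonneg (Nat.cast_nonneg _) _

/-- the numbers -/
theorem c8q_num (q : ℝ) (hq : 2 ≤ q) (n k : ℕ) (hn : 1 ≤ n) (G N I S : ℝ) (hN : 0 ≤ N)
    (hG : q ^ (n ^ 2) / 4 ≤ G) (h : G * N ≤ I * S) (hI0 : 0 ≤ I)
    (hI : I ≤ q ^ (((n : ℝ) ^ 2 + n) / 2))
    (hS : S ≤ q ^ (1 + (n : ℝ) / 2) * ((16 * ((n : ℝ) + 1) ^ 2) ^ k *
      q ^ ((n : ℝ) ^ 2 - (1 - 1 / 2) * (n : ℝ) ^ 2 / (k : ℝ)))) :
    N ≤ ((n : ℝ) + 1) ^ ((6 * (k : ℝ) + 2) * n) *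
      q ^ ((6 * (k : ℝ) + 2) * n + 1 / 2 * (1 - 1 / (k : ℝ)) * (n : ℝ) ^ 2) := by
  have hq0 : (0 : ℝ) < q := by linarith
  have hq1 : (1 : ℝ) ≤ q := by linarith
  have hn1 : (1 : ℝ) ≤ (n : ℝ) := by exact_mod_cast hn
  have hn2 : (2 : ℝ) ≤ (n : ℝ) + 1 := by linarith
  have hn0 : (0 : ℝ) < (n : ℝ) + 1 := by linarith
  have hk0 : (0 : ℝ) ≤ (k : ℝ) := Nat.cast_nonneg k
  have e1 : q ^ (n ^ 2) = q ^ ((n : ℝ) ^ 2) := by
    rw [← Real.rpow_natCast]
    push_cast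
    rfl
  rw [e1] at hG
  set P : ℝ := q ^ ((n : ℝ) ^ 2) with hP
  have hP0 : 0 < P := Real.rpow_pos_of_pos hq0 _
  have h1 : P / 4 * N ≤ q ^ (((n : ℝ) ^ 2 + n) / 2) * (q ^ (1 + (n : ℝ) / 2) *
      ((16 * ((n : ℝ) + 1) ^ 2) ^ k *
        q ^ ((n : ℝ) ^ 2 - (1 - 1 / 2) * (n : ℝ) ^ 2 / (k : ℝ)))) := by
    calc P / 4 * N ≤ G * N := mul_le_mul_of_nonneg_right hG hN
      _ ≤ I * S := h
      _ ≤ I * _ := mul_le_mul_of_nonneg_left hS hI0
      _ ≤ _ := mul_le_mul_of_nonneg_right hI (by positivity)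
  have h2 : q ^ (((n : ℝ) ^ 2 + n) / 2) * (q ^ (1 + (n : ℝ) / 2) *
      ((16 * ((n : ℝ) + 1) ^ 2) ^ k *
        q ^ ((n : ℝ) ^ 2 - (1 - 1 / 2) * (n : ℝ) ^ 2 / (k : ℝ)))) =
      P / 4 * (4 * (16 * ((n : ℝ) + 1) ^ 2) ^ k *
        q ^ ((n : ℝ) + 1 + 1 / 2 * (1 - 1 / (k : ℝ)) * (n : ℝ) ^ 2)) := by
    have h3 : q ^ (((n : ℝ) ^ 2 + n) / 2) * q ^ (1 + (n : ℝ) / 2) *
        q ^ ((n : ℝ) ^ 2 - (1 - 1 / 2) * (n : ℝ) ^ 2 / (k : ℝ)) =
        P * q ^ ((n : ℝ) + 1 + 1 / 2 * (1 - 1 / (k : ℝ)) * (n : ℝ) ^ 2) := by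
      rw [hP, ← Real.rpow_add hq0, ← Real.rpow_add hq0, ← Real.rpow_add hq0]
      congr 1
      ring
    linear_combination ((16 * ((n : ℝ) + 1) ^ 2) ^ k) * h3
  rw [h2] at h1
  have h4 : N ≤ 4 * (16 * ((n : ℝ) + 1) ^ 2) ^ k *
      q ^ ((n : ℝ) + 1 + 1 / 2 * (1 - 1 / (k : ℝ)) * (n : ℝ) ^ 2) :=
    le_of_mul_le_mul_left h1 (by positivity)
  refine h4.trans ?_
  refine mul_le_mul ?_ ?_ (by positivity) (by positivity)
  · have h5 : (4 : ℝ) * 16 ^ k ≤ ((n : ℝ) + 1) ^ (4 * (k : ℝ) + 2) := by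
      have h6 : (4 : ℝ) * 16 ^ k = 2 ^ (4 * (k : ℝ) + 2) := by
        rw [Real.rpow_add (by norm_num), Real.rpow_mul (by norm_num), Real.rpow_natCast]
        norm_num
        ring
      rw [h6]
      exact Real.rpow_le_rpow (by norm_num) hn2 (by positivity)
    calc (4 : ℝ) * (16 * ((n : ℝ) + 1) ^ 2) ^ k
        = (4 : ℝ) * 16 ^ k * ((n : ℝ) + 1) ^ (2 * k) := by
          rw [mul_pow, ← pow_mul]
          ring
      _ ≤ ((n : ℝ) + 1) ^ (4 * (k : ℝ) + 2) * ((n : ℝ) + 1) ^ (2 * k) :=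
          mul_le_mul_of_nonneg_right h5 (by positivity)
      _ = ((n : ℝ) + 1) ^ (6 * (k : ℝ) + 2) := by
          rw [← Real.rpow_natCast ((n : ℝ) + 1) (2 * k), ← Real.rpow_add hn0]
          congr 1
          push_cast
          ring
      _ ≤ _ := by
          refine Real.rpow_le_rpow_of_exponent_le (by linarith) ?_
          nlinarith
  · refine Real.rpow_le_rpow_of_exponent_le hq1 ?_
    nlinarith

theorem t_C8Q : M_C8Q := by
  classical
  intro hPI hORB hISO hFXG hSQG k hk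
  refine ⟨6 * (k : ℝ) + 2, by positivity, ?_⟩
  intro F _ _ n hn z β
  obtain ⟨⟨τ, ε, J⟩, hHer, hJ⟩ := z
  change Her τ ε J at hHer
  change IsUnit J at hJ
  change (Nat.card {y : GL (Fin n) F // y.1 ^ k = β • (1 : Matrix (Fin n) (Fin n) F) ∧
    P8 τ J y.1} : ℝ) ≤ _
  have hq2 : (2 : ℝ) ≤ (Nat.card F : ℝ) := by
    exact_mod_cast Finite.one_lt_card (α := F)
  have h1 := c8q_orb hORB k β τ ε J hHer
  have h2 := hISO F n τ J hJ
  have : Fintype {y : GL (Fin n) F // y.1 ^ k = β • (1 : Matrix (Fin n) (Fin n) F)} :=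
    Fintype.ofFinite _
  have hq0 : (0 : ℝ) < (Nat.card F : ℝ) := by linarith
  refine c8q_num (Nat.card F : ℝ) hq2 n k hn (Nat.card (GL (Fin n) F) : ℝ) _
    (Nat.card {g : GL (Fin n) F // g.1.transpose * J * g.1.map τ = J} : ℝ)
    ((∑ᶠ y : {y : GL (Fin n) F // y.1 ^ k = β • (1 : Matrix (Fin n) (Fin n) F)},
          Nat.card {J : Matrix (Fin n) (Fin n) F // Her τ ε J ∧ P8 τ J y.1.1} : ℕ) : ℝ)
    (Nat.cast_nonneg _) (LG.card_GL_ge hPI) ?_ (Nat.cast_nonneg _) h2 ?_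
  · exact_mod_cast h1
  · have h3 := c8q_sum hSQG hk β (F := F) (n := n)
    rw [finsum_eq_sum_of_fintype]
    refine le_trans ?_ (mul_le_mul_of_nonneg_left h3 (Real.rpow_nonneg hq0.le _))
    rw [Nat.cast_sum, Finset.mul_sum]
    exact Finset.sum_le_sum fun y _ => c8q_form hFXG τ ε y.1

end

end FGQ
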