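import Mathlib
import Pool.Agent.FGQ.StQ
import Pool.Agent.RSF.IW

/-!
# Module DCU: the centraliser of an endomorphism and of its restriction to the range of `f(A)`
-/

set_option autoImplicit false

namespace FGQ

open RSF FL0 FGE Polynomial

noncomputable section

theorem dcu_comm {F V : Type} [Field F] [AddCommGroup V] [Module F V] {c A : Module.End F V}
    (h : c * A = A * c) (p : F[X]) : c * aeval A p = aeval A p * c := by
  have hc : Commute c A := h
  induction p using Polynomial.induction_on' with
  | add p q hp hq => simp only [map_add, mul_add, add_mul, hp, hq]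
  | monomial k a =>
    rw [aeval_monomial]
    have h1 : Commute c (algebraMap F (Module.End F V) a) := (Algebra.commutes a c).symm
    exact (h1.mul_right (hc.pow_right k))

theorem dcu_comm' {F V : Type} [Field F] [AddCommGroup V] [Module F V] {c A : Module.End F V}
    (h : c * A = A * c) (p : F[X]) (v : V) : c (aeval A p v) = aeval A p (c v) :=
  congrArg (fun T : Module.End F V => T v) (dcu_comm h p)

theorem dcu_mapQ {F V : Type} [Field F] [AddCommGroup V] [Module F V] (U : Submodule F V)
    (A : Module.End F V) (hU : U ≤ U.comap A) (p : F[X]) (v : V) :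
    aeval (U.mapQ U A hU : Module.End F (V ⧸ U)) p (U.mkQ v) = U.mkQ (aeval A p v) := by
  induction p using Polynomial.induction_on' generalizing v with
  | add p q hp hq =>
    rw [map_add, map_add, LinearMap.add_apply, LinearMap.add_apply, map_add, hp, hq]
  | monomial k a =>
    rw [aeval_monomial, aeval_monomial, Module.End.mul_apply, Module.End.mul_apply,
      Module.algebraMap_end_apply, Module.algebraMap_end_apply, map_smul]
    congr 1
    clear a
    induction k generalizing v with
    | zero => rfl
    | succ k ih =>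
      rw [pow_succ', pow_succ', Module.End.mul_apply, Module.End.mul_apply, ih]
      rfl

theorem dcu_ker {F V : Type} [Field F] [Finite F] [AddCommGroup V] [Module F V]
    [FiniteDimensional F V] (f : F[X]) (hf : f.Monic) (hirr : Irreducible f)
    (A : Module.End F V)
    (h : ∀ v ∈ LinearMap.range (aeval A f : Module.End F V),
      A v ∈ LinearMap.range (aeval A f : Module.End F V)) :
    (Nat.card {c : Module.End F V // c * A = A * c ∧
        ∀ u ∈ LinearMap.range (aeval A f : Module.End F V), c u = 0} : ℝ) ≤
      (Nat.card F : ℝ) ^ (((Module.finrank F V : ℝ) -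
        Module.finrank F (LinearMap.range (aeval A f : Module.End F V))) ^ 2 /
          (f.natDegree : ℝ)) := by
  classical
  set U := LinearMap.range (aeval A f : Module.End F V) with hUdef
  have hU : U ≤ U.comap A := fun v hv => h v hv
  set AQ : Module.End F (V ⧸ U) := U.mapQ U A hU with hAQ
  have hmem : ∀ v, aeval A f v ∈ U := fun v => ⟨v, rfl⟩
  have hAQf : aeval AQ f = 0 := by
    apply LinearMap.ext
    intro x
    obtain ⟨v, rfl⟩ := U.mkQ_surjective x
    rw [hAQ, dcu_mapQ, LinearMap.zero_apply, Submodule.mkQ_apply,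
      Submodule.Quotient.mk_eq_zero]
    exact hmem v
  haveI : Fact (Irreducible f) := ⟨hirr⟩
  letI : Module (AdjoinRoot f) (V ⧸ U) := Module.compHom (V ⧸ U) (IW.act f AQ hAQf)
  have hsm : ∀ (p : F[X]) (x : V ⧸ U), (AdjoinRoot.mk f p) • x = aeval AQ p x := fun p v => rfl
  haveI : IsScalarTower F (AdjoinRoot f) (V ⧸ U) := by
    refine ⟨fun a c v => ?_⟩
    obtain ⟨p, rfl⟩ := AdjoinRoot.mk_surjective c
    have h1 : a • (AdjoinRoot.mk f p) = AdjoinRoot.mk f (a • p) := rfl
    rw [h1, hsm, hsm, map_smul, LinearMap.smul_apply]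
  have hf0 : f ≠ 0 := hf.ne_zero
  have hfr : Module.finrank F (AdjoinRoot f) = f.natDegree := by
    rw [(AdjoinRoot.powerBasis hf0).finrank, AdjoinRoot.powerBasis_dim]
  haveI : Module.Finite F (AdjoinRoot f) := (AdjoinRoot.powerBasis hf0).finite
  haveI : FiniteDimensional (AdjoinRoot f) (V ⧸ U) :=
    Module.Finite.of_restrictScalars_finite F _ (V ⧸ U)
  have hdpos : 0 < f.natDegree := hirr.natDegree_pos
  set d := Module.finrank (AdjoinRoot f) (V ⧸ U) with hd
  have hmul : f.natDegree * d = Module.finrank F (V ⧸ U) := by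
    rw [← hfr]
    exact Module.finrank_mul_finrank F (AdjoinRoot f) (V ⧸ U)
  have hquot : Module.finrank F (V ⧸ U) + Module.finrank F U = Module.finrank F V :=
    Submodule.finrank_quotient_add_finrank U
  set N := LinearMap.ker (aeval A f : Module.End F V) with hN
  have hker : Module.finrank F U + Module.finrank F N = Module.finrank F V :=
    LinearMap.finrank_range_add_finrank_ker (aeval A f : Module.End F V)
  have hNd : Module.finrank F N = f.natDegree * d := by omega
  let B : Module.Basis (Fin d) (AdjoinRoot f) (V ⧸ U) := Module.finBasis (AdjoinRoot f) (V ⧸ U)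
  have hex : ∀ i, ∃ v : V, U.mkQ v = B i := fun i => U.mkQ_surjective (B i)
  choose b hb using hex
  haveI : Finite V := Module.finite_of_finite F
  haveI : Finite N := inferInstance
  let g : {c : Module.End F V // c * A = A * c ∧ ∀ u ∈ U, c u = 0} → (Fin d → N) :=
    fun c i => ⟨c.1 (b i), by
      rw [hN, LinearMap.mem_ker, ← dcu_comm' c.2.1 f]
      exact c.2.2 _ (hmem _)⟩
  have hg : Function.Injective g := by
    rintro ⟨c, hc, hcU⟩ ⟨c', hc', hcU'⟩ hcc
    apply Subtype.ext
    show c = c'
    rw [← sub_eq_zero]
    set D := c - c' with hD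
    have hDA : D * A = A * D := by rw [hD, sub_mul, mul_sub, hc, hc']
    have hDU : ∀ u ∈ U, D u = 0 := by
      intro u hu
      rw [hD, LinearMap.sub_apply, hcU u hu, hcU' u hu, sub_zero]
    have hDb : ∀ i, D (b i) = 0 := by
      intro i
      have h1 : c (b i) = c' (b i) := congrArg Subtype.val (congrFun hcc i)
      rw [hD, LinearMap.sub_apply, h1, sub_self]
    have hkey : ∀ x ∈ Submodule.span (AdjoinRoot f) (Set.range B),
        ∀ v : V, U.mkQ v = x → D v = 0 := by
      intro x hx
      have hsame : ∀ v v' : V, U.mkQ v = U.mkQ v' → D v' = 0 → D v = 0 := by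
        intro v v' h1 h2
        have h3 : v - v' ∈ U := (Submodule.Quotient.eq U).1 h1
        have h4 := hDU _ h3
        rw [map_sub, h2, sub_zero] at h4
        exact h4
      induction hx using Submodule.span_induction with
      | mem x hx =>
        obtain ⟨i, rfl⟩ := hx
        intro v hv
        exact hsame v (b i) (hv.trans (hb i).symm) (hDb i)
      | zero =>
        intro v hv
        exact hDU v ((Submodule.Quotient.mk_eq_zero U).1 hv)
      | add x y _ _ hx hy =>
        intro v hv
        obtain ⟨v₁, hv₁⟩ := U.mkQ_surjective x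
        obtain ⟨v₂, hv₂⟩ := U.mkQ_surjective y
        refine hsame v (v₁ + v₂) (by rw [hv, map_add, hv₁, hv₂]) ?_
        rw [map_add, hx v₁ hv₁, hy v₂ hv₂, add_zero]
      | smul a x _ hx =>
        intro v hv
        obtain ⟨p, rfl⟩ := AdjoinRoot.mk_surjective a
        obtain ⟨v₁, hv₁⟩ := U.mkQ_surjective x
        refine hsame v (aeval A p v₁) ?_ ?_
        · rw [hv, hsm, ← hv₁, hAQ, dcu_mapQ]
        · rw [dcu_comm' hDA p, hx v₁ hv₁, map_zero]
    apply LinearMap.ext
    intro v
    exact hkey (U.mkQ v) (by rw [B.span_eq]; exact Submodule.mem_top) v rfl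
  have h1 := Nat.card_le_card_of_injective g hg
  have h2 : Nat.card (Fin d → N) = Nat.card F ^ (f.natDegree * d * d) := by
    rw [Nat.card_fun, Module.natCard_eq_pow_finrank (K := F) (V := N), hNd]
    simp only [Nat.card_eq_fintype_card, Fintype.card_fin]
    rw [← pow_mul]
  rw [h2] at h1
  have h3 : ((Module.finrank F V : ℝ) - Module.finrank F U) ^ 2 / (f.natDegree : ℝ) =
      ((f.natDegree * d * d : ℕ) : ℝ) := by
    have hb' : (f.natDegree : ℝ) ≠ 0 := by
      exact_mod_cast hdpos.ne'
    have h4 : (Module.finrank F V : ℝ) - Module.finrank F U = (f.natDegree : ℝ) * d := by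
      rw [← hquot, ← hmul]
      push_cast
      ring
    rw [h4, div_eq_iff hb']
    push_cast
    ring
  rw [h3, Real.rpow_natCast]
  exact_mod_cast h1

theorem t_DCU : S_DCU := by
  classical
  intro F V _ _ _ _ _ f hf hirr A h
  set U := LinearMap.range (aeval A f : Module.End F V) with hUdef
  haveI : Finite V := Module.finite_of_finite F
  haveI : Finite (Module.End F V) :=
    Finite.of_injective (fun c : Module.End F V => (c : V → V)) DFunLike.coe_injective
  haveI : Finite (Module.End F U) :=
    Finite.of_injective (fun c : Module.End F U => (c : U → U)) DFunLike.coe_injective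
  have hres : ∀ c : Module.End F V, c * A = A * c → ∀ v ∈ U, c v ∈ U := by
    rintro c hc v ⟨x, rfl⟩
    rw [dcu_comm' hc f]
    exact ⟨c x, rfl⟩
  let Φ : {c : Module.End F V // c * A = A * c} →
      {c : Module.End F U // c * A.restrict h = A.restrict h * c} :=
    fun c => ⟨c.1.restrict (hres c.1 c.2), by
      apply LinearMap.ext
      intro u
      apply Subtype.ext
      exact congrArg (fun T : Module.End F V => T u.1) c.2⟩
  haveI : Nonempty {c : Module.End F V // c * A = A * c} := ⟨⟨0, by rw [zero_mul, mul_zero]⟩⟩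
  let s := Function.invFun Φ
  have hs : ∀ c, Φ (s (Φ c)) = Φ c := fun c => Function.invFun_eq ⟨c, rfl⟩
  let g : {c : Module.End F V // c * A = A * c} →
      {c : Module.End F U // c * A.restrict h = A.restrict h * c} ×
        {c : Module.End F V // c * A = A * c ∧ ∀ u ∈ U, c u = 0} :=
    fun c => ⟨Φ c, ⟨c.1 - (s (Φ c)).1, by
      rw [sub_mul, mul_sub, c.2, (s (Φ c)).2], by
      intro u hu
      have h1 : ((Φ (s (Φ c))).1 ⟨u, hu⟩ : U) = (Φ c).1 ⟨u, hu⟩ := by rw [hs c]
      have h2 : (s (Φ c)).1 u = c.1 u := congrArg Subtype.val h1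
      rw [LinearMap.sub_apply, h2, sub_self]⟩⟩
  have hg : Function.Injective g := by
    intro c c' hcc
    have h1 : Φ c = Φ c' := congrArg Prod.fst hcc
    have h2 : c.1 - (s (Φ c)).1 = c'.1 - (s (Φ c')).1 :=
      congrArg (fun x => x.2.1) hcc
    rw [h1] at h2
    exact Subtype.ext (sub_left_injective h2)
  have h1 := Nat.card_le_card_of_injective g hg
  rw [Nat.card_prod] at h1
  have h2 := dcu_ker f hf hirr A h
  calc (Nat.card {c : Module.End F V // c * A = A * c} : ℝ)
      ≤ (Nat.card {c : Module.End F U // c * A.restrict h = A.restrict h * c} : ℝ) *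
        (Nat.card {c : Module.End F V // c * A = A * c ∧ ∀ u ∈ U, c u = 0} : ℝ) := by
        exact_mod_cast h1
    _ ≤ _ := mul_le_mul_of_nonneg_left h2 (Nat.cast_nonneg _)

end

end FGQ
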