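import Mathlib
import Pool.Agent.FGQ.StQ
import Pool.Agent.FG2.MAIN
import Pool.Agent.RSF.AS
import Pool.Agent.RSF.E
import Pool.Agent.RSF.B

/-!
# Module FNQ: the theorem for all `q`
-/

set_option autoImplicit false

namespace FGQ

open RSF FL0 FGE

/-- the union bound for the geometric classes -/
theorem fnq_asch {n : ℕ} {F Γ : Type} [Field F] [Group Γ] [Finite (Γ →* PS n F)] :
    prob Γ (PS n F) (fun ρ => Irr ρ.range ∧ Asch ρ.range) ≤
      prob Γ (PS n F) (fun ρ => Irr ρ.range ∧ Geo ρ.range) +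
        prob Γ (PS n F) (fun ρ => C6 ρ.range ∨ C7 ρ.range) := by
  unfold prob
  have key : Nat.card {ρ : Γ →* PS n F // Irr ρ.range ∧ Asch ρ.range} ≤
      Nat.card {ρ : Γ →* PS n F // Irr ρ.range ∧ Geo ρ.range} +
      Nat.card {ρ : Γ →* PS n F // C6 ρ.range ∨ C7 ρ.range} := by
    classical
    rw [← Nat.card_sum]
    have hc : ∀ ρ : Γ →* PS n F, Irr ρ.range ∧ Asch ρ.range → ¬ (C6 ρ.range ∨ C7 ρ.range) →
        Irr ρ.range ∧ Geo ρ.range := by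
      rintro ρ ⟨h1, h2⟩ h3
      refine ⟨h1, ?_⟩
      unfold Asch at h2
      unfold Geo
      tauto
    refine Nat.card_le_card_of_injective
      (fun ρ : {ρ : Γ →* PS n F // Irr ρ.range ∧ Asch ρ.range} =>
      if h2 : C6 ρ.1.range ∨ C7 ρ.1.range then Sum.inr ⟨ρ.1, h2⟩
      else Sum.inl ⟨ρ.1, hc ρ.1 ρ.2 h2⟩) ?_
    intro ρ ρ' h
    simp only at h
    apply Subtype.ext
    split_ifs at h <;> simp_all
  have key' : (Nat.card {ρ : Γ →* PS n F // Irr ρ.range ∧ Asch ρ.range} : ℝ) ≤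
      Nat.card {ρ : Γ →* PS n F // Irr ρ.range ∧ Geo ρ.range} +
      Nat.card {ρ : Γ →* PS n F // C6 ρ.range ∨ C7 ρ.range} := by exact_mod_cast key
  rw [← add_div]
  exact div_le_div_of_nonneg_right key' (Nat.cast_nonneg _)

/-- the last step -/
theorem fnq_last {Γ G : Type} [Group Γ] [Group G] [Finite (Γ →* G)] (I : (Γ →* G) → Prop)
    {ι : Type} (S : Set ι) (J : (Γ →* G) → ι → Prop) (As : (Γ →* G) → Prop) (ε : ℝ)
    (h1 : 1 - ε / 3 ≤ prob Γ G I)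
    (h2 : prob Γ G (fun ρ => ∃ M ∈ S, J ρ M) ≤ ε / 3)
    (h3 : prob Γ G (fun ρ => I ρ ∧ As ρ) ≤ ε / 3) :
    1 - ε ≤ prob Γ G (fun ρ => I ρ ∧ (∀ M ∈ S, ¬ J ρ M) ∧ ¬ As ρ) := by
  have h4 := FG2.main_prob3 I (fun ρ => ∃ M ∈ S, J ρ M) As
  have h8 : (fun ρ : Γ →* G => I ρ ∧ (∀ M ∈ S, ¬ J ρ M) ∧ ¬ As ρ) =
      fun ρ => I ρ ∧ ¬ (∃ M ∈ S, J ρ M) ∧ ¬ As ρ := by
    funext ρ
    simp only [not_exists, not_and]
  rw [h8]
  linarith

theorem t_FNQ : M_FNQ := by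
  intro hG hSM hGE hGA m hm hσ θ hθ
  have hne : m ≠ [] := by
    rintro rfl
    unfold sig at hσ
    simp at hσ
    linarith
  have hk : ∃ k ∈ m, 1 / (k : ℝ) < sig m := by
    obtain ⟨k, hk⟩ := List.exists_mem_of_ne_nil m hne
    refine ⟨k, hk, ?_⟩
    have h2 : (2 : ℝ) ≤ k := by exact_mod_cast hm k hk
    have h3 : 1 / (k : ℝ) ≤ 1 := by
      rw [div_le_one (by linarith)]
      linarith
    linarith
  obtain ⟨r1, H1⟩ := hG m hm hσ
  obtain ⟨η, r2, hη, H2⟩ := hSM m hne hm θ hθ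
  obtain ⟨r3, H3⟩ := hGE m hm hk
  obtain ⟨r5, H5⟩ := hGA m hm hk
  obtain ⟨r4, hr4, H4⟩ := t_AS (1 / 2) 1 (by norm_num) one_pos
  refine ⟨η, max (max r1 r2) (max (max r3 r4) r5), hη, fun ε hε => ?_⟩
  obtain ⟨N1, H1'⟩ := H1 (ε / 3) (by linarith)
  obtain ⟨N4, H4'⟩ := H4 (ε / 6) (by linarith)
  refine ⟨max N1 N4, fun n hn F _ _ hF S hS hM => ?_⟩
  have hn1 : r1 ≤ n := by omega
  have hn2 : r2 ≤ n := by omega
  have hn3 : r3 ≤ n := by omega
  have hn4 : r4 ≤ n := by omega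
  have hn5 : r5 ≤ n := by omega
  obtain ⟨a1, a2⟩ := H1' n hn1 F ((le_max_left _ _).trans hF)
  obtain ⟨b1, b2⟩ := H2 n hn2 F S hS hM
  obtain ⟨c1, c2⟩ := H3 n hn3 F
  obtain ⟨d1, d2⟩ := H5 n hn5 F
  have hlim := H4' n hn4 F ((le_max_right _ _).trans hF)
  have hq : (2 : ℝ) ≤ (Nat.card F : ℝ) := by
    exact_mod_cast Finite.one_lt_card (α := F)
  have hq0 : (0 : ℝ) < (Nat.card F : ℝ) := by linarith
  have hnr : (0 : ℝ) ≤ n := Nat.cast_nonneg _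
  have e1 : (Nat.card F : ℝ) ^ (-((n : ℝ) / 2)) ≤ ε / 6 := by
    refine le_trans ?_ hlim
    rw [one_mul, Real.rpow_one]
    calc (Nat.card F : ℝ) ^ (-((n : ℝ) / 2)) ≤ (Nat.card F : ℝ) ^ (1 - 1 / 2 * (n : ℝ)) :=
          Real.rpow_le_rpow_of_exponent_le (by linarith) (by linarith)
      _ = 1 * (Nat.card F : ℝ) ^ (1 - 1 / 2 * (n : ℝ)) := (one_mul _).symm
      _ ≤ ((n : ℝ) + 1) * (Nat.card F : ℝ) ^ (1 - 1 / 2 * (n : ℝ)) :=
          mul_le_mul_of_nonneg_right (by linarith) (by positivity)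
  have e2 : (Nat.card F : ℝ) ^ (-(n : ℝ)) ≤ ε / 3 :=
    (Real.rpow_le_rpow_of_exponent_le (by linarith) (by linarith)).trans
      (e1.trans (by linarith))
  have hfin : Finite (PS n F) := RSF.B.fin_ps n F
  have f1 : Finite (OGroup 1 m →* PS n F) := RSF.E.finite_ohom 1 m (PS n F)
  have f2 : Finite (NGroup 2 m →* PS n F) := RSF.E.finite_nhom 2 m (PS n F)
  constructor
  · exact fnq_last (Γ := OGroup 1 m) (fun ρ => Irr ρ.range) S (fun ρ M => InConj ρ.range M)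
      (fun ρ => Asch ρ.range) ε a1 (b1.trans e2)
      (fnq_asch.trans (by linarith))
  · exact fnq_last (Γ := NGroup 2 m) (fun ρ => Irr ρ.range) S (fun ρ M => InConj ρ.range M)
      (fun ρ => Asch ρ.range) ε a2 (b2.trans e2)
      (fnq_asch.trans (by linarith))

end FGQ
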