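import Mathlib
import Pool.Agent.FGQ.StQ

/-!
# The number of forms scaled by an invertible matrix
-/

set_option autoImplicit false

namespace FGQ

open RSF FL0 FGE Polynomial

noncomputable section

/-! ## 1. A vector with the full annihilator and its dual functional -/

theorem fxg_cyclic {F V : Type} [Field F] [AddCommGroup V] [Module F V] [FiniteDimensional F V]
    (Y : Module.End F V) :
    ∃ v : V, ∀ h : F[X], aeval Y h v = 0 → aeval Y h = 0 := by
  obtain ⟨x, hx⟩ := Module.exists_ker_toSpanSingleton_eq_annihilator F[X] (Module.AEval' Y)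
  refine ⟨(Module.AEval'.of Y).symm x, fun h hh => ?_⟩
  have h1 : h • x = 0 := by
    have h2 := Module.AEval.of_aeval_smul Y h ((Module.AEval'.of Y).symm x)
    rw [LinearEquiv.apply_symm_apply] at h2
    rw [← h2]
    have h3 : (aeval Y h) • ((Module.AEval'.of Y).symm x) = 0 := hh
    rw [h3, map_zero]
  have h2 : h ∈ Module.annihilator F[X] (Module.AEval' Y) := by
    rw [← hx, LinearMap.mem_ker, LinearMap.toSpanSingleton_apply]
    exact h1
  ext u
  have h3 := Module.mem_annihilator.1 h2 (Module.AEval'.of Y u)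
  have h4 := Module.AEval.of_aeval_smul Y h u
  have h5 : Module.AEval.of F V Y (aeval Y h • u) = 0 := h4.trans h3
  exact (LinearEquiv.map_eq_zero_iff _).1 h5

/-- the functional and the maps of the space into the cyclic subspace -/
theorem fxg_dual {F V : Type} [Field F] [AddCommGroup V] [Module F V] [FiniteDimensional F V]
    (Y : Module.End F V) (v : V) (hv : ∀ h : F[X], aeval Y h v = 0 → aeval Y h = 0)
    (hV : v ≠ 0) :
    ∃ Λ : V →ₗ[F] F,
      (∀ g : F[X], (∀ h : F[X], Λ (aeval Y h (aeval Y g v)) = 0) → aeval Y g v = 0) ∧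
      ∀ ψ : V →ₗ[F] F, ∃ G : V →ₗ[F] F[X], ∀ (h : F[X]) (u : V),
        Λ (aeval Y h (aeval Y (G u) v)) = ψ (aeval Y h u) := by
  classical
  have hint : IsIntegral F Y := Algebra.IsIntegral.isIntegral Y
  have hmon := minpoly.monic hint
  obtain ⟨w, hw⟩ : ∃ w, w = (minpoly F Y).natDegree := ⟨_, rfl⟩
  have hmem : ∀ g : F[X], g %ₘ minpoly F Y ∈ degreeLT F w := by
    intro g
    rw [mem_degreeLT, hw, ← degree_eq_natDegree hmon.ne_zero]
    exact degree_modByMonic_lt g hmon
  have hred : ∀ g : F[X], aeval Y (g %ₘ minpoly F Y) = aeval Y g := fun g =>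
    minpoly.aeval_modByMonic_minpoly g Y
  have hsmall : ∀ g ∈ degreeLT F w, aeval Y g v = 0 → g = 0 := by
    intro g hg h0
    have h1 := minpoly.dvd F Y (hv g h0)
    by_contra hne
    rw [mem_degreeLT, hw, ← degree_eq_natDegree hmon.ne_zero] at hg
    exact absurd (degree_le_of_dvd h1 hne) (not_le.2 hg)
  have hw1 : 1 ≤ w := by
    by_contra hcon
    have hw0 : w = 0 := by omega
    have h1 : minpoly F Y = 1 := hmon.natDegree_eq_zero.1 (by rw [← hw]; exact hw0)
    have h2 := minpoly.aeval F Y
    rw [h1, map_one] at h2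
    apply hV
    have h3 := congrArg (fun e : Module.End F V => e v) h2
    simpa using h3
  -- the linear maps
  let L : degreeLT F w →ₗ[F] V :=
    { toFun := fun g => aeval Y g.1 v
      map_add' := fun a b => by simp
      map_smul' := fun a b => by simp }
  have hL : Function.Injective L := by
    rw [injective_iff_map_eq_zero]
    intro g hg
    exact Subtype.ext (hsmall g.1 g.2 hg)
  obtain ⟨r0, hr0⟩ := LinearMap.exists_leftInverse_of_injective L (LinearMap.ker_eq_bot.2 hL)
  let Λ : V →ₗ[F] F := (Polynomial.lcoeff F (w - 1)) ∘ₗ (degreeLT F w).subtype ∘ₗ r0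
  have hΛ : ∀ g ∈ degreeLT F w, Λ (aeval Y g v) = g.coeff (w - 1) := by
    intro g hg
    have h1 : r0 (L ⟨g, hg⟩) = ⟨g, hg⟩ := by
      have := congrArg (fun e : degreeLT F w →ₗ[F] degreeLT F w => e ⟨g, hg⟩) hr0
      simpa using this
    show (Polynomial.lcoeff F (w - 1)) ((degreeLT F w).subtype (r0 (L ⟨g, hg⟩))) = _
    rw [h1]
    rfl
  have hnd : ∀ g : F[X], (∀ h ∈ degreeLT F w, Λ (aeval Y h (aeval Y g v)) = 0) →
      aeval Y g v = 0 := by
    intro g hg
    rw [← hred g]
    obtain ⟨g', hg'⟩ : ∃ g', g' = g %ₘ minpoly F Y := ⟨_, rfl⟩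
    rw [← hg']
    have hg'm : g' ∈ degreeLT F w := hg' ▸ hmem g
    by_contra hne
    have hg0 : g' ≠ 0 := by
      rintro rfl
      simp at hne
    have hd : g'.natDegree < w := by
      rw [mem_degreeLT, degree_eq_natDegree hg0] at hg'm
      exact_mod_cast hg'm
    have h1 : (X ^ (w - 1 - g'.natDegree) * g' : F[X]) ∈ degreeLT F w := by
      rw [mem_degreeLT, degree_mul, degree_X_pow, degree_eq_natDegree hg0]
      have : w - 1 - g'.natDegree + g'.natDegree < w := by omega
      exact_mod_cast this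
    have h2 : (X ^ (w - 1 - g'.natDegree) : F[X]) ∈ degreeLT F w := by
      rw [mem_degreeLT, degree_X_pow]
      have : w - 1 - g'.natDegree < w := by omega
      exact_mod_cast this
    have h3 := hg _ h2
    rw [← hred g, ← hg', ← Module.End.mul_apply, ← map_mul, hΛ _ h1] at h3
    have h4 : (X ^ (w - 1 - g'.natDegree) * g' : F[X]).coeff (w - 1) = g'.leadingCoeff := by
      rw [coeff_X_pow_mul', if_pos (by omega), leadingCoeff]
      congr 1
      omega
    rw [h4] at h3
    exact hg0 (leadingCoeff_eq_zero.1 h3)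
  refine ⟨Λ, fun g hg => hnd g fun h _ => hg h, fun ψ => ?_⟩
  -- the pairing
  let B : (V →ₗ[F] F) → V →ₗ[F] (degreeLT F w →ₗ[F] F) := fun χ =>
    { toFun := fun u =>
        { toFun := fun h => χ (aeval Y h.1 u)
          map_add' := fun a b => by simp
          map_smul' := fun a b => by simp }
      map_add' := fun a b => by ext h; simp
      map_smul' := fun a b => by ext h; simp }
  have hinj : Function.Injective (B Λ ∘ₗ L) := by
    rw [injective_iff_map_eq_zero]
    intro g hg
    refine hL ?_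
    rw [map_zero]
    refine hnd g.1 fun h hh => ?_
    exact congrArg (fun e : degreeLT F w →ₗ[F] F => e ⟨h, hh⟩) hg
  have hfin : FiniteDimensional F (degreeLT F w) :=
    LinearEquiv.finiteDimensional (degreeLTEquiv F w).symm
  have hsurj : Function.Surjective (B Λ ∘ₗ L) := by
    refine (LinearMap.injective_iff_surjective_of_finrank_eq_finrank ?_).1 hinj
    exact (Subspace.dual_finrank_eq (K := F) (V := degreeLT F w)).symm
  obtain ⟨R, hR⟩ := LinearMap.exists_rightInverse_of_surjective (B Λ ∘ₗ L)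
    (LinearMap.range_eq_top.2 hsurj)
  have hR' : ∀ χ : degreeLT F w →ₗ[F] F, B Λ (L (R χ)) = χ := by
    intro χ
    have := congrArg (fun e : (degreeLT F w →ₗ[F] F) →ₗ[F] (degreeLT F w →ₗ[F] F) => e χ) hR
    simpa using this
  refine ⟨(degreeLT F w).subtype ∘ₗ R ∘ₗ B ψ, fun h u => ?_⟩
  rw [← hred h]
  have h1 := congrArg (fun e : degreeLT F w →ₗ[F] F => e ⟨_, hmem h⟩) (hR' (B ψ u))
  exact h1

/-- the splitting of the space -/
structure fxg_Split {F V : Type} [Field F] [AddCommGroup V] [Module F V] (Y : Module.End F V) where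
  v : V
  lam : V →ₗ[F] F
  N : Submodule F V
  G : (V →ₗ[F] F) → V →ₗ[F] F[X]
  ne : v ≠ 0
  ann : ∀ h : F[X], aeval Y h v = 0 → aeval Y h = 0
  mem : ∀ u, u ∈ N ↔ ∀ h : F[X], lam (aeval Y h u) = 0
  nd : ∀ g : F[X], (∀ h : F[X], lam (aeval Y h (aeval Y g v)) = 0) → aeval Y g v = 0
  dual : ∀ (ψ : V →ₗ[F] F) (h : F[X]) (u : V),
    lam (aeval Y h (aeval Y (G ψ u) v)) = ψ (aeval Y h u)

theorem fxg_split {F V : Type} [Field F] [AddCommGroup V] [Module F V] [FiniteDimensional F V]
    [Nontrivial V] (Y : Module.End F V) : Nonempty (fxg_Split Y) := by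
  obtain ⟨v, hv⟩ := fxg_cyclic Y
  have hne : v ≠ 0 := by
    rintro rfl
    have h1 := hv 1 (map_zero _)
    rw [map_one] at h1
    obtain ⟨u, hu⟩ := exists_ne (0 : V)
    exact hu (congrArg (fun e : Module.End F V => e u) h1)
  obtain ⟨Λ, hnd, hG⟩ := fxg_dual Y v hv hne
  choose G hG using hG
  exact ⟨{
    v := v
    lam := Λ
    N :=
      { carrier := {u | ∀ h : F[X], Λ (aeval Y h u) = 0}
        add_mem' := fun {a b} ha hb h => by
          rw [map_add, map_add, ha h, hb h, add_zero]
        zero_mem' := fun h => by rw [map_zero, map_zero]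
        smul_mem' := fun r a ha h => by rw [map_smul, map_smul, ha h, smul_zero] }
    G := G
    ne := hne
    ann := hv
    mem := fun u => Iff.rfl
    nd := hnd
    dual := hG }⟩

namespace fxg_Split

variable {F V : Type} [Field F] [AddCommGroup V] [Module F V] {Y : Module.End F V}
  (S : fxg_Split Y)

theorem mulX (Y : Module.End F V) (h : F[X]) (u : V) :
    aeval Y (h * X) u = aeval Y h (Y u) := by
  rw [map_mul, aeval_X, Module.End.mul_apply]

theorem Xmul (Y : Module.End F V) (h : F[X]) (u : V) :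
    aeval Y (X * h) u = Y (aeval Y h u) := by
  rw [map_mul, aeval_X, Module.End.mul_apply]

theorem invt (u : V) (hu : u ∈ S.N) : Y u ∈ S.N := by
  rw [S.mem] at hu ⊢
  intro h
  rw [← mulX Y h u]
  exact hu _

theorem cap (g : F[X]) (h : aeval Y g S.v ∈ S.N) : aeval Y g S.v = 0 :=
  S.nd g ((S.mem _).1 h)

theorem diff (u : V) : u - aeval Y (S.G S.lam u) S.v ∈ S.N := by
  rw [S.mem]
  intro h
  rw [map_sub, map_sub, S.dual, sub_self]

theorem comm (ψ : V →ₗ[F] F) (u : V) :
    aeval Y (S.G ψ (Y u)) S.v = Y (aeval Y (S.G ψ u) S.v) := by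
  rw [← Xmul, ← sub_eq_zero, ← LinearMap.sub_apply, ← map_sub]
  refine S.nd _ fun h => ?_
  rw [map_sub, LinearMap.sub_apply, map_sub, map_sub, S.dual, Xmul, ← mulX Y h u,
    ← mulX Y h, S.dual, sub_self]

theorem ofN (u : V) (hu : u ∈ S.N) : aeval Y (S.G S.lam u) S.v = 0 := by
  refine S.cap _ ?_
  have h1 := S.N.sub_mem hu (S.diff u)
  rwa [sub_sub_cancel] at h1

theorem ofv : aeval Y (S.G S.lam S.v) S.v = S.v := by
  have h1 := S.diff S.v
  have h2 : S.v - aeval Y (S.G S.lam S.v) S.v = aeval Y (1 - S.G S.lam S.v) S.v := by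
    rw [map_sub, map_one, LinearMap.sub_apply, Module.End.one_apply]
  rw [h2] at h1
  have h3 := S.cap _ h1
  rw [← h2] at h3
  exact (sub_eq_zero.1 h3).symm

theorem commA (a u : V) : aeval Y (S.G S.lam (Y u)) a = Y (aeval Y (S.G S.lam u) a) := by
  have h1 := S.ann (S.G S.lam (Y u) - X * S.G S.lam u) (by
    rw [map_sub, LinearMap.sub_apply, Xmul, S.comm, sub_self])
  have h2 := congrArg (fun e : Module.End F V => e a) h1
  have h3 : aeval Y (S.G S.lam (Y u) - X * S.G S.lam u) a = 0 := h2
  rw [map_sub, LinearMap.sub_apply, Xmul] at h3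
  exact sub_eq_zero.1 h3

theorem ofNA (a u : V) (hu : u ∈ S.N) : aeval Y (S.G S.lam u) a = 0 := by
  have h1 := S.ann _ (S.ofN u hu)
  rw [h1]
  rfl

theorem ofvA (a : V) : aeval Y (S.G S.lam S.v) a = a := by
  have h1 := S.ann (S.G S.lam S.v - 1) (by
    rw [map_sub, LinearMap.sub_apply, map_one, S.ofv, Module.End.one_apply, sub_self])
  have h2 := congrArg (fun e : Module.End F V => e a) h1
  have h3 : aeval Y (S.G S.lam S.v - 1) a = 0 := h2
  rw [map_sub, LinearMap.sub_apply, map_one, Module.End.one_apply] at h3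
  exact sub_eq_zero.1 h3

theorem polyN (a : V) (ha : a ∈ S.N) (h : F[X]) : aeval Y h a ∈ S.N := by
  rw [S.mem] at ha ⊢
  intro k
  rw [← Module.End.mul_apply, ← map_mul]
  exact ha _

theorem not_mem : S.v ∉ S.N := by
  intro h
  have h1 : aeval Y (1 : F[X]) S.v = S.v := by rw [map_one, Module.End.one_apply]
  have h2 := S.cap 1 (h1.symm ▸ h)
  exact S.ne (h1 ▸ h2)

end fxg_Split

/-! ## 2. The centralizer -/

/-- evaluation of the polynomials at a vector -/
def fxg_ev {F V : Type} [Field F] [AddCommGroup V] [Module F V] (Y : Module.End F V) (a : V) :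
    F[X] →ₗ[F] V where
  toFun h := aeval Y h a
  map_add' h k := by rw [map_add, LinearMap.add_apply]
  map_smul' r h := by rw [map_smul, LinearMap.smul_apply, RingHom.id_apply]

/-- the projection to the complement -/
def fxg_pr {F V : Type} [Field F] [AddCommGroup V] [Module F V] {Y : Module.End F V}
    (S : fxg_Split Y) : V →ₗ[F] S.N :=
  LinearMap.codRestrict S.N (LinearMap.id - fxg_ev Y S.v ∘ₗ S.G S.lam) fun u => S.diff u

theorem fxg_pr_apply {F V : Type} [Field F] [AddCommGroup V] [Module F V] {Y : Module.End F V}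
    (S : fxg_Split Y) (u : V) :
    (fxg_pr S u : V) = u - aeval Y (S.G S.lam u) S.v := rfl

theorem fxg_C {F V : Type} [Field F] [Finite F] [AddCommGroup V] [Module F V]
    [FiniteDimensional F V] {Y : Module.End F V} (S : fxg_Split Y) :
    Nat.card V * (Nat.card S.N *
      Nat.card {a : Module.End F S.N // a * Y.restrict S.invt = Y.restrict S.invt * a}) ≤
    Nat.card {a : Module.End F V // a * Y = Y * a} := by
  have hfV : Finite V := Module.finite_of_finite F
  have hfE : Finite (Module.End F V) := Finite.of_injective (fun f : Module.End F V => (f : V → V))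
    DFunLike.coe_injective
  have hd : Nat.card V = Nat.card (V →ₗ[F] F) := by
    rw [Module.natCard_eq_pow_finrank (K := F) (V := V),
      Module.natCard_eq_pow_finrank (K := F) (V := V →ₗ[F] F)]
    congr 1
    exact (Subspace.dual_finrank_eq (K := F) (V := V)).symm
  rw [hd, ← Nat.card_prod, ← Nat.card_prod]
  -- the map
  have key : ∀ x : (V →ₗ[F] F) × (S.N ×
      {a : Module.End F S.N // a * Y.restrict S.invt = Y.restrict S.invt * a}),
      (fxg_ev Y S.v ∘ₗ S.G x.1 + fxg_ev Y (x.2.1 : V) ∘ₗ S.G S.lam +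
        S.N.subtype ∘ₗ x.2.2.1 ∘ₗ fxg_pr S : Module.End F V) * Y =
      Y * (fxg_ev Y S.v ∘ₗ S.G x.1 + fxg_ev Y (x.2.1 : V) ∘ₗ S.G S.lam +
        S.N.subtype ∘ₗ x.2.2.1 ∘ₗ fxg_pr S : Module.End F V) := by
    rintro ⟨ψ, a, c, hc⟩
    ext u
    have h1 : fxg_pr S (Y u) = Y.restrict S.invt (fxg_pr S u) := by
      apply Subtype.ext
      rw [fxg_pr_apply, S.comm]
      show _ = Y (fxg_pr S u : V)
      rw [fxg_pr_apply, map_sub]
    have h2 : c (Y.restrict S.invt (fxg_pr S u)) = Y.restrict S.invt (c (fxg_pr S u)) := by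
      have := congrArg (fun e : Module.End F S.N => e (fxg_pr S u)) hc
      exact this
    show aeval Y (S.G ψ (Y u)) S.v + aeval Y (S.G S.lam (Y u)) (a : V) +
        (c (fxg_pr S (Y u)) : V) =
      Y (aeval Y (S.G ψ u) S.v + aeval Y (S.G S.lam u) (a : V) + (c (fxg_pr S u) : V))
    rw [S.comm, S.commA, h1, h2, map_add, map_add]
    rfl
  refine Nat.card_le_card_of_injective (fun x => ⟨_, key x⟩) ?_
  rintro ⟨ψ, a, c, hc⟩ ⟨ψ', a', c', hc'⟩ heq
  have hE := congrArg Subtype.val heq
  have hEu : ∀ u : V, aeval Y (S.G ψ u) S.v + aeval Y (S.G S.lam u) (a : V) +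
        (c (fxg_pr S u) : V) = aeval Y (S.G ψ' u) S.v + aeval Y (S.G S.lam u) (a' : V) +
        (c' (fxg_pr S u) : V) := fun u => congrArg (fun e : Module.End F V => e u) hE
  have hlamN : ∀ u ∈ S.N, S.lam u = 0 := fun u hu => by
    have := (S.mem u).1 hu 1
    rwa [map_one, Module.End.one_apply] at this
  have hlamψ : ∀ (χ : V →ₗ[F] F) (u : V), S.lam (aeval Y (S.G χ u) S.v) = χ u := fun χ u => by
    have := S.dual χ 1 u
    rwa [map_one, Module.End.one_apply, Module.End.one_apply] at this
  have hψ : ψ = ψ' := by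
    ext u
    have h1 := congrArg S.lam (hEu u)
    rw [map_add, map_add, map_add, map_add, hlamψ, hlamψ,
      hlamN _ (S.polyN _ a.2 _), hlamN _ (c (fxg_pr S u)).2,
      hlamN _ (S.polyN _ a'.2 _), hlamN _ (c' (fxg_pr S u)).2] at h1
    simpa using h1
  subst hψ
  have hEu' : ∀ u : V, aeval Y (S.G S.lam u) (a : V) + (c (fxg_pr S u) : V) =
      aeval Y (S.G S.lam u) (a' : V) + (c' (fxg_pr S u) : V) := fun u => by
    have := hEu u
    rw [add_assoc, add_assoc] at this
    exact add_left_cancel this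
  have ha : a = a' := by
    have h1 := hEu' S.v
    have h2 : fxg_pr S S.v = 0 := by
      apply Subtype.ext
      rw [fxg_pr_apply, S.ofv, sub_self]
      rfl
    rw [h2, map_zero, map_zero, S.ofvA, S.ofvA] at h1
    apply Subtype.ext
    simpa using h1
  subst ha
  have hcc : c = c' := by
    ext u
    have h1 := add_left_cancel (hEu' u)
    have h2 : fxg_pr S (u : V) = u := by
      apply Subtype.ext
      rw [fxg_pr_apply, S.ofN _ u.2, sub_zero]
    rw [h2] at h1
    exact h1
  subst hcc
  rfl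

/-! ## 3. The forms -/

/-- the forms: additive and homogeneous in the first variable, scaled by `Y`, symmetric -/
structure fxg_IsF {F V : Type} [Field F] [AddCommGroup V] [Module F V] (τ : F ≃+* F) (ε c : F)
    (Y : V → V) (b : V → V → F) : Prop where
  add : ∀ u u' w, b (u + u') w = b u w + b u' w
  smul : ∀ (r : F) u w, b (r • u) w = r * b u w
  scale : ∀ u w, b (Y u) (Y w) = c * b u w
  sym : ∀ u w, b w u = ε * τ (b u w)

theorem fxg_IsF.add' {F V : Type} [Field F] [AddCommGroup V] [Module F V] {τ : F ≃+* F}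
    {ε c : F} {Y : V → V} {b : V → V → F} (h : fxg_IsF τ ε c Y b) (u w w' : V) :
    b u (w + w') = b u w + b u w' := by
  rw [h.sym (w + w') u, h.add, map_add, mul_add, ← h.sym, ← h.sym]

theorem fxg_H {F V : Type} [Field F] [Finite F] [AddCommGroup V] [Module F V]
    [FiniteDimensional F V] {Y : Module.End F V} (hY : Function.Injective Y) (S : fxg_Split Y)
    (τ : F ≃+* F) (ε c : F) :
    Nat.card {b : V → V → F // fxg_IsF τ ε c Y b} ≤
      Nat.card V * Nat.card {b : S.N → S.N → F // fxg_IsF τ ε c (Y.restrict S.invt) b} := by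
  have hfV : Finite V := Module.finite_of_finite F
  have hfN : Finite S.N := Subtype.finite
  have hfD : Finite (V →ₗ[F] F) := Finite.of_injective (fun f : V →ₗ[F] F => (f : V → F))
    DFunLike.coe_injective
  have hd : Nat.card V = Nat.card (V →ₗ[F] F) := by
    rw [Module.natCard_eq_pow_finrank (K := F) (V := V),
      Module.natCard_eq_pow_finrank (K := F) (V := V →ₗ[F] F)]
    congr 1
    exact (Subspace.dual_finrank_eq (K := F) (V := V)).symm
  have hYs : Function.Surjective Y := Finite.surjective_of_injective hY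
  rw [hd, ← Nat.card_prod]
  have hres : ∀ b : {b : V → V → F // fxg_IsF τ ε c Y b},
      fxg_IsF τ ε c (Y.restrict S.invt) (fun u w : S.N => b.1 (u : V) (w : V)) := fun b =>
    ⟨fun u u' w => b.2.add _ _ _, fun r u w => b.2.smul _ _ _, fun u w => b.2.scale _ _,
      fun u w => b.2.sym _ _⟩
  let lin : {b : V → V → F // fxg_IsF τ ε c Y b} → (V →ₗ[F] F) := fun b =>
    { toFun := fun u => b.1 u S.v
      map_add' := fun u u' => b.2.add _ _ _
      map_smul' := fun r u => b.2.smul _ _ _ }
  refine Nat.card_le_card_of_injective (fun b => (lin b, ⟨_, hres b⟩)) ?_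
  rintro ⟨b, hb⟩ ⟨b', hb'⟩ heq
  rw [Prod.mk.injEq] at heq
  have h1 : ∀ u, b u S.v = b' u S.v := fun u =>
    congrArg (fun e : V →ₗ[F] F => e u) heq.1
  have h2 : ∀ u w : S.N, b (u : V) (w : V) = b' (u : V) (w : V) := fun u w =>
    congrFun (congrFun (congrArg Subtype.val heq.2) u) w
  have h3 : ∀ u, b S.v u = b' S.v u := fun u => by rw [hb.sym u, hb'.sym u, h1]
  have h4 : ∀ (i : ℕ) (u : V), b ((Y ^ i) S.v) u = b' ((Y ^ i) S.v) u := by
    intro i
    induction i with
    | zero => intro u; rw [pow_zero, Module.End.one_apply]; exact h3 u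
    | succ i ih =>
      intro u
      obtain ⟨w, rfl⟩ := hYs u
      rw [pow_succ', Module.End.mul_apply, hb.scale, hb'.scale, ih]
  have hz : ∀ {d : V → V → F}, fxg_IsF τ ε c Y d → ∀ u, d 0 u = 0 := fun {d} hd u => by
    have := hd.smul 0 0 u
    rwa [zero_smul, zero_mul] at this
  have h5 : ∀ (h : F[X]) (u : V), b (aeval Y h S.v) u = b' (aeval Y h S.v) u := by
    intro h u
    induction h using Polynomial.induction_on' with
    | add p q hp hq =>
      rw [map_add, LinearMap.add_apply, hb.add, hb'.add, hp, hq]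
    | monomial i r =>
      rw [aeval_monomial, Module.End.mul_apply, Module.algebraMap_end_apply, hb.smul, hb'.smul,
        h4]
  have h6 : ∀ (h : F[X]) (u : V), b u (aeval Y h S.v) = b' u (aeval Y h S.v) := by
    intro h u
    rw [hb.sym (aeval Y h S.v) u, hb'.sym (aeval Y h S.v) u, h5]
  refine Subtype.ext (funext fun u => funext fun w => ?_)
  show b u w = b' u w
  have hu : u = aeval Y (S.G S.lam u) S.v + (fxg_pr S u : V) := by
    rw [fxg_pr_apply]; abel
  have hw : w = aeval Y (S.G S.lam w) S.v + (fxg_pr S w : V) := by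
    rw [fxg_pr_apply]; abel
  rw [hu, hb.add, hb'.add, h5]
  congr 1
  rw [hw, hb.add', hb'.add', h6, h2]

theorem fxg_main (F : Type) [Field F] [Finite F] (τ : F ≃+* F) (ε c : F) :
    ∀ (n : ℕ) (V : Type) [AddCommGroup V] [Module F V] [FiniteDimensional F V]
      (Y : Module.End F V), Function.Injective Y → Module.finrank F V ≤ n →
      (Nat.card {b : V → V → F // fxg_IsF τ ε c Y b}) ^ 2 ≤
        Nat.card V * Nat.card {a : Module.End F V // a * Y = Y * a} := by
  intro n
  induction n with
  | zero =>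
    intro V _ _ _ Y hY hn
    have hsub : Subsingleton V := Module.finrank_zero_iff.1 (Nat.le_zero.1 hn)
    have hfE : Finite (Module.End F V) := Finite.of_injective
      (fun f : Module.End F V => (f : V → V)) DFunLike.coe_injective
    have h1 : Nat.card {b : V → V → F // fxg_IsF τ ε c Y b} ≤ 1 := by
      have : Subsingleton {b : V → V → F // fxg_IsF τ ε c Y b} := by
        refine ⟨fun b b' => Subtype.ext (funext fun u => funext fun w => ?_)⟩
        have h0 : u = 0 := Subsingleton.elim _ _
        subst h0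
        have e1 := b.2.smul 0 0 w
        have e2 := b'.2.smul 0 0 w
        rw [zero_smul, zero_mul] at e1 e2
        rw [e1, e2]
      exact Finite.card_le_one_iff_subsingleton.2 this
    have h2 : 0 < Nat.card V := Nat.card_pos
    have h3 : 0 < Nat.card {a : Module.End F V // a * Y = Y * a} := by
      have : Nonempty {a : Module.End F V // a * Y = Y * a} := ⟨⟨1, by rw [one_mul, mul_one]⟩⟩
      exact Nat.card_pos
    calc _ ≤ 1 ^ 2 := Nat.pow_le_pow_left h1 2
      _ = 1 := one_pow 2
      _ ≤ _ := Nat.mul_pos h2 h3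
  | succ n ih =>
    intro V _ _ _ Y hY hn
    by_cases hn' : Module.finrank F V ≤ n
    · exact ih V Y hY hn'
    have hnt : Nontrivial V := Module.nontrivial_of_finrank_pos (R := F) (by omega)
    obtain ⟨S⟩ := fxg_split Y
    have hlt : Module.finrank F S.N < Module.finrank F V := by
      refine Submodule.finrank_lt fun h => S.not_mem ?_
      rw [h]
      exact Submodule.mem_top
    have hYN : Function.Injective (Y.restrict S.invt) := by
      intro a b hab
      apply Subtype.ext
      exact hY (congrArg Subtype.val hab)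
    have h1 := ih S.N (Y.restrict S.invt) hYN (by omega)
    have h2 := fxg_H hY S τ ε c
    have h3 := fxg_C S
    calc (Nat.card {b : V → V → F // fxg_IsF τ ε c Y b}) ^ 2
        ≤ (Nat.card V *
            Nat.card {b : S.N → S.N → F // fxg_IsF τ ε c (Y.restrict S.invt) b}) ^ 2 :=
          Nat.pow_le_pow_left h2 2
      _ = Nat.card V ^ 2 *
            Nat.card {b : S.N → S.N → F // fxg_IsF τ ε c (Y.restrict S.invt) b} ^ 2 :=
          mul_pow _ _ _
      _ ≤ Nat.card V ^ 2 * (Nat.card S.N *
            Nat.card {a : Module.End F S.N // a * Y.restrict S.invt = Y.restrict S.invt * a}) :=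
          Nat.mul_le_mul_left _ h1
      _ = Nat.card V * (Nat.card V * (Nat.card S.N *
            Nat.card {a : Module.End F S.N // a * Y.restrict S.invt =
              Y.restrict S.invt * a})) := by ring
      _ ≤ _ := Nat.mul_le_mul_left _ h3

/-! ## 4. Matrices -/

theorem t_FXG : S_FXG := by
  intro F _ _ n τ ε c y hc
  have hfM : Finite (Matrix (Fin n) (Fin n) F) := Pi.finite
  have hY : Function.Injective (Matrix.toLin' y.1) := by
    rw [Matrix.toLin'_apply']
    exact Matrix.mulVec_injective_of_isUnit y.isUnit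
  have h1 := fxg_main F τ ε c n (Fin n → F) (Matrix.toLin' y.1) hY (by
    rw [Module.finrank_fin_fun])
  have hV : Nat.card (Fin n → F) = Nat.card F ^ n := by
    rw [Nat.card_fun, Nat.card_fin]
  rw [hV] at h1
  have h2 : Nat.card {a : Module.End F (Fin n → F) // a * Matrix.toLin' y.1 =
      Matrix.toLin' y.1 * a} ≤
      Nat.card {a : Matrix (Fin n) (Fin n) F // a * y.1 = y.1 * a} := by
    refine Nat.card_le_card_of_injective (fun a => ⟨LinearMap.toMatrix' a.1, ?_⟩) ?_
    · have h3 := congrArg LinearMap.toMatrix' a.2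
      rwa [LinearMap.toMatrix'_mul, LinearMap.toMatrix'_mul, LinearMap.toMatrix'_toLin'] at h3
    · intro a b hab
      exact Subtype.ext (LinearMap.toMatrix'.injective (congrArg Subtype.val hab))
  have h3 : Nat.card {J : Matrix (Fin n) (Fin n) F // Her τ ε J ∧
      y.1.transpose * J * y.1.map τ = c • J} ≤
      Nat.card {b : (Fin n → F) → (Fin n → F) → F // fxg_IsF τ ε c (Matrix.toLin' y.1) b} := by
    refine Nat.card_le_card_of_injective
      (fun J => ⟨fun u w => u ⬝ᵥ (J.1.mulVec (τ ∘ w)), ?_⟩) ?_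
    · obtain ⟨J, ⟨hτ, -, hJ⟩, hs⟩ := J
      refine ⟨fun u u' w => add_dotProduct _ _ _, fun r u w => smul_dotProduct _ _ _,
        fun u w => ?_, fun u w => ?_⟩
      · show (y.1.mulVec u) ⬝ᵥ J.mulVec (τ ∘ (y.1.mulVec w)) = c * (u ⬝ᵥ J.mulVec (τ ∘ w))
        have e1 : τ ∘ (y.1.mulVec w) = (y.1.map τ).mulVec (τ ∘ w) := by
          funext i
          simp [Matrix.mulVec, dotProduct, map_sum]
        rw [e1, ← Matrix.vecMul_transpose, ← Matrix.dotProduct_mulVec, Matrix.mulVec_mulVec,
          Matrix.mulVec_mulVec, hs, Matrix.smul_mulVec, dotProduct_smul,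
          smul_eq_mul]
      · show w ⬝ᵥ J.mulVec (τ ∘ u) = ε * τ (u ⬝ᵥ J.mulVec (τ ∘ w))
        have e1 : τ (u ⬝ᵥ J.mulVec (τ ∘ w)) = (τ ∘ u) ⬝ᵥ (J.map τ).mulVec w := by
          simp only [dotProduct, Matrix.mulVec, map_sum, map_mul, Function.comp_apply,
            Matrix.map_apply, hτ]
        rw [e1, ← smul_eq_mul, ← dotProduct_smul, ← Matrix.smul_mulVec, ← hJ,
          Matrix.dotProduct_mulVec, Matrix.mulVec_transpose, dotProduct_comm]
    · intro J J' hJJ
      apply Subtype.ext
      ext i j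
      have h4 := congrFun (congrFun (congrArg Subtype.val hJJ) (Pi.single i 1)) (Pi.single j 1)
      have e1 : ∀ K : Matrix (Fin n) (Fin n) F,
          (Pi.single i 1 : Fin n → F) ⬝ᵥ K.mulVec (τ ∘ (Pi.single j 1 : Fin n → F)) = K i j := by
        intro K
        have e2 : τ ∘ (Pi.single j 1 : Fin n → F) = Pi.single j 1 := by
          funext l
          by_cases hl : l = j
          · subst hl; simp
          · simp [hl]
        rw [e2, single_dotProduct, one_mul, Matrix.mulVec_single_one]
        rfl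
      have h5 : (Pi.single i 1 : Fin n → F) ⬝ᵥ J.1.mulVec (τ ∘ (Pi.single j 1 : Fin n → F)) =
        (Pi.single i 1 : Fin n → F) ⬝ᵥ J'.1.mulVec (τ ∘ (Pi.single j 1 : Fin n → F)) := h4
      rwa [e1, e1] at h5
  calc _ ≤ _ := Nat.pow_le_pow_left h3 2
    _ ≤ _ := h1
    _ ≤ _ := Nat.mul_le_mul_left _ h2

end

end FGQ
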