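import Mathlib
import Pool.Agent.FGQ.StQ
import Pool.Agent.FGE.GA2

/-!
# GAQ: the classes `C6` and `C7`, all `q` (as `FGE/GA2.lean`)
-/

set_option autoImplicit false

namespace FGQ

open RSF FL0 FGE Polynomial

noncomputable section

theorem t_GAQ : M_GAQ := by
  intro hPR hN6 hS6 hN7 hS7 m hm hk
  obtain ⟨r, hr⟩ := hPR m hm hk 20 (by norm_num)
  refine ⟨max r 10, fun n hn F _ _ => ?_⟩
  have hn1 : r ≤ n := le_trans (le_max_left _ _) hn
  have hn2 : 10 ≤ n := le_trans (le_max_right _ _) hn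
  have key : ∀ (I : Type) [Finite I] (Q : I → Matrix (Fin n) (Fin n) F → Prop),
      (∀ T M (c : F), c ≠ 0 → Q T M → Q T (c • M)) →
      (Nat.card I : ℝ) ≤ Bd 20 n F ((n : ℝ) ^ 2) →
      (∀ T, (Nat.card {y : GL (Fin n) F // Q T y.1} : ℝ) ≤ Bd 20 n F 0) →
      prob (OGroup 1 m) (PS n F) (fun ρ => ∃ T, All ρ.range (Q T)) ≤
        (Nat.card F : ℝ) ^ (-(2 * (n : ℝ))) ∧
      prob (NGroup 2 m) (PS n F) (fun ρ => ∃ T, All ρ.range (Q T)) ≤
        (Nat.card F : ℝ) ^ (-(2 * (n : ℝ))) := by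
    intro I _ Q _ h2 h3
    refine hr n hn1 F I Q 0 le_rfl (by norm_num) ?_ ?_ ?_
    · rw [sub_zero, one_mul]
      exact h2
    · intro T k _ β
      rw [zero_mul, zero_mul]
      refine le_trans ?_ (h3 T)
      refine Nat.cast_le.2 (Nat.card_le_card_of_injective (fun x => ⟨x.1, x.2.2⟩) ?_)
      intro x y hxy
      exact Subtype.ext (congrArg (fun z : {y : GL (Fin n) F // Q T y.1} => z.1) hxy)
    · intro T
      rw [zero_mul]
      exact h3 T
  have f1 : Finite (OGroup 1 m →* PS n F) := RSF.A.finite_ohom 1 m (PS n F)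
  have f2 : Finite (NGroup 2 m →* PS n F) := RSF.A.finite_nhom 2 m (PS n F)
  exact ⟨ga2_union hN6 hS6 hN7 hS7 n hn2 F (OGroup 1 m) fun I _ Q h1 h2 h3 =>
      (key I Q h1 h2 h3).1,
    ga2_union hN6 hS6 hN7 hS7 n hn2 F (NGroup 2 m) fun I _ Q h1 h2 h3 => (key I Q h1 h2 h3).2⟩

end

end FGQ
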