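import Mathlib
import Pool.Agent.FGQ.StQ
import Pool.Agent.FGE.GE0

/-!
# GEQ: the geometric subgroups for all `q`, oriented genus 1 and non-oriented genus 2
-/

set_option autoImplicit false

namespace FGQ

open RSF FL0 FGE Polynomial

noncomputable section

/-- the conclusion of `S_PRQ` for the group `Γ` -/
def geq_HP (m : List ℕ) (C : ℝ) (n : ℕ) (F : Type) [Field F] (Γ : Type) [Group Γ] :
    Prop :=
  ∀ (I : Type) [Finite I] (Q : I → Matrix (Fin n) (Fin n) F → Prop) (μ : ℝ), 0 ≤ μ → μ ≤ 1 / 2 →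
    (Nat.card I : ℝ) ≤ Bd C n F ((1 - μ) * (n : ℝ) ^ 2) →
    (∀ T, ∀ k ∈ m, ∀ β : F, (Nat.card {y : GL (Fin n) F //
        y.1 ^ k = β • (1 : Matrix (Fin n) (Fin n) F) ∧ Q T y.1} : ℝ) ≤
      Bd C n F (μ * (1 - 1 / (k : ℝ)) * (n : ℝ) ^ 2)) →
    (∀ T, (Nat.card {y : GL (Fin n) F // Q T y.1} : ℝ) ≤ Bd C n F (μ * (n : ℝ) ^ 2)) →
    prob Γ (PS n F) (fun ρ => ∃ T, All ρ.range (Q T)) ≤
      (Nat.card F : ℝ) ^ (-(2 * (n : ℝ)))

/-- the bound of `S_C2Q` for `k` with the constant `C` -/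
def geq_Y2 (k : ℕ) (C : ℝ) : Prop :=
  ∀ (F : Type) [Field F] [Finite F] (n t a : ℕ), 1 ≤ a → 1 ≤ t → t * a = n →
    ∀ (V : I2 F n t a) (β : F),
    (Nat.card {y : GL (Fin n) F //
        y.1 ^ k = β • (1 : Matrix (Fin n) (Fin n) F) ∧ P2 V.1 y.1} : ℝ) ≤
      Bd C n F (1 / (t : ℝ) * (1 - 1 / (k : ℝ)) * (n : ℝ) ^ 2)

def geq_Y3 (k : ℕ) (C : ℝ) : Prop :=
  ∀ (F : Type) [Field F] [Finite F] (n b : ℕ), 1 ≤ n → b ∣ n →
    b.Prime → ∀ (K : I3 F n b) (β : F),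
    (Nat.card {y : GL (Fin n) F //
        y.1 ^ k = β • (1 : Matrix (Fin n) (Fin n) F) ∧ P3 K.1 y.1} : ℝ) ≤
      Bd C n F (1 / (b : ℝ) * (1 - 1 / (k : ℝ)) * (n : ℝ) ^ 2)

def geq_Y4 (k : ℕ) (C : ℝ) : Prop :=
  ∀ (F : Type) [Field F] [Finite F] (n a b : ℕ), 1 ≤ a → 1 ≤ b → a * b = n →
    ∀ (T : I4 F n a b) (β : F),
    (Nat.card {y : GL (Fin n) F //
        y.1 ^ k = β • (1 : Matrix (Fin n) (Fin n) F) ∧ y.1 ∈ T.1} : ℝ) ≤
      Bd C n F ((1 - 1 / (k : ℝ)) * ((a : ℝ) ^ 2 + (b : ℝ) ^ 2))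

def geq_Y5 (k : ℕ) (C : ℝ) : Prop :=
  ∀ (F : Type) [Field F] [Finite F] (n r : ℕ) (K : Subfield F),
    1 ≤ n → 1 ≤ r → Nat.card K ^ r = Nat.card F → ∀ (T : I5 F n K) (β : F),
    (Nat.card {y : GL (Fin n) F //
        y.1 ^ k = β • (1 : Matrix (Fin n) (Fin n) F) ∧ y.1 ∈ T.1} : ℝ) ≤
      Bd C n F (1 / (r : ℝ) * (1 - 1 / (k : ℝ)) * (n : ℝ) ^ 2)

def geq_Y8 (k : ℕ) (C : ℝ) : Prop :=
  ∀ (F : Type) [Field F] [Finite F] (n : ℕ), 1 ≤ n → ∀ (z : I8 F n) (β : F),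
    (Nat.card {y : GL (Fin n) F //
        y.1 ^ k = β • (1 : Matrix (Fin n) (Fin n) F) ∧ P8 z.1.1 z.1.2.2 y.1} : ℝ) ≤
      Bd C n F (1 / 2 * (1 - 1 / (k : ℝ)) * (n : ℝ) ^ 2)

theorem geq_c2 (m : List ℕ) (C : ℝ) (hC : 5 ≤ C) (n : ℕ) (F : Type) [Field F]
    [Finite F] (Γ : Type) [Group Γ] [Finite (Γ →* PS n F)] (hHP : geq_HP m C n F Γ)
    (hN : S_C2N) (hY : ∀ k ∈ m, geq_Y2 k C) (hS : S_C2S) (t : ℕ) :
    prob Γ (PS n F) (fun ρ => ∃ (a : ℕ) (V : I2 F n t a), 2 ≤ t ∧ 1 ≤ a ∧ t * a = n ∧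
      All ρ.range (P2 V.1)) ≤ (Nat.card F : ℝ) ^ (-(2 * (n : ℝ))) := by
  by_cases h : ∃ a, 2 ≤ t ∧ 1 ≤ a ∧ t * a = n
  · obtain ⟨a, ht, ha, hta⟩ := h
    refine (ge0_prob_mono _ (fun ρ => ∃ V : I2 F n t a, All ρ.range (P2 V.1)) ?_).trans ?_
    · rintro ρ ⟨a', V, -, -, h3, h4⟩
      have h5 : a' = a := Nat.eq_of_mul_eq_mul_left (by omega) (h3.trans hta.symm)
      subst h5
      exact ⟨V, h4⟩
    · have hfin : Finite (I2 F n t a) := by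
        unfold I2
        infer_instance
      have ht0 : (2 : ℝ) ≤ t := by exact_mod_cast ht
      refine hHP (I2 F n t a) (fun V => P2 V.1) (1 / t) (by positivity) ?_ ?_ ?_ ?_
      · exact one_div_le_one_div_of_le (by norm_num) ht0
      · exact (hN F n t a ha (by omega) hta).trans (ge0_Bd_mono _ _ (by linarith) _ _ _)
      · intro V k hk β
        exact hY k hk F n t a ha (by omega) hta V β
      · intro V
        exact (hS F n t a ha (by omega) hta V).trans (ge0_Bd_mono _ _ (by linarith) _ _ _)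
  · rw [ge0_prob_false]
    · positivity
    · rintro ρ ⟨a, V, h1, h2, h3, -⟩
      exact h ⟨a, h1, h2, h3⟩

theorem geq_c3 (m : List ℕ) (C : ℝ) (hC : 5 ≤ C) (n : ℕ) (hn : 1 ≤ n) (F : Type)
    [Field F] [Finite F]
    (Γ : Type) [Group Γ] [Finite (Γ →* PS n F)] (hHP : geq_HP m C n F Γ)
    (hN : S_C3N) (hY : ∀ k ∈ m, geq_Y3 k C) (hS : S_C3S) (b : ℕ) :
    prob Γ (PS n F) (fun ρ => ∃ K : I3 F n b, b.Prime ∧ b ∣ n ∧ All ρ.range (P3 K.1)) ≤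
      (Nat.card F : ℝ) ^ (-(2 * (n : ℝ))) := by
  by_cases h : b.Prime ∧ b ∣ n
  · obtain ⟨hb, hbn⟩ := h
    refine (ge0_prob_mono _ (fun ρ => ∃ K : I3 F n b, All ρ.range (P3 K.1)) ?_).trans ?_
    · rintro ρ ⟨K, -, -, h4⟩
      exact ⟨K, h4⟩
    · have hfin0 : Finite (Subalgebra F (Matrix (Fin n) (Fin n) F)) :=
        Finite.of_injective (fun K => (K : Set (Matrix (Fin n) (Fin n) F))) SetLike.coe_injective
      have hfin : Finite (I3 F n b) := by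
        unfold I3
        infer_instance
      have ht0 : (2 : ℝ) ≤ b := by exact_mod_cast hb.two_le
      refine hHP (I3 F n b) (fun K => P3 K.1) (1 / b) (by positivity) ?_ ?_ ?_ ?_
      · exact one_div_le_one_div_of_le (by norm_num) ht0
      · exact (hN F n b hb.one_le).trans (ge0_pow_le_Bd _ (by linarith) _ _ _)
      · intro K k hk β
        exact hY k hk F n b hn hbn hb K β
      · intro K
        exact (hS F n b hn hb.one_le hbn K).trans (ge0_Bd_mono _ _ (by linarith) _ _ _)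
  · rw [ge0_prob_false]
    · positivity
    · rintro ρ ⟨K, h1, h2, -⟩
      exact h ⟨h1, h2⟩

theorem geq_c4 (m : List ℕ) (C : ℝ) (hC : 5 ≤ C) (n : ℕ) (hn : 1 ≤ n) (F : Type)
    [Field F] [Finite F] (Γ : Type) [Group Γ] [Finite (Γ →* PS n F)] (hHP : geq_HP m C n F Γ)
    (hN : S_C4N) (hY : ∀ k ∈ m, geq_Y4 k C) (hS : S_C4S) (a : ℕ) :
    prob Γ (PS n F) (fun ρ => ∃ (b : ℕ) (T : I4 F n a b), 2 ≤ a ∧ 2 ≤ b ∧ a * b = n ∧
      All ρ.range (fun M => M ∈ T.1)) ≤ (Nat.card F : ℝ) ^ (-(2 * (n : ℝ))) := by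
  by_cases h : ∃ b, 2 ≤ a ∧ 2 ≤ b ∧ a * b = n
  · obtain ⟨b, ha, hb, hab⟩ := h
    refine (ge0_prob_mono _ (fun ρ => ∃ T : I4 F n a b, All ρ.range (fun M => M ∈ T.1))
      ?_).trans ?_
    · rintro ρ ⟨b', T, -, -, h3, h4⟩
      have h5 : b' = b := Nat.eq_of_mul_eq_mul_left (by omega) (h3.trans hab.symm)
      subst h5
      exact ⟨T, h4⟩
    · have hfin : Finite (I4 F n a b) := by
        unfold I4
        infer_instance
      have ha0 : (2 : ℝ) ≤ a := by exact_mod_cast ha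
      have hb0 : (2 : ℝ) ≤ b := by exact_mod_cast hb
      have hn0 : (0 : ℝ) < (n : ℝ) ^ 2 := by
        have : (1 : ℝ) ≤ n := by exact_mod_cast hn
        positivity
      have hnab : (n : ℝ) = a * b := by
        rw [← hab]
        push_cast
        rfl
      have hμ : ((a : ℝ) ^ 2 + (b : ℝ) ^ 2) / (n : ℝ) ^ 2 * (n : ℝ) ^ 2 =
          (a : ℝ) ^ 2 + (b : ℝ) ^ 2 := div_mul_cancel₀ _ hn0.ne'
      refine hHP (I4 F n a b) (fun T M => M ∈ T.1) (((a : ℝ) ^ 2 + (b : ℝ) ^ 2) / (n : ℝ) ^ 2)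
        (by positivity) ?_ ?_ ?_ ?_
      · rw [div_le_iff₀ hn0, hnab]
        nlinarith [mul_nonneg (sub_nonneg.2 (show (4 : ℝ) ≤ (a : ℝ) ^ 2 by nlinarith))
          (sub_nonneg.2 (show (4 : ℝ) ≤ (b : ℝ) ^ 2 by nlinarith)),
          show (4 : ℝ) ≤ (a : ℝ) ^ 2 by nlinarith, show (4 : ℝ) ≤ (b : ℝ) ^ 2 by nlinarith]
      · have h1 := hN F n a b (by omega) (by omega) hab
        refine h1.trans ((ge0_Bd_mono _ _ hC _ _ _).trans (le_of_eq ?_))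
        congr 1
        rw [sub_mul, one_mul, hμ]
      · intro T k hk β
        have h1 := hY k hk F n a b (by omega) (by omega) hab T β
        refine h1.trans (le_of_eq ?_)
        congr 1
        rw [mul_assoc, mul_comm (1 - 1 / (k : ℝ)) ((n : ℝ) ^ 2), ← mul_assoc, hμ, mul_comm]
      · intro T
        have h1 := hS F n a b (by omega) (by omega) hab T
        rw [hμ]
        exact h1.trans (ge0_Bd_mono _ _ (by linarith) _ _ _)
  · rw [ge0_prob_false]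
    · positivity
    · rintro ρ ⟨b, T, h1, h2, h3, -⟩
      exact h ⟨b, h1, h2, h3⟩

theorem geq_c5 (m : List ℕ) (C : ℝ) (hC : 5 ≤ C) (n : ℕ) (hn : 1 ≤ n) (F : Type)
    [Field F] [Finite F] (Γ : Type) [Group Γ] [Finite (Γ →* PS n F)] (hHP : geq_HP m C n F Γ)
    (hN : S_C5N) (hY : ∀ k ∈ m, geq_Y5 k C) (hS : S_C5S) (K : Subfield F) :
    prob Γ (PS n F) (fun ρ => K ≠ ⊤ ∧ ∃ T : I5 F n K, All ρ.range (fun M => M ∈ T.1)) ≤
      (Nat.card F : ℝ) ^ (-(2 * (n : ℝ))) := by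
  by_cases hK : K = ⊤
  · rw [ge0_prob_false]
    · positivity
    · rintro ρ ⟨h1, -⟩
      exact h1 hK
  · obtain ⟨r, hr, hKr⟩ := ge0_sub F K hK
    refine (ge0_prob_mono _ (fun ρ => ∃ T : I5 F n K, All ρ.range (fun M => M ∈ T.1))
      (fun ρ h => h.2)).trans ?_
    have hfin : Finite (I5 F n K) := by
      unfold I5
      infer_instance
    have hr0 : (2 : ℝ) ≤ r := by exact_mod_cast hr
    refine hHP (I5 F n K) (fun T M => M ∈ T.1) (1 / r) (by positivity) ?_ ?_ ?_ ?_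
    · exact one_div_le_one_div_of_le (by norm_num) hr0
    · exact (hN F n r K hn (by omega) hKr).trans (ge0_Bd_mono _ _ (by linarith) _ _ _)
    · intro T k hk β
      exact hY k hk F n r K hn (by omega) hKr T β
    · intro T
      exact (hS F n r K hn (by omega) hKr T).trans (ge0_Bd_mono _ _ (by linarith) _ _ _)

theorem geq_c8 (m : List ℕ) (C : ℝ) (hC : 5 ≤ C) (n : ℕ) (hn : 1 ≤ n) (F : Type)
    [Field F] [Finite F]
    (Γ : Type) [Group Γ] [Finite (Γ →* PS n F)] (hHP : geq_HP m C n F Γ)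
    (hN : S_C8N) (hY : ∀ k ∈ m, geq_Y8 k C) (hS : S_C8S) :
    prob Γ (PS n F) (fun ρ => ∃ z : I8 F n, All ρ.range (P8 z.1.1 z.1.2.2)) ≤
      (Nat.card F : ℝ) ^ (-(2 * (n : ℝ))) := by
  have hfin : Finite (I8 F n) := (hN F n hn).1
  refine hHP (I8 F n) (fun z => P8 z.1.1 z.1.2.2) (1 / 2) (by norm_num) le_rfl ?_ ?_ ?_
  · refine ((hN F n hn).2.trans (ge0_Bd_mono _ _ (by linarith) _ _ _)).trans (le_of_eq ?_)
    congr 1
    ring
  · intro z k hk β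
    exact hY k hk F n hn z β
  · intro z
    exact (hS F n hn z).trans (ge0_Bd_mono _ _ (by linarith) _ _ _)

/-- the union bound for one group -/
theorem geq_union (m : List ℕ) (C : ℝ) (hC : 5 ≤ C)
    (hR2 : S_C2R) (hN2 : S_C2N) (hY2 : ∀ k ∈ m, geq_Y2 k C) (hS2 : S_C2S)
    (hR3 : S_C3R) (hN3 : S_C3N) (hY3 : ∀ k ∈ m, geq_Y3 k C) (hS3 : S_C3S)
    (hN4 : S_C4N) (hY4 : ∀ k ∈ m, geq_Y4 k C) (hS4 : S_C4S)
    (hN5 : S_C5N) (hY5 : ∀ k ∈ m, geq_Y5 k C) (hS5 : S_C5S)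
    (hR8 : S_C8R) (hN8 : S_C8N) (hY8 : ∀ k ∈ m, geq_Y8 k C) (hS8 : S_C8S)
    (n : ℕ) (hn : 4 ≤ n) (F : Type) [Field F] [Finite F]
    (Γ : Type) [Group Γ] [Finite (Γ →* PS n F)] (hHP : geq_HP m C n F Γ) :
    prob Γ (PS n F) (fun ρ => Irr ρ.range ∧ Geo ρ.range) ≤
      (Nat.card F : ℝ) ^ (-((n : ℝ) / 2)) := by
  classical
  have hfin0 : Finite (Subfield F) :=
    Finite.of_injective (fun K => (K : Set F)) SetLike.coe_injective
  have hft : Fintype (Subfield F) := Fintype.ofFinite _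
  have hn1 : 1 ≤ n := by omega
  set δ : ℝ := (Nat.card F : ℝ) ^ (-(2 * (n : ℝ))) with hδ
  have b2 := ge0_prob_ex (Finset.range (n + 1)) _ δ
    (fun t => geq_c2 m C hC n F Γ hHP hN2 hY2 hS2 t)
  have b3 := ge0_prob_ex (Finset.range (n + 1)) _ δ
    (fun b => geq_c3 m C hC n hn1 F Γ hHP hN3 hY3 hS3 b)
  have b4 := ge0_prob_ex (Finset.range (n + 1)) _ δ
    (fun a => geq_c4 m C hC n hn1 F Γ hHP hN4 hY4 hS4 a)
  have b5 := ge0_prob_ex (Finset.univ : Finset (Subfield F)) _ δ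
    (fun K => geq_c5 m C hC n hn1 F Γ hHP hN5 hY5 hS5 K)
  have b8 := geq_c8 m C hC n hn1 F Γ hHP hN8 hY8 hS8
  have hδ0 : 0 ≤ δ := Real.rpow_nonneg (Nat.cast_nonneg _) _
  have hsub : ((Finset.univ : Finset (Subfield F)).card : ℝ) ≤ Nat.card F := by
    have := ge0_card_sub F
    rw [Nat.card_eq_fintype_card (α := Subfield F)] at this
    rw [Finset.card_univ]
    exact_mod_cast this
  rw [Finset.card_range] at b2 b3 b4
  refine le_trans ?_ (ge0_final n hn (Nat.card F) (by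
    have : 1 < Nat.card F := Finite.one_lt_card
    exact_mod_cast this))
  have key : prob Γ (PS n F) (fun ρ => Irr ρ.range ∧ Geo ρ.range) ≤
      prob Γ (PS n F) (fun ρ => (∃ t ∈ Finset.range (n + 1),
        ∃ (a : ℕ) (V : I2 F n t a), 2 ≤ t ∧ 1 ≤ a ∧ t * a = n ∧ All ρ.range (P2 V.1)) ∨
      (∃ b ∈ Finset.range (n + 1), ∃ K : I3 F n b, b.Prime ∧ b ∣ n ∧ All ρ.range (P3 K.1)) ∨
      (∃ a ∈ Finset.range (n + 1), ∃ (b : ℕ) (T : I4 F n a b), 2 ≤ a ∧ 2 ≤ b ∧ a * b = n ∧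
        All ρ.range (fun M => M ∈ T.1)) ∨
      (∃ K ∈ (Finset.univ : Finset (Subfield F)), K ≠ ⊤ ∧
        ∃ T : I5 F n K, All ρ.range (fun M => M ∈ T.1)) ∨
      (∃ z : I8 F n, All ρ.range (P8 z.1.1 z.1.2.2))) := by
    refine ge0_prob_mono _ _ ?_
    rintro ρ ⟨hirr, h2 | h3 | h4 | h5 | h8⟩
    · obtain ⟨t, a, V, ht, ha, hta, hV⟩ := hR2 F n ρ.range hn1 hirr h2
      refine Or.inl ⟨t, Finset.mem_range.2 ?_, a, V, ht, ha, hta, hV⟩
      have : t ≤ n := by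
        rw [← hta]
        exact Nat.le_mul_of_pos_right t (by omega)
      omega
    · obtain ⟨b, K, hb, hbn, hK⟩ := hR3 F n ρ.range hn1 h3
      refine Or.inr (Or.inl ⟨b, Finset.mem_range.2 ?_, K, hb, hbn, hK⟩)
      have := Nat.le_of_dvd (by omega) hbn
      omega
    · obtain ⟨a, b, e, P, ha, hb, hP⟩ := h4
      have hab : a * b = n := by
        have h := Fintype.card_congr e
        rw [Fintype.card_prod, Fintype.card_fin, Fintype.card_fin, Fintype.card_fin] at h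
        exact h.symm
      refine Or.inr (Or.inr (Or.inl ⟨a, Finset.mem_range.2 ?_, b, ⟨{M | P4 e P M}, e, P, rfl⟩,
        ha, hb, hab, hP⟩))
      have : a ≤ n := by
        rw [← hab]
        exact Nat.le_mul_of_pos_right a (by omega)
      omega
    · obtain ⟨K, P, hK, hP⟩ := h5
      exact Or.inr (Or.inr (Or.inr (Or.inl ⟨K, Finset.mem_univ _, hK,
        ⟨{M | P5 K P M}, P, rfl⟩, hP⟩)))
    · obtain ⟨z, hz⟩ := hR8 F n ρ.range hn1 hirr h8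
      exact Or.inr (Or.inr (Or.inr (Or.inr ⟨z, hz⟩)))
  refine key.trans ?_
  refine (ge0_prob_or _ _).trans ?_
  refine (add_le_add b2 ((ge0_prob_or _ _).trans (add_le_add b3 ((ge0_prob_or _ _).trans
    (add_le_add b4 ((ge0_prob_or _ _).trans (add_le_add b5 b8))))))).trans ?_
  have h9 : ((Finset.univ : Finset (Subfield F)).card : ℝ) * δ ≤ Nat.card F * δ :=
    mul_le_mul_of_nonneg_right hsub hδ0
  push_cast
  linarith

/-- the constants -/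
theorem geq_const (hY2 : S_C2Q) (hY3 : S_C3Q) (hY4 : S_C4Q) (hY5 : S_C5Q) (hY8 : S_C8Q)
    (m : List ℕ) (hm : ∀ k ∈ m, 2 ≤ k) : ∃ C : ℝ, 5 ≤ C ∧ (∀ k ∈ m, geq_Y2 k C) ∧
      (∀ k ∈ m, geq_Y3 k C) ∧ (∀ k ∈ m, geq_Y4 k C) ∧ (∀ k ∈ m, geq_Y5 k C) ∧
      (∀ k ∈ m, geq_Y8 k C) := by
  have m2 : ∀ k C C', geq_Y2 k C → C ≤ C' → geq_Y2 k C' := by
    intro k C C' h hC F _ _ n t a ha ht hta V β
    exact (h F n t a ha ht hta V β).trans (ge0_Bd_mono _ _ hC _ _ _)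
  have m3 : ∀ k C C', geq_Y3 k C → C ≤ C' → geq_Y3 k C' := by
    intro k C C' h hC F _ _ n b h1 h2 h4 K β
    exact (h F n b h1 h2 h4 K β).trans (ge0_Bd_mono _ _ hC _ _ _)
  have m4 : ∀ k C C', geq_Y4 k C → C ≤ C' → geq_Y4 k C' := by
    intro k C C' h hC F _ _ n a b h1 h2 h3 K β
    exact (h F n a b h1 h2 h3 K β).trans (ge0_Bd_mono _ _ hC _ _ _)
  have m5 : ∀ k C C', geq_Y5 k C → C ≤ C' → geq_Y5 k C' := by
    intro k C C' h hC F _ _ n r K h1 h2 h3 T β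
    exact (h F n r K h1 h2 h3 T β).trans (ge0_Bd_mono _ _ hC _ _ _)
  have m8 : ∀ k C C', geq_Y8 k C → C ≤ C' → geq_Y8 k C' := by
    intro k C C' h hC F _ _ n h1 z β
    exact (h F n h1 z β).trans (ge0_Bd_mono _ _ hC _ _ _)
  have hm1 : ∀ k ∈ m, 1 ≤ k := fun k hk => by
    have := hm k hk
    omega
  obtain ⟨C2, h20, h2⟩ := ge0_common geq_Y2 m2 (fun k hk => by
    obtain ⟨C, hC, h⟩ := hY2 k hk
    exact ⟨C, hC, fun F _ _ n t a ha ht hta V β => h F n t a ha ht hta V β⟩) m hm1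
  obtain ⟨C3, h30, h3⟩ := ge0_common geq_Y3 m3 (fun k hk => by
    obtain ⟨C, hC, h⟩ := hY3 k hk
    exact ⟨C, hC, fun F _ _ n b h1 h2 h4 K β => h F n b h1 h2 h4 K β⟩) m hm1
  obtain ⟨C4, h40, h4⟩ := ge0_common geq_Y4 m4 (fun k hk => by
    obtain ⟨C, hC, h⟩ := hY4 k hk
    exact ⟨C, hC, fun F _ _ n a b h1 h2 h3 T β => h F n a b h1 h2 h3 T β⟩) m hm1
  obtain ⟨C5, h50, h5⟩ := ge0_common geq_Y5 m5 (fun k hk => by
    obtain ⟨C, hC, h⟩ := hY5 k hk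
    exact ⟨C, hC, fun F _ _ n r K h1 h2 h3 T β => h F n r K h1 h2 h3 T β⟩) m hm1
  obtain ⟨C8, h80, h8⟩ := ge0_common geq_Y8 m8 (fun k hk => by
    obtain ⟨C, hC, h⟩ := hY8 k hk
    exact ⟨C, hC, fun F _ _ n h1 z β => h F n h1 z β⟩) m hm1
  refine ⟨5 + C2 + C3 + C4 + C5 + C8, by linarith, ?_, ?_, ?_, ?_, ?_⟩
  · exact fun k hk => m2 k _ _ (h2 k hk) (by linarith)
  · exact fun k hk => m3 k _ _ (h3 k hk) (by linarith)
  · exact fun k hk => m4 k _ _ (h4 k hk) (by linarith)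
  · exact fun k hk => m5 k _ _ (h5 k hk) (by linarith)
  · exact fun k hk => m8 k _ _ (h8 k hk) (by linarith)

theorem t_GEQ : M_GEQ := by
  intro hPR hR2 hN2 hY2 hS2 hR3 hN3 hY3 hS3 hN4 hY4 hS4 hN5 hY5 hS5 hR8 hN8 hY8 hS8 m hm hk
  obtain ⟨C, hC, h2, h3, h4, h5, h8⟩ := geq_const hY2 hY3 hY4 hY5 hY8 m hm
  obtain ⟨r, hr⟩ := hPR m hm hk C (by linarith)
  refine ⟨max r 4, fun n hn F _ _ => ⟨?_, ?_⟩⟩
  · have hfin : Finite (OGroup 1 m →* PS n F) := RSF.A.finite_ohom 1 m (PS n F)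
    refine geq_union m C hC hR2 hN2 h2 hS2 hR3 hN3 h3 hS3 hN4 h4 hS4 hN5 h5 hS5 hR8 hN8 h8 hS8
      n (le_trans (le_max_right _ _) hn) F (OGroup 1 m) ?_
    intro I _ Q μ h0 h1 h3 h4 h5
    exact (hr n (le_trans (le_max_left _ _) hn) F I Q μ h0 h1 h3 h4 h5).1
  · have hfin : Finite (NGroup 2 m →* PS n F) := RSF.A.finite_nhom 2 m (PS n F)
    refine geq_union m C hC hR2 hN2 h2 hS2 hR3 hN3 h3 hS3 hN4 h4 hS4 hN5 h5 hS5 hR8 hN8 h8 hS8
      n (le_trans (le_max_right _ _) hn) F (NGroup 2 m) ?_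
    intro I _ Q μ h0 h1 h3 h4 h5
    exact (hr n (le_trans (le_max_left _ _) hn) F I Q μ h0 h1 h3 h4 h5).2

end

end FGQ
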