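import Mathlib
import Pool.Agent.FGQ.StQ

/-!
# FGQ, module NRM: norms of polynomials over finite fields
-/

set_option autoImplicit false

namespace FGQ

open Polynomial

/-- norms of finite fields, with respect to an automorphism of prime order, are surjective -/
lemma nrm_surj {M : Type} [Field M] [Finite M] (τ : M ≃+* M) (b : ℕ) (hb : b.Prime)
    (h1 : τ ≠ 1) (hτ : τ ^ b = 1) (x : M) (hx : τ x = x) :
    ∃ u : M, ∏ i ∈ Finset.range b, (τ ^ i) u = x := by
  classical
  have : Fact b.Prime := ⟨hb⟩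
  have ho : orderOf τ = b := orderOf_eq_prime hτ h1
  have : Finite (M ≃+* M) := Finite.of_injective (fun e : M ≃+* M => (e : M → M))
    DFunLike.coe_injective
  let G := Subgroup.zpowers τ
  have : Fintype G := Fintype.ofFinite G
  have hfix : ∀ g : G, g • x = x := by
    rintro ⟨g, n, rfl⟩
    have h2 : τ ∈ MulAction.stabilizer (M ≃+* M) x := hx
    have h3 : τ ^ n ∈ MulAction.stabilizer (M ≃+* M) x := Subgroup.zpow_mem _ h2 n
    exact h3
  let k := FixedPoints.subfield G M
  obtain ⟨u, hu⟩ := FiniteField.norm_surjective k M ⟨x, hfix⟩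
  refine ⟨u, ?_⟩
  have h4 : (algebraMap k M) (Algebra.norm k u) = x := by rw [hu]; rfl
  rw [Algebra.norm_eq_prod_automorphisms] at h4
  have h5 := (FixedPoints.toAlgAut_bijective G M).prod_comp (fun σ : M ≃ₐ[k] M => σ u)
  rw [← h5] at h4
  rw [← h4, ← ho]
  rw [← Fin.prod_univ_eq_prod_range (fun i => (τ ^ i) u) (orderOf τ)]
  rw [← (finEquivZPowers (isOfFinOrder_of_finite τ)).prod_comp]
  refine Finset.prod_congr rfl fun i _ => ?_
  rfl

/-- the homomorphism `φ^i` on polynomials -/
noncomputable def nrm_psi {F K : Type} [Field F] [Field K] [Algebra F K] (φ : K ≃ₐ[F] K) (i : ℕ) :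
    K[X] →+* K[X] := mapRingHom ((φ ^ i : K ≃ₐ[F] K) : K →+* K)

lemma nrm_psi_apply {F K : Type} [Field F] [Field K] [Algebra F K] (φ : K ≃ₐ[F] K) (i : ℕ)
    (s : K[X]) : nrm_psi φ i s = s.map ((φ ^ i : K ≃ₐ[F] K) : K →+* K) := rfl

lemma nrm_psi_zero {F K : Type} [Field F] [Field K] [Algebra F K] (φ : K ≃ₐ[F] K) (s : K[X]) :
    nrm_psi φ 0 s = s := by
  ext n
  rw [nrm_psi_apply, coeff_map, pow_zero]
  rfl

lemma nrm_psi_add {F K : Type} [Field F] [Field K] [Algebra F K] (φ : K ≃ₐ[F] K) (i j : ℕ)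
    (s : K[X]) : nrm_psi φ i (nrm_psi φ j s) = nrm_psi φ (i + j) s := by
  ext n
  rw [nrm_psi_apply, nrm_psi_apply, nrm_psi_apply, coeff_map, coeff_map, coeff_map, pow_add]
  rfl

lemma nrm_psi_X {F K : Type} [Field F] [Field K] [Algebra F K] (φ : K ≃ₐ[F] K) (i : ℕ) :
    nrm_psi φ i X = X := by
  rw [nrm_psi_apply, map_X]

lemma nrm_psi_surj {F K : Type} [Field F] [Field K] [Algebra F K] (φ : K ≃ₐ[F] K) (i : ℕ) :
    Function.Surjective (nrm_psi φ i) := by
  unfold nrm_psi
  rw [coe_mapRingHom]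
  exact map_surjective _ (φ ^ i : K ≃ₐ[F] K).surjective

theorem t_NRM : S_NRM := by
  classical
  intro F K _ _ _ _ φ b hb hfr hφ f hfm hfi hfX
  have : Fact b.Prime := ⟨hb⟩
  have : FiniteDimensional F K := Module.finite_of_finrank_pos (by rw [hfr]; exact hb.pos)
  have : Finite F := Finite.of_injective (algebraMap F K) (algebraMap F K).injective
  have hcard : Nat.card (K ≃ₐ[F] K) = b := by rw [IsGalois.card_aut_eq_finrank, hfr]
  have hφb : φ ^ b = 1 := by rw [← hcard]; exact pow_card_eq_one'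
  have hpsib : ∀ s, nrm_psi φ b s = s := by
    intro s
    have h1 := nrm_psi_zero φ s
    unfold nrm_psi at h1 ⊢
    rw [hφb]
    rwa [pow_zero] at h1
  have htop : Subgroup.zpowers φ = ⊤ := zpowers_eq_top_of_prime_card (p := b) hcard hφ
  have hfixF : ∀ c : K, φ c = c → c ∈ Set.range (algebraMap F K) := by
    intro c hc
    rw [IsGalois.mem_range_algebraMap_iff_fixed]
    intro g
    have h1 : g ∈ Subgroup.zpowers φ := by rw [htop]; exact Subgroup.mem_top g
    have h2 : φ ∈ MulAction.stabilizer (K ≃ₐ[F] K) c := hc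
    obtain ⟨n, rfl⟩ := h1
    exact Subgroup.zpow_mem _ h2 n
  -- the maximal ideal
  set fK := f.map (algebraMap F K) with hfK
  have hfKm : fK.Monic := hfm.map _
  obtain ⟨P, hP, hfP⟩ := Ideal.exists_le_maximal (Ideal.span {fK}) (by
    intro h
    rw [Ideal.span_singleton_eq_top] at h
    have h1 : fK.natDegree = 0 := natDegree_eq_zero_of_isUnit h
    rw [hfK, natDegree_map] at h1
    exact absurd h1 hfi.natDegree_pos.ne')
  have hfP' : fK ∈ P := hfP (Ideal.mem_span_singleton_self _)
  -- elements over `F` of `P`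
  have hdvd : ∀ g : F[X], g.map (algebraMap F K) ∈ P → f ∣ g := by
    intro g hg
    by_contra hcon
    obtain ⟨a, c, hac⟩ := (hfi.coprime_iff_not_dvd).2 hcon
    apply hP.ne_top
    rw [Ideal.eq_top_iff_one]
    have h1 : (a.map (algebraMap F K)) * fK + (c.map (algebraMap F K)) * (g.map (algebraMap F K))
        = 1 := by
      rw [hfK, ← Polynomial.map_mul, ← Polynomial.map_mul, ← Polynomial.map_add, hac,
        Polynomial.map_one]
    rw [← h1]
    exact P.add_mem (P.mul_mem_left _ hfP') (P.mul_mem_left _ hg)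
  have hXP : (X : K[X]) ∉ P := by
    intro h
    have h1 : f ∣ X := hdvd X (by rwa [map_X])
    exact hfX (eq_of_monic_of_associated hfm monic_X (hfi.associated_of_dvd irreducible_X h1))
  -- reduction to `P`
  suffices hs : ∃ s : K[X], X * (∏ i ∈ Finset.range b, nrm_psi φ i s) - 1 ∈ P by
    obtain ⟨s, hs⟩ := hs
    refine ⟨s, ?_⟩
    show fK ∣ X * (∏ i ∈ Finset.range b, nrm_psi φ i s) - 1
    set h := X * (∏ i ∈ Finset.range b, nrm_psi φ i s) - 1 with hh
    have h1 : nrm_psi φ 1 h = h := by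
      rw [hh, map_sub, map_mul, map_prod, map_one, nrm_psi_X]
      congr 2
      rw [Finset.prod_congr rfl (g := fun i => nrm_psi φ (i + 1) s) (fun i _ => by
        rw [nrm_psi_add, add_comm])]
      have h2 := Finset.prod_range_succ (fun i => nrm_psi φ i s) b
      rw [Finset.prod_range_succ'] at h2
      rw [nrm_psi_zero, hpsib] at h2
      by_cases hs0 : s = 0
      · subst hs0
        simp only [map_zero]
      · exact mul_right_cancel₀ hs0 h2
    have h2 : h ∈ lifts (algebraMap F K) := by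
      rw [lifts_iff_coeff_lifts]
      intro n
      apply hfixF
      have h3 := congrArg (fun p : K[X] => p.coeff n) h1
      simp only [nrm_psi_apply, coeff_map, pow_one] at h3
      exact h3
    obtain ⟨g, hg⟩ := (mem_lifts _).1 h2
    rw [← hg] at hs ⊢
    exact Polynomial.map_dvd _ (hdvd g hs)
  -- the residue field
  have hPi : ∀ i, (P.comap (nrm_psi φ i)).IsMaximal := fun i =>
    Ideal.comap_isMaximal_of_surjective _ (nrm_psi_surj φ i)
  have hPX : ∃ v : K[X], X * v - 1 ∈ P := by
    let := Ideal.Quotient.field P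
    have h1 : (Ideal.Quotient.mk P X) ≠ 0 := fun h => hXP (Ideal.Quotient.eq_zero_iff_mem.1 h)
    obtain ⟨v, hv⟩ := Ideal.Quotient.mk_surjective (Ideal.Quotient.mk P X)⁻¹
    refine ⟨v, ?_⟩
    rw [← Ideal.Quotient.eq_zero_iff_mem, map_sub, map_mul, hv, mul_inv_cancel₀ h1, map_one,
      sub_self]
  obtain ⟨v, hv⟩ := hPX
  by_cases hcase : ∃ i, 0 < i ∧ i < b ∧ P.comap (nrm_psi φ i) = P
  · -- `f` stays irreducible
    obtain ⟨i, hi0, hib, hi⟩ := hcase
    have hmul : ∀ n : ℕ, P.comap (nrm_psi φ (n * i)) = P := by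
      intro n
      induction n with
      | zero =>
        ext s
        rw [zero_mul, Ideal.mem_comap, nrm_psi_zero]
      | succ n ih =>
        ext s
        rw [Ideal.mem_comap, Nat.succ_mul, ← nrm_psi_add, ← Ideal.mem_comap, ih,
          ← Ideal.mem_comap, hi]
    have hone : P.comap (nrm_psi φ 1) = P := by
      have hco : Nat.Coprime i b :=
        ((Nat.Prime.coprime_iff_not_dvd hb).2 (Nat.not_dvd_of_pos_of_lt hi0 hib)).symm
      obtain ⟨m, -, hm⟩ := Nat.exists_mul_mod_eq_one_of_coprime hco hb.one_lt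
      have h1 := hmul m
      have h2 : m * i = b * (i * m / b) + 1 := by
        rw [mul_comm m i, ← hm, Nat.div_add_mod]
      have h3 : nrm_psi φ (m * i) = nrm_psi φ 1 := by
        unfold nrm_psi
        rw [h2, pow_add, pow_mul, hφb, one_pow, one_mul]
      rwa [h3] at h1
    let := Ideal.Quotient.field P
    have hMf : Module.Finite K (K[X] ⧸ P) := by
      have h1 : Module.Finite K (K[X] ⧸ Ideal.span {fK}) := hfKm.finite_quotient
      exact Module.Finite.of_surjective (Ideal.Quotient.factorₐ K hfP).toLinearMap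
        (Ideal.Quotient.factor_surjective hfP)
    have hMfin : Finite (K[X] ⧸ P) := Module.finite_of_finite K
    let τ₀ : (K[X] ⧸ P) →+* (K[X] ⧸ P) := Ideal.quotientMap P (nrm_psi φ 1) hone.ge
    have hinj : Function.Injective τ₀ := τ₀.injective
    let τ : (K[X] ⧸ P) ≃+* (K[X] ⧸ P) :=
      RingEquiv.ofBijective τ₀ ⟨hinj, Finite.injective_iff_surjective.1 hinj⟩
    have hτ : ∀ s, τ (Ideal.Quotient.mk P s) = Ideal.Quotient.mk P (nrm_psi φ 1 s) := fun s => rfl
    have hτi : ∀ (i : ℕ) (s : K[X]),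
        (τ ^ i) (Ideal.Quotient.mk P s) = Ideal.Quotient.mk P (nrm_psi φ i s) := by
      intro i
      induction i with
      | zero =>
        intro s
        rw [nrm_psi_zero, pow_zero]
        rfl
      | succ i ih =>
        intro s
        rw [pow_succ, RingAut.mul_apply, hτ, ih, nrm_psi_add]
    have hτb : τ ^ b = 1 := by
      apply RingEquiv.ext
      intro y
      obtain ⟨s, rfl⟩ := Ideal.Quotient.mk_surjective y
      rw [hτi, hpsib]
      rfl
    have hτ1 : τ ≠ 1 := by
      intro h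
      apply hφ
      apply AlgEquiv.ext
      intro c
      by_contra hcon
      have h1 : τ (Ideal.Quotient.mk P (C c)) = Ideal.Quotient.mk P (C c) := by rw [h]; rfl
      rw [hτ, Ideal.Quotient.eq, nrm_psi_apply, map_C, ← C_sub] at h1
      refine hP.ne_top (Ideal.eq_top_of_isUnit_mem _ h1 (isUnit_C.2 (IsUnit.mk0 _ ?_)))
      rw [pow_one]
      exact sub_ne_zero.2 hcon
    have hxx : Ideal.Quotient.mk P X * Ideal.Quotient.mk P v = 1 := by
      rw [← map_mul, ← map_one (Ideal.Quotient.mk P), Ideal.Quotient.eq]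
      exact hv
    have hX0 : Ideal.Quotient.mk P X ≠ 0 := left_ne_zero_of_mul_eq_one hxx
    have hvv : τ (Ideal.Quotient.mk P v) = Ideal.Quotient.mk P v := by
      have h1 := congrArg τ hxx
      rw [map_mul, map_one, hτ X, nrm_psi_X, ← hxx] at h1
      exact mul_left_cancel₀ hX0 h1
    obtain ⟨u, hu⟩ := nrm_surj τ b hb hτ1 hτb _ hvv
    obtain ⟨s, rfl⟩ := Ideal.Quotient.mk_surjective u
    refine ⟨s, ?_⟩
    rw [← Ideal.Quotient.eq, map_mul, map_prod, map_one, ← hxx, ← hu]
    congr 1
    exact Finset.prod_congr rfl fun i _ => (hτi i s).symm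
  · -- `f` splits
    push Not at hcase
    have hco : IsCoprime P (∏ i ∈ Finset.Ico 1 b, P.comap (nrm_psi φ i)) := by
      refine IsCoprime.prod_right fun i hi => ?_
      have h1 := Finset.mem_Ico.1 hi
      have := hPi i
      exact Ideal.isCoprime_of_isMaximal (hcase i (by omega) h1.2).symm
    obtain ⟨p, hp, j, hj, hpj⟩ := Ideal.isCoprime_iff_exists.1 hco
    refine ⟨v * j + p, ?_⟩
    have h0 : Ideal.Quotient.mk P (nrm_psi φ 0 (v * j + p)) = Ideal.Quotient.mk P v := by
      rw [nrm_psi_zero, Ideal.Quotient.eq]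
      have e : v * j + p - v = (1 - v) * p := by
        have : j = 1 - p := by rw [← hpj]; ring
        rw [this]
        ring
      rw [e]
      exact P.mul_mem_left _ hp
    have h1 : ∀ i ∈ Finset.Ico 1 b,
        Ideal.Quotient.mk P (nrm_psi φ i (v * j + p)) = 1 := by
      intro i hi
      rw [← map_one (Ideal.Quotient.mk P), Ideal.Quotient.eq, ← map_one (nrm_psi φ i), ← map_sub]
      have e : v * j + p - 1 = (v - 1) * j := by
        have : p = 1 - j := by rw [← hpj]; ring
        rw [this]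
        ring
      rw [e]
      have h2 : j ∈ P.comap (nrm_psi φ i) :=
        (Ideal.prod_le_inf.trans (Finset.inf_le hi)) hj
      exact (P.comap (nrm_psi φ i)).mul_mem_left _ h2
    rw [← Ideal.Quotient.eq, map_mul, map_prod, Finset.prod_range_eq_mul_Ico _ hb.pos, h0,
      Finset.prod_eq_one h1, mul_one, ← map_mul, Ideal.Quotient.eq]
    exact hv

end FGQ
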