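import Mathlib
import Pool.Agent.FGQ.StQ
import Pool.Agent.FG2.PR2
import Pool.Agent.FGE.PRNX
import Pool.Agent.RSF.B
import Pool.Agent.RSF.E

/-!
# Module `PRQ`: the union bound over structures, all fields
-/

set_option autoImplicit false

open RSF

namespace FGQ

open FL0 FGE

/-- the images of the elements of finite order -/
theorem prq_el0 {n : ℕ} {F : Type} [Field F] [Finite F] (k : ℕ)
    (Q : Matrix (Fin n) (Fin n) F → Prop) :
    Nat.card {g : PS n F // g ^ k = 1 ∧ prn_A Q g} ≤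
      Nat.card (Σ β : F, {y : GL (Fin n) F //
        y.1 ^ k = β • (1 : Matrix (Fin n) (Fin n) F) ∧ Q y.1}) := by
  have hfin : Finite (GL (Fin n) F) := SMC.finite_GL
  have key : ∀ g : {g : PS n F // g ^ k = 1 ∧ prn_A Q g}, ∃ (A : SL n F) (β : F),
      mk A = g.1 ∧ (Matrix.SpecialLinearGroup.toGL A).1 ^ k =
        β • (1 : Matrix (Fin n) (Fin n) F) ∧ Q (Matrix.SpecialLinearGroup.toGL A).1 := by
    rintro ⟨g, hg1, hg2⟩
    obtain ⟨A, hA⟩ := QuotientGroup.mk_surjective g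
    have hA' : (mk A : PS n F) = g := hA
    have h1 : A ^ k ∈ Subgroup.center (SL n F) := by
      rw [← FL0.LFH.mk_pow_one, hA', hg1]
    obtain ⟨β, _, hβ⟩ := (SMC.mem_center_iff' _).1 h1
    refine ⟨A, β, hA', ?_, hg2 A hA'⟩
    have h2 : (A ^ k).1 = A.1 ^ k := Matrix.SpecialLinearGroup.coe_pow A k
    rw [h2, Matrix.scalar_apply] at hβ
    rw [Matrix.smul_one_eq_diagonal]
    exact hβ.symm
  choose A β h1 h2 h3 using key
  refine Nat.card_le_card_of_injective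
    (fun g => ⟨β g, Matrix.SpecialLinearGroup.toGL (A g), h2 g, h3 g⟩) ?_
  intro g g' h
  have h4 : (Matrix.SpecialLinearGroup.toGL (A g)).1 =
      (Matrix.SpecialLinearGroup.toGL (A g')).1 :=
    congrArg (fun y : (Σ β : F, {y : GL (Fin n) F //
        y.1 ^ k = β • (1 : Matrix (Fin n) (Fin n) F) ∧ Q y.1}) => y.2.1.1) h
  have h5 : A g = A g' := Subtype.ext h4
  apply Subtype.ext
  rw [← h1 g, ← h1 g', h5]

theorem prq_el {n : ℕ} {F : Type} [Field F] [Finite F] (hn : 1 ≤ n) (k : ℕ)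
    (Q : Matrix (Fin n) (Fin n) F → Prop) (C e : ℝ)
    (hy : ∀ β : F, (Nat.card {y : GL (Fin n) F //
        y.1 ^ k = β • (1 : Matrix (Fin n) (Fin n) F) ∧ Q y.1} : ℝ) ≤ Bd C n F e) :
    (Nat.card {g : PS n F // g ^ k = 1 ∧ prn_A Q g} : ℝ) ≤ Bd (C + 1) n F e := by
  classical
  have hfin : Finite (GL (Fin n) F) := SMC.finite_GL
  let _ : Fintype F := Fintype.ofFinite F
  have h1 := prq_el0 (n := n) (F := F) k Q
  have h2 : (Nat.card (Σ β : F, {y : GL (Fin n) F //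
        y.1 ^ k = β • (1 : Matrix (Fin n) (Fin n) F) ∧ Q y.1}) : ℝ) =
      ∑ β : F, (Nat.card {y : GL (Fin n) F //
        y.1 ^ k = β • (1 : Matrix (Fin n) (Fin n) F) ∧ Q y.1} : ℝ) := by
    rw [Nat.card_sigma]
    push_cast
    rfl
  have hq1 : (1 : ℝ) < Nat.card F := by exact_mod_cast (Finite.one_lt_card : 1 < Nat.card F)
  have hnr : (1 : ℝ) ≤ n := by exact_mod_cast hn
  have h3 : (Nat.card F : ℝ) ≤ Bd 1 n F 0 := by
    unfold Bd
    have h4 : (1 : ℝ) ≤ ((n : ℝ) + 1) ^ (1 * (n : ℝ)) :=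
      Real.one_le_rpow (by linarith) (by linarith)
    have h5 : (Nat.card F : ℝ) ≤ (Nat.card F : ℝ) ^ (1 * (n : ℝ) + 0) := by
      conv_lhs => rw [← Real.rpow_one (Nat.card F : ℝ)]
      exact Real.rpow_le_rpow_of_exponent_le hq1.le (by linarith)
    calc (Nat.card F : ℝ) ≤ (Nat.card F : ℝ) ^ (1 * (n : ℝ) + 0) := h5
      _ ≤ ((n : ℝ) + 1) ^ (1 * (n : ℝ)) * (Nat.card F : ℝ) ^ (1 * (n : ℝ) + 0) :=
        le_mul_of_one_le_left (by positivity) h4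
  calc (Nat.card {g : PS n F // g ^ k = 1 ∧ prn_A Q g} : ℝ)
      ≤ (Nat.card (Σ β : F, {y : GL (Fin n) F //
        y.1 ^ k = β • (1 : Matrix (Fin n) (Fin n) F) ∧ Q y.1}) : ℝ) := by exact_mod_cast h1
    _ = ∑ β : F, (Nat.card {y : GL (Fin n) F //
        y.1 ^ k = β • (1 : Matrix (Fin n) (Fin n) F) ∧ Q y.1} : ℝ) := h2
    _ ≤ ∑ _β : F, Bd C n F e := Finset.sum_le_sum fun β _ => hy β
    _ = Nat.card F * Bd C n F e := by
        rw [Finset.sum_const, Finset.card_univ, nsmul_eq_mul, ← Nat.card_eq_fintype_card]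
    _ ≤ Bd 1 n F 0 * Bd C n F e := mul_le_mul_of_nonneg_right h3 (prn_bd_pos _ _ _ _)
    _ = Bd (C + 1) n F e := by
        rw [prn_bd_mul, zero_add, add_comm 1 C]

/-- the number of the homomorphisms with a structure -/
theorem prq_num {n : ℕ} {F : Type} [Field F] [Finite F] (hn : 1 ≤ n)
    (w : PS n F → PS n F → PS n F) (m : List ℕ) (i : Fin m.length)
    (C μ : ℝ) (I : Type) [Finite I]
    (Q : I → Matrix (Fin n) (Fin n) F → Prop)
    (hI : (Nat.card I : ℝ) ≤ Bd C n F ((1 - μ) * (n : ℝ) ^ 2))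
    (hy : ∀ T, ∀ k ∈ m, ∀ β : F, (Nat.card {y : GL (Fin n) F //
          y.1 ^ k = β • (1 : Matrix (Fin n) (Fin n) F) ∧ Q T y.1} : ℝ) ≤
        Bd C n F (μ * (1 - 1 / (k : ℝ)) * (n : ℝ) ^ 2))
    (ha : ∀ T, (Nat.card {y : GL (Fin n) F // Q T y.1} : ℝ) ≤ Bd C n F (μ * (n : ℝ) ^ 2))
    (X : Type)
    (hX : Nat.card X ≤ Nat.card {t : (Fin m.length → PS n F) × PS n F × PS n F // ∃ T,
          (∀ j, t.1 j ^ m.get j = 1 ∧ prn_A (Q T) (t.1 j)) ∧
            (prn_A (Q T) t.2.1 ∧ prn_A (Q T) t.2.2) ∧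
            (List.ofFn t.1).prod * w t.2.1 t.2.2 = 1}) :
    (Nat.card X : ℝ) ≤ Bd (C + ((Finset.univ.erase i).card * (C + 1) + (C + C))) n F
      ((1 - μ) * (n : ℝ) ^ 2 + (μ * (sig m - (1 - 1 / (m.get i : ℝ))) * (n : ℝ) ^ 2 +
        (μ * (n : ℝ) ^ 2 + μ * (n : ℝ) ^ 2))) := by
  classical
  have hfin : Finite (PS n F) := RSF.B.fin_ps n F
  have hpos : ∀ (D e : ℝ), 0 ≤ Bd D n F e := fun D e => prn_bd_pos D n F e
  have hone : ∀ T : I, (Nat.card {t : (Fin m.length → PS n F) × PS n F × PS n F //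
      (∀ j, t.1 j ^ m.get j = 1 ∧ prn_A (Q T) (t.1 j)) ∧
        (prn_A (Q T) t.2.1 ∧ prn_A (Q T) t.2.2) ∧
        (List.ofFn t.1).prod * w t.2.1 t.2.2 = 1} : ℝ) ≤
      (∏ j ∈ Finset.univ.erase i, Bd (C + 1) n F (μ * (1 - 1 / (m.get j : ℝ)) * (n : ℝ) ^ 2)) *
        (Bd C n F (μ * (n : ℝ) ^ 2) * Bd C n F (μ * (n : ℝ) ^ 2)) := by
    intro T
    have h1 := FG2.pr2_tup (G := PS n F) w i (fun j g => g ^ m.get j = 1 ∧ prn_A (Q T) g)
      (prn_A (Q T))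
    have h2 : (Nat.card {t : (Fin m.length → PS n F) × PS n F × PS n F //
        (∀ j, t.1 j ^ m.get j = 1 ∧ prn_A (Q T) (t.1 j)) ∧
          (prn_A (Q T) t.2.1 ∧ prn_A (Q T) t.2.2) ∧
          (List.ofFn t.1).prod * w t.2.1 t.2.2 = 1} : ℝ) ≤
        (∏ j ∈ Finset.univ.erase i,
          (Nat.card {g : PS n F // g ^ m.get j = 1 ∧ prn_A (Q T) g} : ℝ)) *
          ((Nat.card {g : PS n F // prn_A (Q T) g} : ℝ) *
            (Nat.card {g : PS n F // prn_A (Q T) g} : ℝ)) := by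
      exact_mod_cast h1
    refine h2.trans ?_
    have h5 : (Nat.card {g : PS n F // prn_A (Q T) g} : ℝ) ≤ Bd C n F (μ * (n : ℝ) ^ 2) := by
      have h3 := prn_el2 (n := n) (F := F) (Q T)
      have h4 : (Nat.card {g : PS n F // prn_A (Q T) g} : ℝ) ≤
          Nat.card {y : GL (Fin n) F // Q T y.1} := by exact_mod_cast h3
      exact h4.trans (ha T)
    refine mul_le_mul ?_ (mul_le_mul h5 h5 (Nat.cast_nonneg _) (hpos _ _))
      (mul_nonneg (Nat.cast_nonneg _) (Nat.cast_nonneg _))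
      (Finset.prod_nonneg fun j _ => hpos _ _)
    refine Finset.prod_le_prod (fun j _ => Nat.cast_nonneg _) fun j _ => ?_
    have hmj := List.get_mem m j
    exact prq_el hn (m.get j) (Q T) C _ (hy T _ hmj)
  have h3 := prn_un (I := I) (T := (Fin m.length → PS n F) × PS n F × PS n F)
    (fun T t => (∀ j, t.1 j ^ m.get j = 1 ∧ prn_A (Q T) (t.1 j)) ∧
          (prn_A (Q T) t.2.1 ∧ prn_A (Q T) t.2.2) ∧
          (List.ofFn t.1).prod * w t.2.1 t.2.2 = 1) _ hone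
  have hsum : ∑ j ∈ Finset.univ.erase i, μ * (1 - 1 / (m.get j : ℝ)) * (n : ℝ) ^ 2 =
      μ * (sig m - (1 - 1 / (m.get i : ℝ))) * (n : ℝ) ^ 2 := by
    rw [← Finset.sum_mul, ← Finset.mul_sum, prn_sum]
  have hnum : (Nat.card X : ℝ) ≤ Nat.card I * ((∏ j ∈ Finset.univ.erase i,
        Bd (C + 1) n F (μ * (1 - 1 / (m.get j : ℝ)) * (n : ℝ) ^ 2)) *
        (Bd C n F (μ * (n : ℝ) ^ 2) * Bd C n F (μ * (n : ℝ) ^ 2))) :=
    le_trans (by exact_mod_cast hX) h3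
  rw [prn_bd_prod, hsum, prn_bd_mul C C, prn_bd_mul] at hnum
  refine hnum.trans ?_
  refine (mul_le_mul_of_nonneg_right hI (hpos _ _)).trans (le_of_eq ?_)
  rw [prn_bd_mul]

theorem t_PRQ : M_PRQ := by
  classical
  intro hH2 hLB m hm hex C hC
  obtain ⟨k0, hk0, hk1⟩ := hex
  have hne : m ≠ [] := List.ne_nil_of_mem hk0
  obtain ⟨i, hi⟩ := List.mem_iff_get.1 hk0
  obtain ⟨c₀, hc₀⟩ : ∃ c₀ : ℝ, c₀ = (sig m - 1 / (k0 : ℝ)) / 4 := ⟨_, rfl⟩
  have hc : 0 < c₀ := by rw [hc₀]; linarith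
  obtain ⟨r0, hL⟩ := hLB m hne hm c₀ hc
  obtain ⟨K, hK⟩ : ∃ K : ℝ, K = C + ((Finset.univ.erase i).card * (C + 1) + (C + C)) :=
    ⟨_, rfl⟩
  have hK0 : 0 ≤ K := by rw [hK]; positivity
  obtain ⟨r1, hr1⟩ := prn_abs K 0 c₀ hK0 le_rfl hc
  refine ⟨max r0 (max r1 1), fun n hn F _ _ I _ Q μ hμ0 hμ1 hI hy ha => ?_⟩
  have hn0 : r0 ≤ n := (le_max_left _ _).trans hn
  have hn1 : r1 ≤ n := (le_max_left _ _).trans ((le_max_right _ _).trans hn)
  have hn2 : 1 ≤ n := (le_max_right _ _).trans ((le_max_right _ _).trans hn)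
  have hfin : Finite (PS n F) := RSF.B.fin_ps n F
  obtain ⟨hL1, hL2⟩ := hL n hn0 F
  have hx : 0 ≤ 1 / (k0 : ℝ) := by positivity
  have habs := hr1 n hn1 F
  obtain ⟨hc1, hc2⟩ := hH2 (PS n F) m (fun t a b => ∃ T, (∀ j, prn_A (Q T) (t j)) ∧
    (prn_A (Q T) a ∧ prn_A (Q T) b))
  constructor
  · unfold prob
    refine FG2.pr2_quot K (sig m) (1 / (k0 : ℝ)) μ c₀ _ _ c₀ hx hc₀ hc₀ hk1 hμ0 hμ1 habs ?_ hL1
    have h0 := prq_num hn2 (fun a b => a * b * a⁻¹ * b⁻¹) m i C μ I Q hI hy ha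
      {ρ : OGroup 1 m →* PS n F // ∃ T, All ρ.range (Q T)} (by
      have h1 : Nat.card {ρ : OGroup 1 m →* PS n F // ∃ T, All ρ.range (Q T)} ≤
          Nat.card {ρ : OGroup 1 m →* PS n F //
            (fun (t : Fin m.length → PS n F) (a b : PS n F) => ∃ T, (∀ j, prn_A (Q T) (t j)) ∧
              (prn_A (Q T) a ∧ prn_A (Q T) b))
              (fun j => ρ (ox 1 m j)) (ρ (oa m)) (ρ (ob m))} := by
        have hfinhom : Finite (OGroup 1 m →* PS n F) := RSF.E.finite_ohom 1 m (PS n F)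
        refine Nat.card_le_card_of_injective (fun ρ => ⟨ρ.1, ?_⟩) ?_
        · obtain ⟨T, hT⟩ := ρ.2
          exact ⟨T, fun j => hT _ ⟨_, rfl⟩, hT _ ⟨_, rfl⟩, hT _ ⟨_, rfl⟩⟩
        · intro ρ ρ' h
          simp only [Subtype.mk.injEq] at h
          exact Subtype.ext h
      refine (h1.trans (le_of_eq hc1)).trans ?_
      refine Nat.card_le_card_of_injective (fun t => ⟨t.1, ?_⟩) ?_
      · obtain ⟨h3, ⟨T, h4, h5⟩, h6⟩ := t.2
        exact ⟨T, fun j => ⟨h3 j, h4 j⟩, h5, h6⟩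
      · intro t t' h
        simp only [Subtype.mk.injEq] at h
        exact Subtype.ext h)
    rw [← hK, hi] at h0
    exact h0
  · unfold prob
    refine FG2.pr2_quot K (sig m) (1 / (k0 : ℝ)) μ c₀ _ _ c₀ hx hc₀ hc₀ hk1 hμ0 hμ1 habs ?_ hL2
    have h0 := prq_num hn2 (fun a b => a ^ 2 * b ^ 2) m i C μ I Q hI hy ha
      {ρ : NGroup 2 m →* PS n F // ∃ T, All ρ.range (Q T)} (by
      have h1 : Nat.card {ρ : NGroup 2 m →* PS n F // ∃ T, All ρ.range (Q T)} ≤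
          Nat.card {ρ : NGroup 2 m →* PS n F //
            (fun (t : Fin m.length → PS n F) (a b : PS n F) => ∃ T, (∀ j, prn_A (Q T) (t j)) ∧
              (prn_A (Q T) a ∧ prn_A (Q T) b))
              (fun j => ρ (nx 2 m j)) (ρ (na m 0)) (ρ (na m 1))} := by
        have hfinhom : Finite (NGroup 2 m →* PS n F) := RSF.E.finite_nhom 2 m (PS n F)
        refine Nat.card_le_card_of_injective (fun ρ => ⟨ρ.1, ?_⟩) ?_
        · obtain ⟨T, hT⟩ := ρ.2
          exact ⟨T, fun j => hT _ ⟨_, rfl⟩, hT _ ⟨_, rfl⟩, hT _ ⟨_, rfl⟩⟩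
        · intro ρ ρ' h
          simp only [Subtype.mk.injEq] at h
          exact Subtype.ext h
      refine (h1.trans (le_of_eq hc2)).trans ?_
      refine Nat.card_le_card_of_injective (fun t => ⟨t.1, ?_⟩) ?_
      · obtain ⟨h3, ⟨T, h4, h5⟩, h6⟩ := t.2
        exact ⟨T, fun j => ⟨h3 j, h4 j⟩, h5, h6⟩
      · intro t t' h
        simp only [Subtype.mk.injEq] at h
        exact Subtype.ext h)
    rw [← hK, hi] at h0
    exact h0

end FGQ
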