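import Mathlib
import Pool.Agent.FGQ.StQ
import Pool.Agent.RSF.SUB

/-!
# Module SL1 (MP_5b5212_al): semilinear maps of finite order, Galois descent
-/

set_option autoImplicit false

namespace FGQ

open RSF FL0 FGE Polynomial Module

section sl1

variable {F K V : Type} [Field F] [Field K] [Finite K] [Algebra F K] [AddCommGroup V] [Module F V]
    [Module K V] [IsScalarTower F K V]

/-- Iterates of a semilinear map. -/
theorem sl1_pow (φ : K ≃ₐ[F] K) (y : Module.End F V) (hy : SM φ y) (i : ℕ) (x : K) (v : V) :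
    (y ^ i) (x • v) = ((φ ^ i : K ≃ₐ[F] K) x) • (y ^ i) v := by
  induction i generalizing x v with
  | zero => simp
  | succ i ih =>
    rw [pow_succ', pow_succ', Module.End.mul_apply, ih, hy, Module.End.mul_apply,
      AlgEquiv.mul_apply]

theorem sl1_order (φ : K ≃ₐ[F] K) (b : ℕ) (hb : b.Prime) (hKF : finrank F K = b) (hφ : φ ≠ 1) :
    orderOf φ = b := by
  have : Fact b.Prime := ⟨hb⟩
  have : FiniteDimensional F K := Module.finite_of_finrank_pos (by rw [hKF]; exact hb.pos)
  refine orderOf_eq_prime ?_ hφ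
  have h : Nat.card (K ≃ₐ[F] K) = b := by
    rw [IsGalois.card_aut_eq_finrank, hKF]
  rw [← h]
  exact pow_card_eq_one'

theorem sl1_fix (φ : K ≃ₐ[F] K) (b : ℕ) (hb : b.Prime) (hKF : finrank F K = b) (hφ : φ ≠ 1)
    (x : K) (hx : φ x = x) : ∃ a : F, algebraMap F K a = x := by
  have : Fact b.Prime := ⟨hb⟩
  have : FiniteDimensional F K := Module.finite_of_finrank_pos (by rw [hKF]; exact hb.pos)
  have h : Nat.card (K ≃ₐ[F] K) = b := by
    rw [IsGalois.card_aut_eq_finrank, hKF]
  have htop := zpowers_eq_top_of_prime_card h hφ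
  have hall : ∀ σ : K ≃ₐ[F] K, σ x = x := by
    intro σ
    have hσ : σ ∈ Subgroup.zpowers φ := by rw [htop]; exact Subgroup.mem_top _
    have hle : Subgroup.zpowers φ ≤ MulAction.stabilizer (K ≃ₐ[F] K) x := by
      rw [Subgroup.zpowers_le]
      exact hx
    exact hle hσ
  have := (IsGalois.mem_bot_iff_fixed (F := F) (E := K) x).2 hall
  exact this

/-- Fixed vectors independent over `F` are independent over `K`. -/
theorem sl1_li (φ : K ≃ₐ[F] K) (b : ℕ) (hb : b.Prime) (hKF : finrank F K = b) (hφ : φ ≠ 1)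
    (y : Module.End F V) (hy : SM φ y) (n : ℕ) : ∀ v : Fin n → V, LinearIndependent F v →
      (∀ i, y (v i) = v i) → LinearIndependent K v := by
  induction n with
  | zero => intro v _ _; exact linearIndependent_empty_type
  | succ n ih =>
    intro v hv hfix
    rw [linearIndependent_finSucc] at hv ⊢
    have h1 : LinearIndependent K (Fin.tail v) := ih _ hv.1 (fun i => hfix _)
    refine ⟨h1, fun hmem => hv.2 ?_⟩
    rw [Submodule.mem_span_range_iff_exists_fun] at hmem ⊢
    obtain ⟨c, hc⟩ := hmem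
    have h2 : ∑ i, φ (c i) • Fin.tail v i = v 0 := by
      have := congrArg y hc
      rw [map_sum, hfix 0] at this
      rw [← this]
      refine Finset.sum_congr rfl fun i _ => ?_
      rw [hy]
      congr 1
      exact (hfix _).symm
    have h3 : ∀ i, φ (c i) = c i := by
      have h4 : ∑ i, (φ (c i) - c i) • Fin.tail v i = 0 := by
        simp only [sub_smul, Finset.sum_sub_distrib]
        rw [h2, hc, sub_self]
      intro i
      have := Fintype.linearIndependent_iff.1 h1 _ h4 i
      exact sub_eq_zero.1 this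
    choose a ha using fun i => sl1_fix φ b hb hKF hφ (c i) (h3 i)
    refine ⟨a, ?_⟩
    rw [← hc]
    refine Finset.sum_congr rfl fun i _ => ?_
    rw [← ha i, algebraMap_smul]

/-- The fixed vectors. -/
def sl1_V0 (y : Module.End F V) : Submodule F V := LinearMap.ker (y - 1)

theorem sl1_mem (y : Module.End F V) (v : V) : v ∈ sl1_V0 y ↔ y v = v := by
  unfold sl1_V0
  rw [LinearMap.mem_ker, LinearMap.sub_apply, Module.End.one_apply, sub_eq_zero]

/-- The fixed vectors span the space over `K`. -/
theorem sl1_span (φ : K ≃ₐ[F] K) (b : ℕ) (hb : b.Prime) (hKF : finrank F K = b) (hφ : φ ≠ 1)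
    (y : Module.End F V) (hy : SM φ y) (hyb : y ^ b = 1) :
    Submodule.span K (sl1_V0 y : Set V) = ⊤ := by
  by_contra hne
  obtain ⟨l, hl0, hl⟩ := Submodule.exists_le_ker_of_lt_top _ (lt_top_iff_ne_top.2 hne)
  apply hl0
  ext v
  have hb0 : 0 < b := hb.pos
  have ht : ∀ x : K, ∑ i ∈ Finset.range b, (y ^ i) (x • v) ∈ sl1_V0 y := by
    intro x
    rw [sl1_mem, map_sum]
    have e1 : ∀ i, y ((y ^ i) (x • v)) = (y ^ (i + 1)) (x • v) := by
      intro i
      rw [pow_succ', Module.End.mul_apply]
    rw [Finset.sum_congr rfl fun i _ => e1 i]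
    have e2 := Finset.sum_range_succ (fun i => (y ^ i) (x • v)) b
    have e3 := Finset.sum_range_succ' (fun i => (y ^ i) (x • v)) b
    rw [e2] at e3
    rw [hyb, pow_zero] at e3
    exact (add_right_cancel e3).symm
  have ht0 : ∀ x : K, ∑ i : Fin b, (l ((y ^ i.1) v)) * ((φ ^ i.1 : K ≃ₐ[F] K) x) = 0 := by
    intro x
    have h1 : l (∑ i ∈ Finset.range b, (y ^ i) (x • v)) = 0 :=
      hl (Submodule.subset_span (ht x))
    rw [map_sum] at h1
    rw [Fin.sum_univ_eq_sum_range (fun i => (l ((y ^ i) v)) * ((φ ^ i : K ≃ₐ[F] K) x)) b, ← h1]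
    refine Finset.sum_congr rfl fun i _ => ?_
    rw [sl1_pow φ y hy, map_smul, smul_eq_mul, mul_comm]
  have hinj : Function.Injective (fun i : Fin b =>
      (((φ ^ i.1 : K ≃ₐ[F] K) : K →+* K) : K →* K)) := by
    intro i j hij
    have h1 : (φ ^ i.1 : K ≃ₐ[F] K) = φ ^ j.1 := by
      ext x
      exact DFunLike.congr_fun hij x
    have ho := sl1_order φ b hb hKF hφ
    have := pow_injOn_Iio_orderOf (x := φ) (show i.1 ∈ Set.Iio (orderOf φ) by
      rw [ho]; exact i.2) (show j.1 ∈ Set.Iio (orderOf φ) by rw [ho]; exact j.2) h1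
    exact Fin.ext this
  have hli := (linearIndependent_monoidHom K K).comp _ hinj
  have h2 := Fintype.linearIndependent_iff.1 hli (fun i => l ((y ^ i.1) v)) (by
    funext x
    have := ht0 x
    simpa [Finset.sum_apply] using this) ⟨0, hb0⟩
  simpa using h2

theorem sl1_finrank [FiniteDimensional K V] (φ : K ≃ₐ[F] K) (b : ℕ) (hb : b.Prime)
    (hKF : finrank F K = b) (hφ : φ ≠ 1)
    (y : Module.End F V) (hy : SM φ y) (hyb : y ^ b = 1) :
    finrank F (sl1_V0 y) = finrank K V := by
  have : FiniteDimensional F K := Module.finite_of_finrank_pos (by rw [hKF]; exact hb.pos)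
  have : FiniteDimensional F V := Module.Finite.trans K V
  have B := Module.finBasis F (sl1_V0 y)
  have hBF : LinearIndependent F (fun i => (B i : V)) :=
    B.linearIndependent.map' (Submodule.subtype _) (Submodule.ker_subtype _)
  have hBK : LinearIndependent K (fun i => (B i : V)) :=
    sl1_li φ b hb hKF hφ y hy _ _ hBF (fun i => (sl1_mem y _).1 (B i).2)
  apply le_antisymm
  · have := hBK.fintype_card_le_finrank
    rwa [Fintype.card_fin] at this
  · have h1 : Submodule.span K (Set.range fun i => (B i : V)) = ⊤ := by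
      rw [eq_top_iff, ← sl1_span φ b hb hKF hφ y hy hyb, Submodule.span_le]
      intro v hv
      have h2 : (⟨v, hv⟩ : sl1_V0 y) ∈ Submodule.span F (Set.range B) := by
        rw [B.span_eq]; exact Submodule.mem_top
      rw [Submodule.mem_span_range_iff_exists_fun] at h2
      obtain ⟨c, hc⟩ := h2
      have h3 : ∑ i, c i • (B i : V) = v := by
        have := congrArg (Submodule.subtype (sl1_V0 y)) hc
        simpa using this
      rw [SetLike.mem_coe, ← h3]
      refine Submodule.sum_mem _ fun i _ => ?_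
      rw [← algebraMap_smul K (c i) (B i : V)]
      exact Submodule.smul_mem _ _ (Submodule.subset_span ⟨i, rfl⟩)
    have := finrank_le_of_span_eq_top h1
    rwa [Fintype.card_fin] at this

/-- The number of the bases of the space of fixed vectors. -/
theorem sl1_bases [Finite F] [FiniteDimensional K V] (φ : K ≃ₐ[F] K) (b : ℕ) (hb : b.Prime)
    (hKF : finrank F K = b) (hφ : φ ≠ 1)
    (y : Module.End F V) (hy : SM φ y) (hyb : y ^ b = 1) :
    Nat.card {v : Fin (finrank K V) → V // LinearIndependent F v ∧ ∀ i, y (v i) = v i} =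
      ∏ i : Fin (finrank K V), (Nat.card F ^ (finrank K V) - Nat.card F ^ i.val) := by
  classical
  have : Fintype F := Fintype.ofFinite F
  have : Finite V := Module.finite_of_finite K
  have hr := sl1_finrank φ b hb hKF hφ y hy hyb
  have h := card_linearIndependent (K := F) (V := sl1_V0 y) (k := finrank K V) (le_of_eq hr.symm)
  rw [hr] at h
  rw [Nat.card_eq_fintype_card (α := F), ← h]
  refine Nat.card_congr
    { toFun := fun s => ⟨fun i => ⟨s.1 i, (sl1_mem y _).2 (s.2.2 i)⟩,
        LinearIndependent.of_comp (Submodule.subtype _) (by exact s.2.1)⟩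
      invFun := fun t => ⟨fun i => (t.1 i : V),
        t.2.map' (Submodule.subtype _) (Submodule.ker_subtype _),
        fun i => (sl1_mem y _).1 (t.1 i).2⟩
      left_inv := fun s => rfl
      right_inv := fun t => rfl }

/-- The matrix over `F` of the commuting endomorphism. -/
theorem sl1_mat [FiniteDimensional K V] (φ : K ≃ₐ[F] K) (b : ℕ) (hb : b.Prime)
    (hKF : finrank F K = b) (hφ : φ ≠ 1)
    (y z : Module.End F V) (hy : SM φ y) (hyb : y ^ b = 1) (hyz : y * z = z * y)
    (v : Fin (finrank K V) → V) (hv : LinearIndependent F v) (hfix : ∀ i, y (v i) = v i) :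
    ∃ A : Module.End F (Fin (finrank K V) → F), ∀ c : Fin (finrank K V) → F,
      Fintype.linearCombination F v (A c) = z (Fintype.linearCombination F v c) := by
  have : FiniteDimensional F K := Module.finite_of_finrank_pos (by rw [hKF]; exact hb.pos)
  have : FiniteDimensional F V := Module.Finite.trans K V
  have hinj : Function.Injective (Fintype.linearCombination F v) :=
    linearIndependent_iff_injective_fintypeLinearCombination.1 hv
  have hspan : Submodule.span F (Set.range v) = sl1_V0 y := by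
    apply Submodule.eq_of_le_of_finrank_eq
    · rw [Submodule.span_le]
      rintro _ ⟨i, rfl⟩
      exact (sl1_mem y _).2 (hfix i)
    · rw [finrank_span_eq_card hv, Fintype.card_fin, sl1_finrank φ b hb hKF hφ y hy hyb]
  have hrange : LinearMap.range (Fintype.linearCombination F v) = sl1_V0 y := by
    rw [Fintype.range_linearCombination, hspan]
  have hz : ∀ w ∈ sl1_V0 y, z w ∈ sl1_V0 y := by
    intro w hw
    rw [sl1_mem] at hw ⊢
    rw [← Module.End.mul_apply, hyz, Module.End.mul_apply, hw]
  let e := LinearEquiv.ofInjective (Fintype.linearCombination F v) hinj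
  let g : (Fin (finrank K V) → F) →ₗ[F] LinearMap.range (Fintype.linearCombination F v) :=
    LinearMap.codRestrict _ (z.comp (Fintype.linearCombination F v)) (by
      intro c
      rw [hrange]
      apply hz
      rw [← hrange]
      exact ⟨c, rfl⟩)
  refine ⟨e.symm.toLinearMap.comp g, fun c => ?_⟩
  have h1 := e.apply_symm_apply (g c)
  exact congrArg Subtype.val h1

theorem sl1_aeval {W : Type} [AddCommGroup W] [Module F W] (i : W →ₗ[F] V) (A : Module.End F W)
    (z : Module.End F V) (h : ∀ c, i (A c) = z (i c)) (f : F[X]) :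
    ∀ c, i ((aeval A f : Module.End F W) c) = (aeval z f : Module.End F V) (i c) := by
  have hpow : ∀ n c, i ((A ^ n) c) = (z ^ n) (i c) := by
    intro n
    induction n with
    | zero => intro c; simp
    | succ n ih =>
      intro c
      rw [pow_succ', pow_succ', Module.End.mul_apply, Module.End.mul_apply, h, ih]
  induction f using Polynomial.induction_on' with
  | add p q hp hq =>
    intro c
    rw [map_add, map_add, LinearMap.add_apply, LinearMap.add_apply, map_add, hp, hq]
  | monomial n a =>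
    intro c
    rw [aeval_monomial, aeval_monomial, Module.End.mul_apply, Module.End.mul_apply,
      Module.algebraMap_end_apply, Module.algebraMap_end_apply, map_smul, hpow]

omit [Finite K] [IsScalarTower F K V] in
theorem sl1_ext (φ : K ≃ₐ[F] K) (y y' : Module.End F V) (hy : SM φ y) (hy' : SM φ y') {n : ℕ}
    (v : Fin n → V) (hv : Submodule.span K (Set.range v) = ⊤) (h : ∀ i, y (v i) = y' (v i)) :
    y = y' := by
  ext w
  have hw : w ∈ Submodule.span K (Set.range v) := by rw [hv]; exact Submodule.mem_top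
  rw [Submodule.mem_span_range_iff_exists_fun] at hw
  obtain ⟨c, rfl⟩ := hw
  rw [map_sum, map_sum]
  refine Finset.sum_congr rfl fun i _ => ?_
  rw [hy, hy', h]

end sl1

theorem t_SL1 : M_SL1 := by
  intro hPI hIA F K V _ _ _ _ _ _ _ _ _ φ b hb hKF hφ f hfm hfi
  classical
  have : Finite F := Finite.of_injective (algebraMap F K) (algebraMap F K).injective
  have : FiniteDimensional F K := Module.finite_of_finrank_pos (by rw [hKF]; exact hb.pos)
  have : Finite V := Module.finite_of_finite K
  have hfinE : Finite (Module.End F V) :=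
    Finite.of_injective (fun g : Module.End F V => (g : V → V)) DFunLike.coe_injective
  set m := finrank K V with hm
  set q := Nat.card F with hq
  have hq2 : 2 ≤ q := Finite.one_lt_card
  let P : Type := {p : Module.End F V × Module.End F V // SM φ p.1 ∧ p.1 ^ b = 1 ∧
        (∀ (x : K) (v : V), p.2 (x • v) = x • p.2 v) ∧ p.1 * p.2 = p.2 * p.1 ∧
        aeval p.2 f = 0}
  let B : P → Type := fun p =>
    {v : Fin m → V // LinearIndependent F v ∧ ∀ i, p.1.1 (v i) = v i}
  have : Fintype P := Fintype.ofFinite _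
  have hB : ∀ p : P, Nat.card (B p) = ∏ i : Fin m, (q ^ m - q ^ i.val) := fun p =>
    sl1_bases φ b hb hKF hφ p.1.1 p.2.1 p.2.2.1
  have hcard : Nat.card (Sigma B) = Nat.card P * ∏ i : Fin m, (q ^ m - q ^ i.val) := by
    rw [Nat.card_sigma, Finset.sum_congr rfl fun p _ => hB p, Finset.sum_const, smul_eq_mul,
      Finset.card_univ, ← Nat.card_eq_fintype_card]
  -- the matrices
  have hA : ∀ s : Sigma B, ∃ A : {A : Module.End F (Fin m → F) // aeval A f = 0},
      ∀ c : Fin m → F, Fintype.linearCombination F s.2.1 (A.1 c) =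
        s.1.1.2 (Fintype.linearCombination F s.2.1 c) := by
    intro s
    obtain ⟨p, v, hv, hfix⟩ := s
    obtain ⟨A, hA⟩ := sl1_mat φ b hb hKF hφ p.1.1 p.1.2 p.2.1 p.2.2.1 p.2.2.2.2.1 v hv hfix
    refine ⟨⟨A, ?_⟩, hA⟩
    have hinj : Function.Injective (Fintype.linearCombination F v) :=
      linearIndependent_iff_injective_fintypeLinearCombination.1 hv
    apply LinearMap.ext
    intro c
    apply hinj
    rw [sl1_aeval _ A p.1.2 hA f c, p.2.2.2.2.2, LinearMap.zero_apply, LinearMap.zero_apply,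
      map_zero]
  choose A hA using hA
  let G : Sigma B → (Fin m → V) × {A : Module.End F (Fin m → F) // aeval A f = 0} :=
    fun s => (s.2.1, A s)
  have hG : Function.Injective G := by
    intro s s' hss
    have h1 : s.2.1 = s'.2.1 := congrArg Prod.fst hss
    have h2 : A s = A s' := congrArg Prod.snd hss
    have hAs := hA s
    have hAs' := hA s'
    rw [← h2] at hAs'
    obtain ⟨p, v, hv, hfix⟩ := s
    obtain ⟨p', v', hv', hfix'⟩ := s'
    have h1' : v = v' := h1
    subst h1'
    have hK : LinearIndependent K v := sl1_li φ b hb hKF hφ p.1.1 p.2.1 _ _ hv hfix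
    have htop : Submodule.span K (Set.range v) = ⊤ := by
      apply Submodule.eq_top_of_finrank_eq
      rw [finrank_span_eq_card hK, Fintype.card_fin]
    have hy : p.1.1 = p'.1.1 := sl1_ext φ _ _ p.2.1 p'.2.1 v htop fun i => by
      rw [hfix i, hfix' i]
    have hz : p.1.2 = p'.1.2 := by
      refine sl1_ext (1 : K ≃ₐ[F] K) _ _ p.2.2.2.1 p'.2.2.2.1 v htop fun i => ?_
      have h3 := hAs (Pi.single i 1)
      have h4 := hAs' (Pi.single i 1)
      have h5 : Fintype.linearCombination F v (Pi.single i 1) = v i := by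
        rw [Fintype.linearCombination_apply_single, one_smul]
      rw [h5] at h3
      rw [h5] at h4
      exact h3.symm.trans h4
    have hp : p = p' := Subtype.ext (Prod.ext hy hz)
    subst hp
    rfl
  have hle : Nat.card (Sigma B) ≤
      Nat.card ((Fin m → V) × {A : Module.End F (Fin m → F) // aeval A f = 0}) := by
    have : Finite (Module.End F (Fin m → F)) := Finite.of_injective
      (fun g : Module.End F (Fin m → F) => (g : (Fin m → F) → (Fin m → F))) DFunLike.coe_injective
    exact Nat.card_le_card_of_injective G hG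
  rw [hcard, Nat.card_prod, Nat.card_fun, Nat.card_fin,
    Module.natCard_eq_pow_finrank (K := K) (V := V),
    Module.natCard_eq_pow_finrank (K := F) (V := K), hKF, ← hm, ← hq] at hle
  have hI := hIA F (Fin m → F) f hfm hfi
  rw [finrank_fin_fun] at hI
  have hup := SUB.up hPI (q := q) (k := m) hq2
  -- the final computation
  set N := Nat.card P with hN
  set Q := ∏ i : Fin m, (q ^ m - q ^ i.val) with hQ
  set I := Nat.card {A : Module.End F (Fin m → F) // aeval A f = 0} with hI'
  have hq0 : (0 : ℝ) < (q : ℝ) := by exact_mod_cast (by omega : 0 < q)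
  have h1 : (N : ℝ) * Q ≤ ((q : ℝ) ^ ((b : ℝ) * (m : ℝ) ^ 2)) * I := by
    have h2 : ((N * Q : ℕ) : ℝ) ≤ ((((q ^ b) ^ m) ^ m * I : ℕ) : ℝ) := by exact_mod_cast hle
    have h3 : ((q : ℝ) ^ ((b : ℝ) * (m : ℝ) ^ 2)) = ((q ^ b) ^ m) ^ m := by
      have h4 : (q : ℝ) ^ ((b : ℝ) * (m : ℝ) ^ 2) = (q : ℝ) ^ ((b * m * m : ℕ) : ℝ) := by
        congr 1
        push_cast
        ring
      rw [h4, Real.rpow_natCast, pow_mul, pow_mul]
    rw [h3]
    push_cast at h2
    exact h2
  have h2 : (q : ℝ) ^ ((m : ℝ) ^ 2) ≤ 4 * Q := by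
    have h3 : ((q ^ (m * m) : ℕ) : ℝ) ≤ ((4 * Q : ℕ) : ℝ) := by exact_mod_cast hup
    have h4 : (q : ℝ) ^ ((m : ℝ) ^ 2) = ((q ^ (m * m) : ℕ) : ℝ) := by
      have h5 : (q : ℝ) ^ ((m : ℝ) ^ 2) = (q : ℝ) ^ ((m * m : ℕ) : ℝ) := by
        congr 1
        push_cast
        ring
      rw [h5, Real.rpow_natCast]
      push_cast
      rfl
    rw [h4]
    push_cast at h3 ⊢
    exact h3
  have hpos : (0 : ℝ) < (q : ℝ) ^ ((m : ℝ) ^ 2) := Real.rpow_pos_of_pos hq0 _
  show (N : ℝ) ≤ 4 * (q : ℝ) ^ ((b : ℝ) * (m : ℝ) ^ 2 - (m : ℝ) ^ 2 / (f.natDegree : ℝ))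
  have h5 : (q : ℝ) ^ ((b : ℝ) * (m : ℝ) ^ 2 - (m : ℝ) ^ 2 / (f.natDegree : ℝ)) *
      (q : ℝ) ^ ((m : ℝ) ^ 2) = (q : ℝ) ^ ((b : ℝ) * (m : ℝ) ^ 2) *
        (q : ℝ) ^ ((m : ℝ) ^ 2 * (1 - 1 / (f.natDegree : ℝ))) := by
    rw [← Real.rpow_add hq0, ← Real.rpow_add hq0]
    congr 1
    ring
  refine le_of_mul_le_mul_right ?_ hpos
  rw [mul_assoc, h5]
  have hN0 : (0 : ℝ) ≤ N := Nat.cast_nonneg _
  calc (N : ℝ) * (q : ℝ) ^ ((m : ℝ) ^ 2) ≤ N * (4 * Q) := mul_le_mul_of_nonneg_left h2 hN0
    _ = 4 * (N * Q) := by ring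
    _ ≤ 4 * (((q : ℝ) ^ ((b : ℝ) * (m : ℝ) ^ 2)) * I) :=
        mul_le_mul_of_nonneg_left h1 (by norm_num)
    _ ≤ 4 * (((q : ℝ) ^ ((b : ℝ) * (m : ℝ) ^ 2)) *
        (q : ℝ) ^ ((m : ℝ) ^ 2 * (1 - 1 / (f.natDegree : ℝ)))) := by
        refine mul_le_mul_of_nonneg_left ?_ (by norm_num)
        exact mul_le_mul_of_nonneg_left hI (Real.rpow_pos_of_pos hq0 _).le

end FGQ
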