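import Mathlib
import Pool.Agent.FGQ.StQ

/-!
# FGQ, module SLB: semilinear maps `y` with `f (y ^ b) = 0`, `f` irreducible

Reduction to semilinear maps of order dividing `b` (Hilbert 90, `S_NRM`).
-/

set_option autoImplicit false

namespace FGQ

open RSF FL0 FGE Polynomial

noncomputable section

section slb

variable {F K V : Type} [Field F] [Field K] [Algebra F K] [AddCommGroup V] [Module F V] [Module K V]

/-- powers of semilinear maps -/
theorem slb_pow (φ : K ≃ₐ[F] K) (y : Module.End F V) (hy : SM φ y) (i : ℕ) (x : K) (v : V) :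
    (y ^ i) (x • v) = (φ ^ i) x • (y ^ i) v := by
  induction i generalizing x v with
  | zero => simp
  | succ i ih =>
    rw [pow_succ, Module.End.mul_apply, hy, ih, pow_succ, Module.End.mul_apply]
    rfl

/-- the order of an automorphism divides the degree -/
theorem slb_one [Finite K] (φ : K ≃ₐ[F] K) (b : ℕ) (hb : Module.finrank F K = b) : φ ^ b = 1 := by
  have : Finite F := Finite.of_injective _ (algebraMap F K).injective
  have : FiniteDimensional F K := Module.Finite.of_finite
  have h := IsGalois.card_aut_eq_finrank F K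
  rw [← hb, ← h]
  exact pow_card_eq_one'

/-- a `K`-linear endomorphism as such -/
def slb_lift (z : Module.End F V) (hz : ∀ (x : K) (v : V), z (x • v) = x • z v) :
    Module.End K V where
  toFun := z
  map_add' := map_add z
  map_smul' := hz

omit [Algebra F K] in
theorem slb_lift_pow (z : Module.End F V) (hz : ∀ (x : K) (v : V), z (x • v) = x • z v) (i : ℕ)
    (v : V) : ((slb_lift z hz) ^ i) v = (z ^ i) v := by
  induction i generalizing v with
  | zero => simp
  | succ i ih =>
    rw [pow_succ, pow_succ, Module.End.mul_apply, Module.End.mul_apply, ih]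
    rfl

theorem slb_aeval [IsScalarTower F K V] (z : Module.End F V)
    (hz : ∀ (x : K) (v : V), z (x • v) = x • z v) (f : F[X]) (v : V) :
    (aeval (slb_lift z hz) (f.map (algebraMap F K))) v = (aeval z f) v := by
  induction f using Polynomial.induction_on' with
  | add p q hp hq =>
    rw [Polynomial.map_add, map_add, map_add, LinearMap.add_apply, LinearMap.add_apply, hp, hq]
  | monomial n a =>
    rw [Polynomial.map_monomial, aeval_monomial, aeval_monomial, Module.End.mul_apply,
      Module.End.mul_apply, slb_lift_pow, Module.algebraMap_end_apply, Module.algebraMap_end_apply,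
      algebraMap_smul]

/-- a semilinear map and polynomials of a `K`-linear map commuting with it -/
theorem slb_comm (z : Module.End F V) (hz : ∀ (x : K) (v : V), z (x • v) = x • z v)
    (ψ : K ≃ₐ[F] K) (u : Module.End F V) (hu : SM ψ u) (huz : u * z = z * u) (s : K[X]) (v : V) :
    u ((aeval (slb_lift z hz) s) v) =
      (aeval (slb_lift z hz) (s.map (ψ : K →+* K))) (u v) := by
  induction s using Polynomial.induction_on' with
  | add p q hp hq => simp [hp, hq]
  | monomial n a =>
    have h : u * z ^ n = z ^ n * u := (Commute.pow_right (show Commute u z from huz) n)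
    have h' := congrArg (fun w : Module.End F V => w v) h
    simp only [Module.End.mul_apply] at h'
    rw [Polynomial.map_monomial, aeval_monomial, aeval_monomial, Module.End.mul_apply,
      Module.End.mul_apply, slb_lift_pow, slb_lift_pow, Module.algebraMap_end_apply,
      Module.algebraMap_end_apply, hu, h']
    rfl

/-- `y₀ = s(z) y` -/
def slb_y0 [IsScalarTower F K V] (z : Module.End F V)
    (hz : ∀ (x : K) (v : V), z (x • v) = x • z v) (s : K[X]) (y : Module.End F V) :
    Module.End F V :=
  ((aeval (slb_lift z hz) s : Module.End K V).restrictScalars F) * y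

theorem slb_y0_apply [IsScalarTower F K V] (z : Module.End F V)
    (hz : ∀ (x : K) (v : V), z (x • v) = x • z v) (s : K[X]) (y : Module.End F V) (v : V) :
    slb_y0 z hz s y v = (aeval (slb_lift z hz) s) (y v) := rfl

theorem slb_y0_pow [IsScalarTower F K V] (z : Module.End F V)
    (hz : ∀ (x : K) (v : V), z (x • v) = x • z v) (s : K[X]) (φ : K ≃ₐ[F] K) (y : Module.End F V)
    (hy : SM φ y) (hyz : y * z = z * y) (i : ℕ) (v : V) :
    (slb_y0 z hz s y ^ i) v = (aeval (slb_lift z hz)
      (∏ j ∈ Finset.range i, s.map ((φ ^ j : K ≃ₐ[F] K) : K →+* K))) ((y ^ i) v) := by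
  induction i generalizing v with
  | zero => simp
  | succ i ih =>
    have h : (y ^ i) * z = z * y ^ i := (Commute.pow_left (show Commute y z from hyz) i)
    have h' := slb_comm z hz (φ ^ i) (y ^ i) (slb_pow φ y hy i) h s (y v)
    rw [pow_succ, Module.End.mul_apply, ih, slb_y0_apply, h', Finset.prod_range_succ, map_mul,
      Module.End.mul_apply, pow_succ, Module.End.mul_apply]

end slb

theorem t_SLB : M_SLB := by
  intro hN h1 F K V _ _ _ _ _ _ _ _ _ φ b hb hF hφ f hfm hfi hfX
  obtain ⟨s, t, ht⟩ := hN F K φ b hb hF hφ f hfm hfi hfX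
  refine le_trans ?_ (h1 F K V φ b hb hF hφ f hfm hfi)
  have hone := slb_one φ b hF
  -- `z = y ^ b` is `K`-linear
  have hz : ∀ y : Module.End F V, SM φ y → ∀ (x : K) (v : V), (y ^ b) (x • v) = x • (y ^ b) v := by
    intro y hy x v
    rw [slb_pow φ y hy, hone]
    rfl
  set P : ℕ → K[X] := fun i => ∏ j ∈ Finset.range i, s.map ((φ ^ j : K ≃ₐ[F] K) : K →+* K) with hP
  -- the product formula
  have hprod : ∀ (y : Module.End F V) (hy : SM φ y), aeval (y ^ b) f = 0 → ∀ v : V,
      (aeval (slb_lift (y ^ b) (hz y hy)) (X * P b)) v = v := by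
    intro y hy hf v
    have h2 : X * P b = t * f.map (algebraMap F K) + 1 := by
      rw [mul_comm t, ← ht]; simp [hP]
    rw [h2, map_add, map_mul, LinearMap.add_apply, Module.End.mul_apply, slb_aeval, hf]
    simp
  -- `y₀ ^ b = 1`
  have hy0 : ∀ (y : Module.End F V) (hy : SM φ y), aeval (y ^ b) f = 0 →
      slb_y0 (y ^ b) (hz y hy) s y ^ b = 1 := by
    intro y hy hf
    ext v
    rw [slb_y0_pow (y ^ b) (hz y hy) s φ y hy (by rw [← pow_succ, ← pow_succ'])]
    have h3 := hprod y hy hf v
    rw [mul_comm, map_mul, Module.End.mul_apply, aeval_X] at h3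
    exact h3
  -- the inverse of `s(z)`
  obtain ⟨b', rfl⟩ : ∃ b', b = b' + 1 := ⟨b - 1, by have := hb.pos; omega⟩
  set T : K[X] := X * ∏ j ∈ Finset.range b', s.map ((φ ^ (j + 1) : K ≃ₐ[F] K) : K →+* K) with hT
  have hTP : X * P (b' + 1) = T * s := by
    simp only [hP, hT]
    rw [Finset.prod_range_succ', mul_assoc]
    congr 2
    have h0 : ((φ ^ 0 : K ≃ₐ[F] K) : K →+* K) = RingHom.id K := by ext x; simp
    rw [h0, Polynomial.map_id]
  have hinv : ∀ (y : Module.End F V) (hy : SM φ y), aeval (y ^ (b' + 1)) f = 0 → ∀ v : V,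
      (aeval (slb_lift (y ^ (b' + 1)) (hz y hy)) T) (slb_y0 (y ^ (b' + 1)) (hz y hy) s y v) =
        y v := by
    intro y hy hf v
    have h3 := hprod y hy hf (y v)
    rw [hTP, map_mul, Module.End.mul_apply] at h3
    exact h3
  have hfin : Finite V := Module.finite_of_finite K
  have hfE : Finite (Module.End F V) := Finite.of_injective (fun y : Module.End F V => (y : V → V))
    DFunLike.coe_injective
  rw [Nat.cast_le]
  refine Nat.card_le_card_of_injective (fun y => ⟨(slb_y0 (y.1 ^ (b' + 1)) (hz y.1 y.2.1) s y.1,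
    y.1 ^ (b' + 1)), ?_, hy0 y.1 y.2.1 y.2.2, hz y.1 y.2.1, ?_, y.2.2⟩) ?_
  · intro x v
    rw [slb_y0_apply, slb_y0_apply, y.2.1, map_smul]
  · have h4 : y.1 * y.1 ^ (b' + 1) = y.1 ^ (b' + 1) * y.1 := by rw [← pow_succ, ← pow_succ']
    ext v
    rw [Module.End.mul_apply, Module.End.mul_apply, slb_y0_apply, slb_y0_apply]
    have h5 := congrArg (fun w : Module.End F V => w v) h4
    simp only [Module.End.mul_apply] at h5
    rw [h5]
    have h6 := slb_comm (y.1 ^ (b' + 1)) (hz y.1 y.2.1) 1 (y.1 ^ (b' + 1)) (hz y.1 y.2.1) rfl s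
      (y.1 v)
    have h0 : ((1 : K ≃ₐ[F] K) : K →+* K) = RingHom.id K := by ext x; simp
    rw [h0, Polynomial.map_id] at h6
    exact h6.symm
  · intro y y' h
    have h7 := congrArg (fun w => w.1) h
    simp only [Prod.mk.injEq] at h7
    obtain ⟨h8, h9⟩ := h7
    apply Subtype.ext
    ext v
    rw [← hinv y.1 y.2.1 y.2.2, ← hinv y'.1 y'.2.1 y'.2.2]
    have h10 : slb_lift (y.1 ^ (b' + 1)) (hz y.1 y.2.1) =
        slb_lift (y'.1 ^ (b' + 1)) (hz y'.1 y'.2.1) := by
      ext w
      exact congrArg (fun u : Module.End F V => u w) h9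
    rw [h8, h10]

end

end FGQ
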