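import Mathlib
import Pool.Agent.FGQ.StQ
import Pool.Agent.RSF.XA
import Pool.Agent.RSF.TS

/-!
# Module `SQG`: the weighted count of the endomorphisms killed by a polynomial
-/

set_option autoImplicit false

namespace FGQ

open RSF FL0 FGE Polynomial

noncomputable section

/-- the sum of the weights is bounded by the sum over the fibres of a relation -/
theorem sqg_fib {α β : Type} [Finite α] [Finite β] (P : α → Prop) (Q : β → Prop)
    (R : α → β → Prop) (hR : ∀ a, P a → ∃ b, Q b ∧ R a b) (w : α → ℝ) (hw : ∀ a, 0 ≤ w a)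
    (v : β → ℝ) (M : ℝ)
    (h : ∀ b, Q b → ∑ᶠ a : {a // P a ∧ R a b}, w a.1 ≤ v b * M) :
    ∑ᶠ a : {a // P a}, w a.1 ≤ (∑ᶠ b : {b // Q b}, v b.1) * M := by
  classical
  have := Fintype.ofFinite {a // P a}
  have := Fintype.ofFinite {b // Q b}
  have : ∀ b, Fintype {a // P a ∧ R a b} := fun b => Fintype.ofFinite _
  rw [finsum_eq_sum_of_fintype, finsum_eq_sum_of_fintype, Finset.sum_mul]
  choose φ hφ using hR
  let ψ : {a // P a} → Σ b : {b // Q b}, {a // P a ∧ R a b.1} := fun a =>
    ⟨⟨φ a.1 a.2, (hφ a.1 a.2).1⟩, ⟨a.1, a.2, (hφ a.1 a.2).2⟩⟩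
  have hψ : Function.Injective ψ := by
    intro a b hab
    have h1 : ((ψ a).2).1 = ((ψ b).2).1 := by rw [hab]
    exact Subtype.ext h1
  calc ∑ a : {a // P a}, w a.1
      = ∑ x ∈ Finset.univ.image ψ, w x.2.1 := by
        rw [Finset.sum_image (fun a _ b _ hab => hψ hab)]
    _ ≤ ∑ x : (Σ b : {b // Q b}, {a // P a ∧ R a b.1}), w x.2.1 :=
        Finset.sum_le_univ_sum_of_nonneg fun x => hw _
    _ = ∑ b : {b // Q b}, ∑ a : {a // P a ∧ R a b.1}, w a.1 := Fintype.sum_sigma _
    _ ≤ ∑ b : {b // Q b}, v b.1 * M := by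
        refine Finset.sum_le_sum fun b _ => ?_
        have h1 := h b.1 b.2
        rwa [finsum_eq_sum_of_fintype] at h1

theorem sqg_fib2 {α β : Type} [Finite α] [Finite β] (P : α → Prop) (Q : β → Prop)
    (R : α → β → Prop) (hR : ∀ a, P a → ∃ b, Q b ∧ R a b) (w : α → ℝ) (hw : ∀ a, 0 ≤ w a)
    (N M : ℝ) (hM : 0 ≤ M) (hN : (Nat.card {b // Q b} : ℝ) ≤ N)
    (h : ∀ b, Q b → ∑ᶠ a : {a // P a ∧ R a b}, w a.1 ≤ M) :
    ∑ᶠ a : {a // P a}, w a.1 ≤ N * M := by
  classical
  have := Fintype.ofFinite {b // Q b}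
  have h1 := sqg_fib P Q R hR w hw (fun _ => 1) M (fun b hb => by rw [one_mul]; exact h b hb)
  refine h1.trans (mul_le_mul_of_nonneg_right ?_ hM)
  rw [finsum_eq_sum_of_fintype, Finset.sum_const, Finset.card_univ, nsmul_eq_mul,
    ← Nat.card_eq_fintype_card, mul_one]
  exact hN

/-- a sum of equally bounded terms -/
theorem sqg_const {α : Type} [Finite α] (P : α → Prop) (w : α → ℝ) (b M : ℝ)
    (hb : 0 ≤ b) (hw : ∀ a, P a → w a ≤ b) (hN : (Nat.card {a // P a} : ℝ) ≤ M) :
    ∑ᶠ a : {a // P a}, w a.1 ≤ b * M := by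
  classical
  have := Fintype.ofFinite {a // P a}
  rw [finsum_eq_sum_of_fintype]
  calc ∑ a : {a // P a}, w a.1 ≤ ∑ _a : {a // P a}, b := Finset.sum_le_sum fun a _ => hw a.1 a.2
    _ = b * Nat.card {a // P a} := by
        rw [Finset.sum_const, Finset.card_univ, nsmul_eq_mul, ← Nat.card_eq_fintype_card, mul_comm]
    _ ≤ b * M := mul_le_mul_of_nonneg_left hN hb

/-- the weight -/
def sqg_W {F V : Type} [Field F] [AddCommGroup V] [Module F V] (α : ℝ) (A : Module.End F V) : ℝ :=
  (Nat.card {c : Module.End F V // c * A = A * c} : ℝ) ^ α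

theorem sqg_W_nonneg {F V : Type} [Field F] [AddCommGroup V] [Module F V] (α : ℝ)
    (A : Module.End F V) : 0 ≤ sqg_W α A := Real.rpow_nonneg (Nat.cast_nonneg _) _

/-- the centralisers of `A` and of its restriction to the range of `f(A)` -/
theorem sqg_cent (hD : S_DCU) (F V : Type) [Field F] [Finite F] [AddCommGroup V] [Module F V]
    [FiniteDimensional F V] (f : F[X]) (hf : f.Monic) (hi : Irreducible f) (α : ℝ) (hα : 0 ≤ α)
    (A : Module.End F V) (U : Submodule F V) (B : Module.End F U)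
    (hU : LinearMap.range (aeval A f : Module.End F V) = U) (hB : ∀ x : U, A x = B x) :
    sqg_W α A ≤ sqg_W α B * (Nat.card F : ℝ) ^
      (α * (((Module.finrank F V : ℝ) - Module.finrank F U) ^ 2 / (f.natDegree : ℝ))) := by
  subst hU
  have q0 : (0 : ℝ) < (Nat.card F : ℝ) := by exact_mod_cast Nat.card_pos
  have hs : ∀ v ∈ LinearMap.range (aeval A f : Module.End F V),
      A v ∈ LinearMap.range (aeval A f : Module.End F V) := by
    intro v hv
    have h1 := hB ⟨v, hv⟩
    have h2 : A v = ((B ⟨v, hv⟩ : LinearMap.range (aeval A f : Module.End F V)) : V) := h1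
    rw [h2]
    exact (B ⟨v, hv⟩).2
  have hBr : A.restrict hs = B := by
    refine LinearMap.ext fun x => Subtype.ext ?_
    exact hB x
  have h1 := hD F V f hf hi A hs
  rw [hBr] at h1
  have h2 : sqg_W α A ≤ ((Nat.card {c : Module.End F (LinearMap.range (aeval A f : Module.End F V)) //
        c * B = B * c} : ℝ) *
      (Nat.card F : ℝ) ^ (((Module.finrank F V : ℝ) -
        Module.finrank F (LinearMap.range (aeval A f : Module.End F V))) ^ 2 /
          (f.natDegree : ℝ))) ^ α :=
    Real.rpow_le_rpow (Nat.cast_nonneg _) h1 hα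
  refine h2.trans (le_of_eq ?_)
  rw [Real.mul_rpow (Nat.cast_nonneg _) (Real.rpow_nonneg q0.le _), ← Real.rpow_mul q0.le,
    mul_comm _ α]
  rfl

/-- the endomorphisms with a given range of `f(A)` -/
theorem sqg_U (hX : S_XA) (hD : S_DCU) (F V : Type) [Field F] [Finite F] [AddCommGroup V]
    [Module F V] [FiniteDimensional F V] (f g : F[X]) (hf : f.Monic) (hi : Irreducible f) (α : ℝ)
    (hα : 0 ≤ α) (U : Submodule F V) :
    ∑ᶠ A : {A : Module.End F V // aeval A (f * g) = 0 ∧
        LinearMap.range (aeval A f : Module.End F V) = U}, sqg_W α A.1 ≤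
      (∑ᶠ B : {B : Module.End F U // aeval B g = 0}, sqg_W α B.1) *
        ((Nat.card F : ℝ) ^
          (α * (((Module.finrank F V : ℝ) - Module.finrank F U) ^ 2 / (f.natDegree : ℝ))) *
        (Nat.card F : ℝ) ^ ((Module.finrank F U : ℝ) *
          ((Module.finrank F V : ℝ) - Module.finrank F U) +
        ((Module.finrank F V : ℝ) - Module.finrank F U) ^ 2 * (1 - 1 / (f.natDegree : ℝ)))) := by
  have hfE := TS.finite_End F V
  have hfU := TS.finite_End F U
  have q0 : (0 : ℝ) < (Nat.card F : ℝ) := by exact_mod_cast Nat.card_pos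
  refine sqg_fib (fun A : Module.End F V => aeval A (f * g) = 0 ∧
        LinearMap.range (aeval A f : Module.End F V) = U)
      (fun B : Module.End F U => aeval B g = 0) (fun A B => ∀ x : U, A x = B x) ?_ (sqg_W α)
      (sqg_W_nonneg α) (sqg_W α) _ ?_
  · rintro A ⟨h1, h4⟩
    have hAU : ∀ x ∈ U, A x ∈ U := by
      intro x hx
      rw [← h4] at hx ⊢
      obtain ⟨v, rfl⟩ := hx
      exact ⟨A v, (TS.comm_aeval A f v).symm⟩
    have hB : ∀ x : U, A x = (A.restrict hAU) x := fun x => rfl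
    refine ⟨A.restrict hAU, ?_, hB⟩
    refine LinearMap.ext fun x => Subtype.ext ?_
    rw [TS.aeval_coe U A _ hB g x]
    have hx : (x : V) ∈ LinearMap.range (aeval A f : Module.End F V) := by
      rw [h4]
      exact x.2
    obtain ⟨v, hv⟩ := hx
    rw [← hv]
    have h6 : aeval A (g * f) v = 0 := by
      rw [mul_comm g f, h1]
      rfl
    rw [map_mul, Module.End.mul_apply] at h6
    simpa using h6
  · intro B hB
    rw [← mul_assoc]
    refine sqg_const _ _ _ _ (mul_nonneg (sqg_W_nonneg _ _) (Real.rpow_nonneg q0.le _)) ?_ ?_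
    · rintro A ⟨⟨h1, h2⟩, h3⟩
      exact sqg_cent hD F V f hf hi α hα A U B h2 h3
    · refine le_trans ?_ (hX F V f hf hi U B)
      have hinj : Function.Injective (fun A : {A : Module.End F V // (aeval A (f * g) = 0 ∧
          LinearMap.range (aeval A f : Module.End F V) = U) ∧ ∀ x : U, A x = B x} =>
          (⟨A.1, A.2.2, fun v => (SetLike.ext_iff.1 A.2.1.2 _).1 ⟨v, rfl⟩⟩ :
            {A : Module.End F V // (∀ u : U, A u = B u) ∧ ∀ v, aeval A f v ∈ U})) := by
        intro A A' h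
        exact Subtype.ext (congrArg (fun z => z.1) h)
      exact_mod_cast Nat.card_le_card_of_injective _ hinj

theorem sqg_expo (s t x y : ℝ) (hs : 0 < s) (ht : 0 < t) :
    (x + y) ^ 2 / (s + t) ≤ x ^ 2 / s + y ^ 2 / t := by
  have h1 : x ^ 2 / s + y ^ 2 / t - (x + y) ^ 2 / (s + t) =
      (t * x - s * y) ^ 2 / (s * t * (s + t)) := by
    have : s + t ≠ 0 := by positivity
    field_simp
    ring
  have h3 : 0 ≤ (t * x - s * y) ^ 2 / (s * t * (s + t)) := by positivity
  linarith

/-- the recursion step -/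
theorem sqg_step (hSUB : S_SUB) (hX : S_XA) (hD : S_DCU) (F V : Type) [Field F] [Finite F]
    [AddCommGroup V] [Module F V] [FiniteDimensional F V] (f g : F[X]) (hf : f.Monic)
    (hi : Irreducible f) (α : ℝ) (hα : 0 ≤ α) (hα1 : α ≤ 1) (s C : ℝ) (hs : 0 < s) (hC : 0 ≤ C)
    (ih : ∀ U : Submodule F V,
      ∑ᶠ B : {B : Module.End F U // aeval B g = 0}, sqg_W α B.1 ≤
        C * (Nat.card F : ℝ) ^ ((Module.finrank F U : ℝ) ^ 2 -
          (1 - α) * (Module.finrank F U : ℝ) ^ 2 / s)) :
    ∑ᶠ A : {A : Module.End F V // aeval A (f * g) = 0}, sqg_W α A.1 ≤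
      16 * ((Module.finrank F V : ℝ) + 1) ^ 2 * C *
        (Nat.card F : ℝ) ^ ((Module.finrank F V : ℝ) ^ 2 -
          (1 - α) * (Module.finrank F V : ℝ) ^ 2 / (s + f.natDegree)) := by
  have hfE := TS.finite_End F V
  have hfS := TS.finite_Sub F V
  have q0 : (0 : ℝ) < (Nat.card F : ℝ) := by exact_mod_cast Nat.card_pos
  have q1 : (1 : ℝ) ≤ (Nat.card F : ℝ) := by exact_mod_cast Nat.card_pos
  have he : (0 : ℝ) < f.natDegree := by exact_mod_cast hi.natDegree_pos
  set q : ℝ := (Nat.card F : ℝ) with hqdef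
  set n : ℕ := Module.finrank F V with hn
  set e : ℝ := (f.natDegree : ℝ) with hedef
  have hE : (0 : ℝ) ≤ q ^ ((n : ℝ) ^ 2 - (1 - α) * (n : ℝ) ^ 2 / (s + e)) :=
    Real.rpow_nonneg q0.le _
  -- stage 2
  have stage2 : ∀ u : ℕ, u ≤ n →
      ∑ᶠ A : {A : Module.End F V // aeval A (f * g) = 0 ∧
        Module.finrank F (LinearMap.range (aeval A f : Module.End F V)) = u}, sqg_W α A.1 ≤
        4 * C * q ^ ((n : ℝ) ^ 2 - (1 - α) * (n : ℝ) ^ 2 / (s + e)) := by
    intro u hu
    have h1 : (Nat.card {W : Submodule F V // Module.finrank F W = u} : ℝ) ≤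
        4 * q ^ ((u : ℝ) * ((n : ℝ) - u)) := by
      have h2 := (hSUB F V u hu).2
      have h3 : (Nat.card {W : Submodule F V // Module.finrank F W = u} : ℝ) ≤
          4 * q ^ (u * (n - u)) := by
        rw [hqdef]
        exact_mod_cast h2
      refine h3.trans (le_of_eq ?_)
      rw [← Real.rpow_natCast q (u * (n - u))]
      push_cast [Nat.cast_sub hu]
      rfl
    have h2 := sqg_fib2 (fun A : Module.End F V => aeval A (f * g) = 0 ∧
        Module.finrank F (LinearMap.range (aeval A f : Module.End F V)) = u)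
      (fun U : Submodule F V => Module.finrank F U = u)
      (fun A U => LinearMap.range (aeval A f : Module.End F V) = U)
      (fun A hA => ⟨_, hA.2, rfl⟩) (sqg_W α) (sqg_W_nonneg α) (4 * q ^ ((u : ℝ) * ((n : ℝ) - u)))
      ((C * q ^ ((u : ℝ) ^ 2 - (1 - α) * (u : ℝ) ^ 2 / s)) *
        (q ^ (α * (((n : ℝ) - u) ^ 2 / e)) *
          q ^ ((u : ℝ) * ((n : ℝ) - u) + ((n : ℝ) - u) ^ 2 * (1 - 1 / e))))
      (by positivity) h1 (by
        intro U hU
        have h3 := sqg_U hX hD F V f g hf hi α hα U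
        rw [hU] at h3
        have h4 := ih U
        rw [hU] at h4
        refine le_trans ?_ (h3.trans (mul_le_mul_of_nonneg_right h4 (by positivity)))
        refine le_of_eq ?_
        refine finsum_eq_of_bijective (fun a => ⟨a.1, a.2.1.1, a.2.2⟩) ⟨?_, ?_⟩ ?_
        · intro a b hab
          exact Subtype.ext (congrArg (fun z => z.1) hab)
        · intro b
          exact ⟨⟨b.1, ⟨b.2.1, by rw [b.2.2, hU]⟩, b.2.2⟩, rfl⟩
        · intro a
          rfl)
    refine h2.trans ?_
    have h3 : 4 * q ^ ((u : ℝ) * ((n : ℝ) - u)) * ((C * q ^ ((u : ℝ) ^ 2 - (1 - α) * (u : ℝ) ^ 2 / s)) *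
        (q ^ (α * (((n : ℝ) - u) ^ 2 / e)) *
          q ^ ((u : ℝ) * ((n : ℝ) - u) + ((n : ℝ) - u) ^ 2 * (1 - 1 / e)))) =
        4 * C * q ^ ((n : ℝ) ^ 2 - (1 - α) * ((u : ℝ) ^ 2 / s + ((n : ℝ) - u) ^ 2 / e)) := by
      have h4 : (n : ℝ) ^ 2 - (1 - α) * ((u : ℝ) ^ 2 / s + ((n : ℝ) - u) ^ 2 / e) =
          (u : ℝ) * ((n : ℝ) - u) + (((u : ℝ) ^ 2 - (1 - α) * (u : ℝ) ^ 2 / s) +
          ((α * (((n : ℝ) - u) ^ 2 / e)) +
          ((u : ℝ) * ((n : ℝ) - u) + ((n : ℝ) - u) ^ 2 * (1 - 1 / e)))) := by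
        field_simp
        ring
      have h6 : ∀ a b c d : ℝ, q ^ (a + (b + (c + d))) = q ^ a * (q ^ b * (q ^ c * q ^ d)) := by
        intro a b c d
        rw [Real.rpow_add q0, Real.rpow_add q0, Real.rpow_add q0]
      rw [h4, h6]
      ring
    rw [h3]
    refine mul_le_mul_of_nonneg_left ?_ (by positivity)
    refine Real.rpow_le_rpow_of_exponent_le q1 ?_
    have h5 := sqg_expo s e u ((n : ℝ) - u) hs he
    have h6 : (u : ℝ) + ((n : ℝ) - u) = n := by ring
    rw [h6] at h5
    have h7 : 0 ≤ 1 - α := by linarith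
    have h8 := mul_le_mul_of_nonneg_left h5 h7
    rw [← mul_div_assoc] at h8
    linarith
  -- stage 1
  have h1 := sqg_fib2 (fun A : Module.End F V => aeval A (f * g) = 0)
    (fun _ : Fin (n + 1) => True)
    (fun A b => Module.finrank F (LinearMap.range (aeval A f : Module.End F V)) = b)
    (fun A _ => ⟨⟨Module.finrank F (LinearMap.range (aeval A f : Module.End F V)),
        Nat.lt_succ_of_le (Submodule.finrank_le _)⟩, trivial, rfl⟩)
    (sqg_W α) (sqg_W_nonneg α) ((n : ℝ) + 1)
    (4 * C * q ^ ((n : ℝ) ^ 2 - (1 - α) * (n : ℝ) ^ 2 / (s + e))) (by positivity)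
    (by
      rw [Nat.card_congr (Equiv.subtypeUnivEquiv fun _ => trivial)]
      refine le_of_eq ?_
      rw [Nat.card_eq_fintype_card, Fintype.card_fin]
      push_cast
      ring)
    (fun b _ => stage2 b.1 (Nat.lt_succ_iff.1 b.2))
  refine h1.trans ?_
  rw [← mul_assoc]
  refine mul_le_mul_of_nonneg_right ?_ hE
  have h9 : (0 : ℝ) ≤ n := Nat.cast_nonneg _
  have h10 : ((n : ℝ) + 1) * (4 * C) = 4 * ((n : ℝ) + 1) * C := by ring
  rw [h10]
  refine mul_le_mul_of_nonneg_right ?_ hC
  nlinarith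

/-- irreducible polynomials -/
theorem sqg_base (hIA : S_IA) (hD : S_DCU) (F V : Type) [Field F] [Finite F] [AddCommGroup V]
    [Module F V] [FiniteDimensional F V] (f : F[X]) (hf : f.Monic) (hi : Irreducible f) (α : ℝ)
    (hα : 0 ≤ α) :
    ∑ᶠ A : {A : Module.End F V // aeval A f = 0}, sqg_W α A.1 ≤
      (Nat.card F : ℝ) ^ ((Module.finrank F V : ℝ) ^ 2 -
          (1 - α) * (Module.finrank F V : ℝ) ^ 2 / (f.natDegree : ℝ)) := by
  have hfE := TS.finite_End F V
  have q0 : (0 : ℝ) < (Nat.card F : ℝ) := by exact_mod_cast Nat.card_pos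
  have he : (0 : ℝ) < f.natDegree := by exact_mod_cast hi.natDegree_pos
  have h1 := sqg_const (fun A : Module.End F V => aeval A f = 0) (sqg_W α)
    ((Nat.card F : ℝ) ^ (α * ((Module.finrank F V : ℝ) ^ 2 / (f.natDegree : ℝ)))) _
    (Real.rpow_nonneg q0.le _) (by
      intro A hA
      have hr : LinearMap.range (aeval A f : Module.End F V) = ⊥ := by
        rw [hA]
        exact LinearMap.range_zero
      have h2 := sqg_cent hD F V f hf hi α hα A ⊥ 0 hr (by
        intro x
        have hx : (x : V) = 0 := by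
          have := x.2
          rwa [Submodule.mem_bot] at this
        rw [hx, map_zero]
        rfl)
      refine h2.trans (le_of_eq ?_)
      have h3 : Nat.card {c : Module.End F (⊥ : Submodule F V) // c * 0 = 0 * c} = 1 := by
        rw [Nat.card_eq_one_iff_unique]
        refine ⟨⟨fun a b => ?_⟩, ⟨⟨0, rfl⟩⟩⟩
        refine Subtype.ext (LinearMap.ext fun x => ?_)
        exact Subsingleton.elim _ _
      rw [sqg_W, h3, Nat.cast_one, Real.one_rpow, one_mul, finrank_bot, Nat.cast_zero, sub_zero])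
    (hIA F V f hf hi)
  refine h1.trans (le_of_eq ?_)
  rw [← Real.rpow_add q0]
  congr 1
  field_simp
  ring

theorem t_SQG : M_SQG := by
  intro hSUB hIA hD F V _ _ _ _ _ g hg hdeg α hα hα1
  have hX : S_XA := t_XA hIA
  have key : ∀ d : ℕ, ∀ (V : Type) [AddCommGroup V] [Module F V] [FiniteDimensional F V]
      (g : F[X]), g.Monic → g.natDegree = d → 1 ≤ d →
      ∑ᶠ A : {A : Module.End F V // aeval A g = 0}, sqg_W α A.1 ≤
        (16 * ((Module.finrank F V : ℝ) + 1) ^ 2) ^ g.natDegree *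
        (Nat.card F : ℝ) ^ ((Module.finrank F V : ℝ) ^ 2 -
          (1 - α) * (Module.finrank F V : ℝ) ^ 2 / (g.natDegree : ℝ)) := by
    intro d
    induction d using Nat.strong_induction_on with
    | _ d ih =>
      intro V _ _ _ g hg hgd hd
      have hq : (0 : ℝ) < (Nat.card F : ℝ) := by exact_mod_cast Nat.card_pos
      have hnu : ¬ IsUnit g := by
        intro hu
        have := natDegree_eq_zero_of_isUnit hu
        omega
      obtain ⟨f, hf, hirr, g', rfl⟩ := exists_monic_irreducible_factor g hnu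
      have hg' : g'.Monic := hf.of_mul_monic_left hg
      have hdf : 0 < f.natDegree := hirr.natDegree_pos
      have hmul : (f * g').natDegree = f.natDegree + g'.natDegree := hf.natDegree_mul hg'
      have hn0 : (0 : ℝ) ≤ Module.finrank F V := Nat.cast_nonneg _
      have hB1 : (1 : ℝ) ≤ 16 * ((Module.finrank F V : ℝ) + 1) ^ 2 := by nlinarith
      by_cases hz : g'.natDegree = 0
      · have hg1 : g' = 1 := hg'.natDegree_eq_zero.1 hz
        subst hg1
        rw [mul_one]
        refine (sqg_base hIA hD F V f hf hirr α hα).trans ?_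
        exact le_mul_of_one_le_left (Real.rpow_nonneg hq.le _) (one_le_pow₀ hB1)
      · have h1 : ∀ U : Submodule F V,
            ∑ᶠ B : {B : Module.End F U // aeval B g' = 0}, sqg_W α B.1 ≤
            (16 * ((Module.finrank F V : ℝ) + 1) ^ 2) ^ g'.natDegree * (Nat.card F : ℝ) ^
              ((Module.finrank F U : ℝ) ^ 2 -
                (1 - α) * (Module.finrank F U : ℝ) ^ 2 / (g'.natDegree : ℝ)) := by
          intro U
          refine (ih g'.natDegree (by omega) U g' hg' rfl (by omega)).trans ?_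
          refine mul_le_mul_of_nonneg_right ?_ (Real.rpow_nonneg hq.le _)
          have hU : (Module.finrank F U : ℝ) ≤ Module.finrank F V := by
            exact_mod_cast Submodule.finrank_le U
          gcongr
        have h2 := sqg_step hSUB hX hD F V f g' hf hirr α hα hα1 (g'.natDegree : ℝ)
          ((16 * ((Module.finrank F V : ℝ) + 1) ^ 2) ^ g'.natDegree)
          (by exact_mod_cast Nat.pos_of_ne_zero hz) (by positivity) h1
        refine h2.trans ?_
        have h3 : ((f * g').natDegree : ℝ) = (g'.natDegree : ℝ) + f.natDegree := by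
          rw [hmul]
          push_cast
          ring
        rw [h3]
        refine mul_le_mul_of_nonneg_right ?_ (Real.rpow_nonneg hq.le _)
        rw [← pow_succ', hmul]
        exact pow_le_pow_right₀ hB1 (by omega)
  exact key g.natDegree V g hg rfl hdeg

end

end FGQ
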