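import Pool.Agent.FGE.Fin
import Pool.Agent.FGQ.C2Q
import Pool.Agent.FGQ.C3Q
import Pool.Agent.FGQ.C4Q
import Pool.Agent.FGQ.C5Q
import Pool.Agent.FGQ.C8Q
import Pool.Agent.FGQ.DCU
import Pool.Agent.FGQ.FNQ
import Pool.Agent.FGQ.FXG
import Pool.Agent.FGQ.GAQ
import Pool.Agent.FGQ.GEQ
import Pool.Agent.FGQ.NRM
import Pool.Agent.FGQ.PRQ
import Pool.Agent.FGQ.SL1
import Pool.Agent.FGQ.SLB
import Pool.Agent.FGQ.SLR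
import Pool.Agent.FGQ.SQG

/-!
# The geometric theorem for all `q`, oriented genus 1 and non-oriented genus 2: assembly
-/

namespace FGQ

open RSF FL0 FGE

theorem a_PRQ : S_PRQ := t_PRQ t_H2 FG2.a_LB
theorem a_C2Q : S_C2Q := t_C2Q a_JGL
theorem a_C4Q : S_C4Q := t_C4Q a_JGL
theorem a_C5Q : S_C5Q := t_C5Q a_JGL
theorem a_SL1 : S_SL1 := t_SL1 f_PI t_IA
theorem a_SLB : S_SLB := t_SLB t_NRM a_SL1
theorem a_SLR : S_SLR := t_SLR f_SUB a_SLB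
theorem a_C3Q : S_C3Q := t_C3Q a_JGL a_SLR
theorem a_SQG : S_SQG := t_SQG f_SUB t_IA t_DCU
theorem a_C8Q : S_C8Q := t_C8Q f_PI t_ORB t_ISO t_FXG a_SQG
theorem a_GEQ : S_GEQ := t_GEQ a_PRQ t_C2R a_C2N a_C2Q t_C2S t_C3R a_C3N a_C3Q a_C3S a_C4N a_C4Q
  t_C4S a_C5N a_C5Q t_C5S t_C8R t_C8N a_C8Q a_C8S
theorem a_GAQ : S_GAQ := t_GAQ a_PRQ a_C6N t_C6S t_C7N t_C7S
theorem a_Main : Main := t_FNQ f_MainG FG2.a_SM2 a_GEQ a_GAQ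

end FGQ
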