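import Pool.Agent.FGQ.StQ
import Pool.Agent.RSF.TS
import Pool.Agent.RSF.XA

/-!
# FGQ_SLR: semilinear maps whose power is killed by a polynomial
-/

set_option autoImplicit false

namespace FGQ

open RSF FL0 FGE Polynomial

noncomputable section

section

variable {F K V : Type} [Field F] [Field K] [Algebra F K] [AddCommGroup V] [Module F V]
  [Module K V] [IsScalarTower F K V]

/-- powers intertwine -/
theorem slr_pow {V' : Type} [AddCommGroup V'] [Module F V'] (g : V →ₗ[F] V')
    (A : Module.End F V) (A' : Module.End F V') (h : ∀ v, g (A v) = A' (g v)) (n : ℕ) (v : V) :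
    g ((A ^ n) v) = (A' ^ n) (g v) := by
  induction n generalizing v with
  | zero => rfl
  | succ n ih =>
    rw [pow_succ, pow_succ, Module.End.mul_apply, Module.End.mul_apply, ih, h]

/-- polynomials in powers intertwine -/
theorem slr_int {V' : Type} [AddCommGroup V'] [Module F V'] (g : V →ₗ[F] V')
    (A : Module.End F V) (A' : Module.End F V') (h : ∀ v, g (A v) = A' (g v)) (n : ℕ) (f : F[X])
    (v : V) : g (aeval (A ^ n) f v) = aeval (A' ^ n) f (g v) :=
  XA.aeval_intertwine g (A ^ n) (A' ^ n) (slr_pow g A A' h n) f v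

omit [IsScalarTower F K V] in
/-- semilinearity of the powers -/
theorem slr_sm_pow (φ : K ≃ₐ[F] K) (y : Module.End F V) (hy : SM φ y) (n : ℕ) (x : K) (v : V) :
    (y ^ n) (x • v) = ((φ ^ n : K ≃ₐ[F] K) x) • (y ^ n) v := by
  induction n generalizing x v with
  | zero => rfl
  | succ n ih =>
    rw [pow_succ y, Module.End.mul_apply, Module.End.mul_apply, hy, ih, pow_succ φ]
    rfl

/-- a polynomial in a `K`-linear map is `K`-linear -/
theorem slr_klin (z : Module.End F V) (hz : ∀ (x : K) (v : V), z (x • v) = x • z v) (f : F[X])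
    (x : K) (v : V) : aeval z f (x • v) = x • aeval z f v :=
  (XA.aeval_intertwine (DistribSMul.toLinearMap F V x) z z (fun v => (hz x v).symm) f v).symm

/-- the restriction -/
def slr_res (U : Submodule K V) (y : Module.End F V) (h : ∀ u ∈ U, y u ∈ U) :
    Module.End F U where
  toFun u := ⟨y u, h u u.2⟩
  map_add' a c := Subtype.ext (by simp)
  map_smul' a u := Subtype.ext (by simp)

/-- the semilinear map -/
def slr_semi (φ : K ≃ₐ[F] K) (y : Module.End F V) (hy : SM φ y) :
    V →ₛₗ[((φ : K ≃ₐ[F] K) : K →+* K)] V where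
  toFun := y
  map_add' := map_add y
  map_smul' x v := hy x v

/-- the induced map on the quotient -/
def slr_quo (φ : K ≃ₐ[F] K) (U : Submodule K V) (y : Module.End F V) (hy : SM φ y)
    (h : ∀ u ∈ U, y u ∈ U) : Module.End F (V ⧸ U) where
  toFun := U.mapQ U (slr_semi φ y hy)
    (show U ≤ Submodule.comap (slr_semi φ y hy) U from h)
  map_add' := map_add _
  map_smul' a x := by
    obtain ⟨v, rfl⟩ := U.mkQ_surjective x
    change U.mkQ (y (a • v)) = a • U.mkQ (y v)
    rw [map_smul, LinearMap.map_smul_of_tower]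

theorem slr_quo_mk (φ : K ≃ₐ[F] K) (U : Submodule K V) (y : Module.End F V) (hy : SM φ y)
    (h : ∀ u ∈ U, y u ∈ U) (v : V) :
    slr_quo φ U y hy h (U.mkQ v) = U.mkQ (y v) := rfl

theorem slr_quo_sm (φ : K ≃ₐ[F] K) (U : Submodule K V) (y : Module.End F V) (hy : SM φ y)
    (h : ∀ u ∈ U, y u ∈ U) : SM φ (slr_quo φ U y hy h) := by
  intro x w
  obtain ⟨v, rfl⟩ := U.mkQ_surjective w
  rw [← map_smul, slr_quo_mk, slr_quo_mk, hy, map_smul]

theorem slr_res_sm (φ : K ≃ₐ[F] K) (U : Submodule K V) (y : Module.End F V) (hy : SM φ y)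
    (h : ∀ u ∈ U, y u ∈ U) : SM φ (slr_res U y h) :=
  fun x v => Subtype.ext (hy x v)

theorem slr_fin (F K V : Type) [Field F] [Field K] [Finite K] [Algebra F K] [AddCommGroup V]
    [Module F V] [Module K V] [IsScalarTower F K V] [FiniteDimensional F V] :
    Finite F ∧ Finite V ∧ FiniteDimensional K V := by
  have h1 : Finite F := Finite.of_injective _ (algebraMap F K).injective
  have h2 : Finite V := Module.finite_of_finite F
  exact ⟨h1, h2, Module.Finite.of_restrictScalars_finite F K V⟩

/-- the count for a given subspace -/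
theorem slr_cnt [Finite K] [FiniteDimensional F V] (φ : K ≃ₐ[F] K) (b : ℕ) (f g : F[X])
    (U : Submodule K V) :
    Nat.card {y : Module.End F V // SM φ y ∧ (∀ u ∈ U, y u ∈ U) ∧
        (∀ u ∈ U, aeval (y ^ b) g u = 0) ∧ ∀ v, aeval (y ^ b) f v ∈ U} ≤
      Nat.card {y : Module.End F U // SM φ y ∧ aeval (y ^ b) g = 0} *
        Nat.card {y : Module.End F (V ⧸ U) // SM φ y ∧ aeval (y ^ b) f = 0} *
          Nat.card K ^ (Module.finrank K U * Module.finrank K (V ⧸ U)) := by
  obtain ⟨hF, hV, hKV⟩ := slr_fin F K V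
  obtain ⟨C, hc⟩ := U.exists_isCompl
  have d1 : Module.finrank K C = Module.finrank K (V ⧸ U) := by
    have e1 : Module.finrank K U + Module.finrank K C = Module.finrank K V :=
      Submodule.finrank_add_eq_of_isCompl hc
    have e2 : Module.finrank K (V ⧸ U) + Module.finrank K U = Module.finrank K V :=
      Submodule.finrank_quotient_add_finrank U
    omega
  have c1 : Nat.card K ^ (Module.finrank K U * Module.finrank K (V ⧸ U)) =
      Nat.card (Fin (Module.finrank K C) → U) := by
    rw [Nat.card_fun, Nat.card_eq_fintype_card (α := Fin _), Fintype.card_fin,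
      Module.natCard_eq_pow_finrank (K := K) (V := U), ← pow_mul, d1]
  rw [c1, ← Nat.card_prod, ← Nat.card_prod]
  have hU : Finite U := inferInstance
  have hQ : Finite (V ⧸ U) := Finite.of_surjective _ U.mkQ_surjective
  have hE1 : Finite (Module.End F U) := DFunLike.finite _
  have hE2 : Finite (Module.End F (V ⧸ U)) := DFunLike.finite _
  let bC := Module.finBasis K C
  refine Nat.card_le_card_of_injective (fun y =>
    ((⟨slr_res U y.1 y.2.2.1, slr_res_sm φ U y.1 y.2.1 y.2.2.1, ?_⟩,
      ⟨slr_quo φ U y.1 y.2.1 y.2.2.1, slr_quo_sm φ U y.1 y.2.1 y.2.2.1, ?_⟩),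
      fun i => U.projectionOnto C hc (y.1 (bC i : V)))) ?_
  · refine LinearMap.ext fun u => Subtype.ext ?_
    have h1 := slr_int (U.subtype.restrictScalars F) (slr_res U y.1 y.2.2.1) y.1
      (fun _ => rfl) b g u
    have h2 : aeval (y.1 ^ b) g (u : V) = 0 := y.2.2.2.1 u u.2
    exact h1.trans h2
  · refine LinearMap.ext fun w => ?_
    obtain ⟨v, rfl⟩ := U.mkQ_surjective w
    have h1 := slr_int (U.mkQ.restrictScalars F) y.1 (slr_quo φ U y.1 y.2.1 y.2.2.1)
      (fun _ => rfl) b f v
    have h2 : U.mkQ (aeval (y.1 ^ b) f v) = 0 := by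
      rw [Submodule.mkQ_apply, Submodule.Quotient.mk_eq_zero]
      exact y.2.2.2.2 v
    exact h1.symm.trans h2
  · rintro ⟨y, hy⟩ ⟨y', hy'⟩ h
    have h1 : slr_res U y hy.2.1 = slr_res U y' hy'.2.1 :=
      congrArg (fun z => z.1.1.1) h
    have h2 : slr_quo φ U y hy.1 hy.2.1 = slr_quo φ U y' hy'.1 hy'.2.1 :=
      congrArg (fun z => z.1.2.1) h
    have h3 : ∀ i, U.projectionOnto C hc (y (bC i : V)) = U.projectionOnto C hc (y' (bC i : V)) :=
      fun i => congrFun (congrArg (fun z => z.2) h) i
    apply Subtype.ext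
    apply LinearMap.ext
    intro v
    change y v = y' v
    have hUU : ∀ u ∈ U, y u = y' u := fun u hu =>
      congrArg Subtype.val (LinearMap.congr_fun h1 ⟨u, hu⟩)
    have hB : ∀ i, y (bC i : V) = y' (bC i : V) := fun i => by
      have b2 : U.mkQ (y (bC i : V)) = U.mkQ (y' (bC i : V)) :=
        LinearMap.congr_fun h2 (U.mkQ (bC i : V))
      rw [Submodule.mkQ_apply, Submodule.mkQ_apply, Submodule.Quotient.eq] at b2
      have b3 : U.projectionOnto C hc (y (bC i : V) - y' (bC i : V)) = 0 := by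
        rw [map_sub, h3, sub_self]
      have b4 := Submodule.projectionOnto_apply_left hc ⟨y (bC i : V) - y' (bC i : V), b2⟩
      rw [show ((⟨y (bC i : V) - y' (bC i : V), b2⟩ : U) : V) = y (bC i : V) - y' (bC i : V)
        from rfl, b3] at b4
      have b5 : y (bC i : V) - y' (bC i : V) = 0 := by
        have := congrArg Subtype.val b4
        simpa using this.symm
      exact sub_eq_zero.mp b5
    have hC : ∀ c : C, y (c : V) = y' (c : V) := fun c => by
      have e1 := bC.sum_repr c
      have e2 : (c : V) = ∑ i, bC.repr c i • (bC i : V) := by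
        calc (c : V) = C.subtype (∑ i, bC.repr c i • bC i) := by rw [e1]; rfl
          _ = ∑ i, C.subtype (bC.repr c i • bC i) := map_sum _ _ _
          _ = ∑ i, bC.repr c i • (bC i : V) :=
            Finset.sum_congr rfl fun i _ => C.subtype.map_smul _ _
      rw [e2, map_sum, map_sum]
      refine Finset.sum_congr rfl fun i _ => ?_
      rw [hy.1, hy'.1, hB]
    have hv : v ∈ U ⊔ C := by rw [hc.sup_eq_top]; exact Submodule.mem_top
    obtain ⟨u, hu, c, hcc, rfl⟩ := Submodule.mem_sup.mp hv
    rw [map_add, map_add, hUU u hu, hC ⟨c, hcc⟩]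

/-- the exponents -/
theorem slr_expo (s t x x' : ℝ) (hs : 0 < s) (ht : 0 < t) :
    (x + x') ^ 2 / (s + t) ≤ x ^ 2 / s + x' ^ 2 / t := by
  have h1 : x ^ 2 / s + x' ^ 2 / t - (x + x') ^ 2 / (s + t) =
      (t * x - s * x') ^ 2 / (s * t * (s + t)) := by
    have : s + t ≠ 0 := by positivity
    field_simp
    ring
  have h3 : 0 ≤ (t * x - s * x') ^ 2 / (s * t * (s + t)) := by positivity
  linarith

end

/-- The induction. -/
theorem slr_key (hSUB : S_SUB) (hSLB : S_SLB) (F K : Type) [Field F] [Field K] [Finite K]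
    [Algebra F K] (φ : K ≃ₐ[F] K) (b : ℕ) (hb : b.Prime) (hKb : Module.finrank F K = b)
    (hφ : φ ≠ 1) (d : ℕ) :
    ∀ (V : Type) [AddCommGroup V] [Module F V] [Module K V] [IsScalarTower F K V]
      [FiniteDimensional F V] (g : F[X]), g.Monic → g.natDegree = d → 1 ≤ d → g.coeff 0 ≠ 0 →
      (Nat.card {y : Module.End F V // SM φ y ∧ aeval (y ^ b) g = 0} : ℝ) ≤
        (16 * ((Module.finrank K V : ℝ) + 1) ^ 2) ^ g.natDegree *
          (Nat.card F : ℝ) ^ ((b : ℝ) * (Module.finrank K V : ℝ) ^ 2 -
            (Module.finrank K V : ℝ) ^ 2 / (g.natDegree : ℝ)) := by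
  induction d using Nat.strong_induction_on with
  | _ d ih =>
    intro V _ _ _ _ _ g hg hgd hd hg0
    obtain ⟨hF, hV, hKV⟩ := slr_fin F K V
    have hfE : Finite (Module.End F V) := DFunLike.finite _
    have hfS : Finite (Submodule K V) :=
      Finite.of_injective (fun W : Submodule K V => (W : Set V)) SetLike.coe_injective
    have hq0 : (0 : ℝ) < Nat.card F := by exact_mod_cast Nat.card_pos
    have hq1 : (1 : ℝ) ≤ Nat.card F := by exact_mod_cast Nat.card_pos
    have hcK : Nat.card K = Nat.card F ^ b := by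
      have : FiniteDimensional F K := Module.Finite.of_finite
      rw [Module.natCard_eq_pow_finrank (K := F) (V := K), hKb]
    have hφb : φ ^ b = 1 := by
      have : FiniteDimensional F K := Module.Finite.of_finite
      have h1 := IsGalois.card_aut_eq_finrank F K
      rw [← hKb, ← h1]
      exact pow_card_eq_one'
    have hnu : ¬ IsUnit g := by
      intro hu
      have := natDegree_eq_zero_of_isUnit hu
      omega
    obtain ⟨f, hf, hirr, g', rfl⟩ := exists_monic_irreducible_factor g hnu
    have hg' : g'.Monic := hf.of_mul_monic_left hg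
    have hdf : 0 < f.natDegree := hirr.natDegree_pos
    have hmul : (f * g').natDegree = f.natDegree + g'.natDegree := hf.natDegree_mul hg'
    rw [mul_coeff_zero] at hg0
    have hfX : f ≠ X := by
      rintro rfl
      exact hg0 (by rw [coeff_X_zero, zero_mul])
    have hg'0 : g'.coeff 0 ≠ 0 := fun h => hg0 (by rw [h, mul_zero])
    set q : ℝ := (Nat.card F : ℝ) with hqdef
    set m : ℕ := Module.finrank K V with hm
    set B : ℝ := 16 * ((m : ℝ) + 1) ^ 2 with hBdef
    have hm0 : (0 : ℝ) ≤ m := Nat.cast_nonneg _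
    have hB1 : (1 : ℝ) ≤ B := by rw [hBdef]; nlinarith
    have hB4 : (4 : ℝ) ≤ B := by rw [hBdef]; nlinarith
    by_cases hz : g'.natDegree = 0
    · have hg1 : g' = 1 := hg'.natDegree_eq_zero.1 hz
      subst hg1
      rw [mul_one]
      refine (hSLB F K V φ b hb hKb hφ f hf hirr hfX).trans ?_
      refine mul_le_mul_of_nonneg_right ?_ (by positivity)
      exact hB4.trans (le_self_pow₀ hB1 hdf.ne')
    set κ : ℝ := (g'.natDegree : ℝ) with hκdef
    set e : ℝ := (f.natDegree : ℝ) with hedef
    have hκ : 0 < κ := by rw [hκdef]; exact_mod_cast Nat.pos_of_ne_zero hz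
    have he : 0 < e := by rw [hedef]; exact_mod_cast hdf
    -- the range of `f (y ^ b)`
    let R : Module.End F V → Submodule K V := fun y =>
      Submodule.span K (Set.range (aeval (y ^ b) f : Module.End F V))
    have hR : ∀ y : Module.End F V, SM φ y → ∀ x ∈ R y, ∃ v, aeval (y ^ b) f v = x := by
      intro y hy x hx
      have hlin : ∀ (c : K) (v : V), aeval (y ^ b) f (c • v) = c • aeval (y ^ b) f v :=
        slr_klin (y ^ b) (fun c v => by rw [slr_sm_pow φ y hy, hφb]; rfl) f
      induction hx using Submodule.span_induction with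
      | mem x hx => exact hx
      | zero => exact ⟨0, map_zero _⟩
      | add x x' _ _ h h' =>
        obtain ⟨v, rfl⟩ := h
        obtain ⟨v', rfl⟩ := h'
        exact ⟨v + v', map_add _ _ _⟩
      | smul c x _ h =>
        obtain ⟨v, rfl⟩ := h
        exact ⟨c • v, hlin c v⟩
    have hRm : ∀ (y : Module.End F V) (v : V), aeval (y ^ b) f v ∈ R y := fun y v =>
      Submodule.subset_span ⟨v, rfl⟩
    -- for a given `U`
    have stage3 : ∀ (U : Submodule K V) (u : ℕ), Module.finrank K U = u → u ≤ m →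
        (Nat.card {y : Module.End F V //
          ((SM φ y ∧ aeval (y ^ b) (f * g') = 0) ∧ Module.finrank K (R y) = u) ∧ R y = U} : ℝ) ≤
          (B ^ g'.natDegree * q ^ ((b : ℝ) * (u : ℝ) ^ 2 - (u : ℝ) ^ 2 / κ)) *
            (4 * q ^ ((b : ℝ) * ((m : ℝ) - u) ^ 2 - ((m : ℝ) - u) ^ 2 / e)) *
              q ^ ((b : ℝ) * (u : ℝ) * ((m : ℝ) - u)) := by
      intro U u hU hum
      have hUf : Finite U := inferInstance
      have hQf : Finite (V ⧸ U) := Finite.of_surjective _ U.mkQ_surjective
      have hFU : FiniteDimensional F U := Module.Finite.of_finite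
      have hFQ : FiniteDimensional F (V ⧸ U) := Module.Finite.of_finite
      have hQd : Module.finrank K (V ⧸ U) = m - u := by
        have e2 : Module.finrank K (V ⧸ U) + Module.finrank K U = Module.finrank K V :=
          Submodule.finrank_quotient_add_finrank U
        omega
      have hQd' : ((Module.finrank K (V ⧸ U) : ℕ) : ℝ) = (m : ℝ) - u := by
        rw [hQd, Nat.cast_sub hum]
      have a1 : (Nat.card {y : Module.End F V //
          ((SM φ y ∧ aeval (y ^ b) (f * g') = 0) ∧ Module.finrank K (R y) = u) ∧ R y = U}) ≤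
          Nat.card {y : Module.End F V // SM φ y ∧ (∀ u ∈ U, y u ∈ U) ∧
            (∀ u ∈ U, aeval (y ^ b) g' u = 0) ∧ ∀ v, aeval (y ^ b) f v ∈ U} := by
        have hkey : ∀ y : Module.End F V, SM φ y → aeval (y ^ b) (f * g') = 0 → R y = U →
            (∀ u ∈ U, y u ∈ U) ∧ (∀ u ∈ U, aeval (y ^ b) g' u = 0) ∧
              ∀ v, aeval (y ^ b) f v ∈ U := by
          intro y hy hz hRU
          rw [← hRU]
          refine ⟨?_, ?_, hRm y⟩
          · intro x hx
            obtain ⟨v, rfl⟩ := hR y hy x hx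
            have h1 := slr_int y y y (fun _ => rfl) b f v
            rw [h1]
            exact hRm _ _
          · intro x hx
            obtain ⟨v, rfl⟩ := hR y hy x hx
            have h6 : aeval (y ^ b) (g' * f) v = 0 := by
              rw [mul_comm g' f, hz]
              rfl
            rw [map_mul, Module.End.mul_apply] at h6
            exact h6
        exact Nat.card_le_card_of_injective (fun y =>
          ⟨y.1, y.2.1.1.1, hkey y.1 y.2.1.1.1 y.2.1.1.2 y.2.2⟩)
          fun y y' h => by
            have h1 := congrArg Subtype.val h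
            exact Subtype.ext h1
      have a2 := slr_cnt φ b f g' U
      have a3 : (Nat.card {y : Module.End F U // SM φ y ∧ aeval (y ^ b) g' = 0} : ℝ) ≤
          B ^ g'.natDegree * q ^ ((b : ℝ) * (u : ℝ) ^ 2 - (u : ℝ) ^ 2 / κ) := by
        have h1 := ih g'.natDegree (by omega) U g' hg' rfl (by omega) hg'0
        rw [hU] at h1
        refine h1.trans (mul_le_mul_of_nonneg_right ?_ (by positivity))
        have hu' : (u : ℝ) ≤ m := by exact_mod_cast hum
        have hu0 : (0 : ℝ) ≤ u := Nat.cast_nonneg _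
        rw [hBdef]
        gcongr
      have a4 : (Nat.card {y : Module.End F (V ⧸ U) // SM φ y ∧ aeval (y ^ b) f = 0} : ℝ) ≤
          4 * q ^ ((b : ℝ) * ((m : ℝ) - u) ^ 2 - ((m : ℝ) - u) ^ 2 / e) := by
        have h1 := hSLB F K (V ⧸ U) φ b hb hKb hφ f hf hirr hfX
        rw [hQd'] at h1
        exact h1
      have a5 : ((Nat.card K ^ (Module.finrank K U * Module.finrank K (V ⧸ U)) : ℕ) : ℝ) =
          q ^ ((b : ℝ) * (u : ℝ) * ((m : ℝ) - u)) := by
        rw [hcK, ← pow_mul, hU, Nat.cast_pow, ← Real.rpow_natCast]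
        congr 1
        push_cast
        rw [hQd']
        ring
      calc (Nat.card {y : Module.End F V //
          ((SM φ y ∧ aeval (y ^ b) (f * g') = 0) ∧ Module.finrank K (R y) = u) ∧ R y = U} : ℝ)
          ≤ ((Nat.card {y : Module.End F U // SM φ y ∧ aeval (y ^ b) g' = 0} *
            Nat.card {y : Module.End F (V ⧸ U) // SM φ y ∧ aeval (y ^ b) f = 0} *
              Nat.card K ^ (Module.finrank K U * Module.finrank K (V ⧸ U)) : ℕ) : ℝ) := by
            exact_mod_cast a1.trans a2
        _ = (Nat.card {y : Module.End F U // SM φ y ∧ aeval (y ^ b) g' = 0} : ℝ) *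
            (Nat.card {y : Module.End F (V ⧸ U) // SM φ y ∧ aeval (y ^ b) f = 0} : ℝ) *
              q ^ ((b : ℝ) * (u : ℝ) * ((m : ℝ) - u)) := by
            rw [← a5]
            push_cast
            rfl
        _ ≤ _ := by gcongr
    -- for a given dimension
    have stage2 : ∀ u : ℕ, u ≤ m →
        (Nat.card {y : Module.End F V //
          (SM φ y ∧ aeval (y ^ b) (f * g') = 0) ∧ Module.finrank K (R y) = u} : ℝ) ≤
          16 * B ^ g'.natDegree * q ^ ((b : ℝ) * (m : ℝ) ^ 2 - (m : ℝ) ^ 2 / (κ + e)) := by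
      intro u hu
      have h1 : (Nat.card {W : Submodule K V // Module.finrank K W = u} : ℝ) ≤
          4 * q ^ ((b : ℝ) * (u : ℝ) * ((m : ℝ) - u)) := by
        have h2 := (hSUB K V u hu).2
        have h3 : (Nat.card {W : Submodule K V // Module.finrank K W = u} : ℝ) ≤
            4 * (Nat.card K : ℝ) ^ (u * (m - u)) := by exact_mod_cast h2
        refine h3.trans (le_of_eq ?_)
        rw [hcK, Nat.cast_pow, ← pow_mul, ← Real.rpow_natCast]
        congr 2
        push_cast [Nat.cast_sub hu]
        ring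
      have h2 := TS.fib (fun y : Module.End F V =>
          (SM φ y ∧ aeval (y ^ b) (f * g') = 0) ∧ Module.finrank K (R y) = u)
        (fun U : Submodule K V => Module.finrank K U = u)
        (fun y U => R y = U) (fun y hy => ⟨_, hy.2, rfl⟩)
        (4 * q ^ ((b : ℝ) * (u : ℝ) * ((m : ℝ) - u))) _ (by positivity) h1
        (fun U hU => stage3 U u hU hu)
      refine h2.trans ?_
      have h4 : (b : ℝ) * (m : ℝ) ^ 2 - ((u : ℝ) ^ 2 / κ + ((m : ℝ) - u) ^ 2 / e) =
          (b : ℝ) * (u : ℝ) * ((m : ℝ) - u) + (((b : ℝ) * (u : ℝ) ^ 2 - (u : ℝ) ^ 2 / κ) +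
          (((b : ℝ) * ((m : ℝ) - u) ^ 2 - ((m : ℝ) - u) ^ 2 / e) +
            (b : ℝ) * (u : ℝ) * ((m : ℝ) - u))) := by ring
      have h6 : ∀ a b c e : ℝ, q ^ (a + (b + (c + e))) = q ^ a * (q ^ b * (q ^ c * q ^ e)) := by
        intro a b c e
        rw [Real.rpow_add hq0, Real.rpow_add hq0, Real.rpow_add hq0]
      have h7 : q ^ ((b : ℝ) * (m : ℝ) ^ 2 - ((u : ℝ) ^ 2 / κ + ((m : ℝ) - u) ^ 2 / e)) ≤
          q ^ ((b : ℝ) * (m : ℝ) ^ 2 - (m : ℝ) ^ 2 / (κ + e)) := by
        refine Real.rpow_le_rpow_of_exponent_le hq1 ?_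
        have h5 := slr_expo κ e u ((m : ℝ) - u) hκ he
        have h8 : (u : ℝ) + ((m : ℝ) - u) = m := by ring
        rw [h8] at h5
        linarith
      calc _ = 16 * B ^ g'.natDegree *
            q ^ ((b : ℝ) * (m : ℝ) ^ 2 - ((u : ℝ) ^ 2 / κ + ((m : ℝ) - u) ^ 2 / e)) := by
            rw [h4, h6]
            ring
        _ ≤ _ := mul_le_mul_of_nonneg_left h7 (by positivity)
    have h1 := TS.fib (fun y : Module.End F V => SM φ y ∧ aeval (y ^ b) (f * g') = 0)
      (fun _ : Fin (m + 1) => True)
      (fun y u => Module.finrank K (R y) = u)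
      (fun y _ => ⟨⟨Module.finrank K (R y), Nat.lt_succ_of_le (Submodule.finrank_le _)⟩,
        trivial, rfl⟩)
      ((m : ℝ) + 1) _ (by positivity)
      (by
        rw [Nat.card_congr (Equiv.subtypeUnivEquiv fun _ => trivial), Nat.card_eq_fintype_card,
          Fintype.card_fin]
        push_cast
        exact le_rfl)
      (fun u _ => stage2 u (Nat.lt_succ_iff.1 u.2))
    refine h1.trans ?_
    have h3 : ((f * g').natDegree : ℝ) = κ + e := by
      rw [hmul, hκdef, hedef]
      push_cast
      ring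
    rw [h3, hmul, ← mul_assoc]
    refine mul_le_mul_of_nonneg_right ?_ (by positivity)
    have h4 : ((m : ℝ) + 1) * 16 ≤ B ^ f.natDegree := by
      refine le_trans ?_ (le_self_pow₀ hB1 hdf.ne')
      rw [hBdef]
      nlinarith
    rw [pow_add, ← mul_assoc]
    exact mul_le_mul_of_nonneg_right h4 (by positivity)

theorem t_SLR : M_SLR := by
  intro hSUB hSLB F K V _ _ _ _ _ _ _ _ _ φ b hb hKb hφ g hg hd hg0
  have hV : Finite V := Module.finite_of_finite K
  have hFV : FiniteDimensional F V := Module.Finite.of_finite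
  exact slr_key hSUB hSLB F K φ b hb hKb hφ g.natDegree V g hg rfl hd hg0

end

end FGQ
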